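import Pool.Agent.Lib.MP_b520b2_co.Leaf

/-!
# Values of packed vectors and matrices, and linear and quadratic certificates

`VR q δ b v r`: the number `v` is a vector of length `q` with entries at most `b` and with the value
`r` at the coefficients `δ`; `MR q δ b M r` is the same for symmetric matrices.  A cut is a pair of
vectors `p`, `n` which stands for the inequality `n ≤ p`.
-/

namespace Pool.Agent.MOS.V6

open Finset

/-- the entries of the vector which represents the square root of the area -/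
def SG : ℕ := 2 ^ 28

/-- the bound for the entries of vectors -/
def VB : ℕ := 2 ^ 44

/-- the bound for the entries of matrices -/
def MB : ℕ := 2 ^ 96

/-- the bound for the entries of weighted sums of matrices -/
def AB : ℕ := 2 ^ 142

/-- `v` is a vector with entries at most `b` and with value `r` -/
def VR (q : ℕ) (δ : ℕ → ℝ) (b v : ℕ) (r : ℝ) : Prop :=
  ∃ f : ℕ → ℕ, v = digs K q f ∧ (∀ i < q, f i ≤ b) ∧ lin q δ f = r

/-- `M` is a matrix with entries at most `b` and with value `r` -/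
def MR (q : ℕ) (δ : ℕ → ℝ) (b M : ℕ) (r : ℝ) : Prop :=
  ∃ f : ℕ → ℕ, M = digs K (q * q) f ∧ (∀ p < q * q, f p ≤ b) ∧ bil q δ f = r

/-- the number with digits `2 ^ K - 2 ^ e` -/
def hiM (e n : ℕ) : ℕ := Nat.mul (Nat.sub (Nat.pow 2 K) (Nat.pow 2 e)) (rep K n)

/-- all digits are smaller than `2 ^ e` -/
def okB (e n v : ℕ) : Bool := Nat.beq (Nat.land v (hiM e n)) 0

theorem okB_sound {e n : ℕ} (he : e ≤ K) {f : ℕ → ℕ} (hf : ∀ i < n, f i < 2 ^ K)
    (h : okB e n (digs K n f) = true) : ∀ i < n, f i < 2 ^ e := by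
  have h1 : digs K n f &&& ((2 ^ K - 2 ^ e) * rep K n) = 0 := Nat.eq_of_beq_eq_true h
  have hp := Nat.two_pow_pos e
  have hp' := Nat.two_pow_pos K
  rw [← digs_const K_pos, digs_land hf (fun i _ => by omega)] at h1
  have h0 : (0 : ℕ) = digs K n (fun _ => 0) := by simp [digs]
  rw [h0] at h1
  intro i hi
  have h2 := digs_inj (fun i hi => lt_of_le_of_lt Nat.and_le_left (hf i hi))
    (fun _ _ => hp') h1 i hi
  by_contra hcon
  rw [not_lt] at hcon
  -- some bit between `e` and `K`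
  have h3 : (f i &&& (2 ^ K - 2 ^ e)) >>> e = f i >>> e := by
    rw [Nat.shiftRight_and_distrib]
    have h4 : (2 ^ K - 2 ^ e) >>> e = 2 ^ (K - e) - 1 := by
      rw [Nat.shiftRight_eq_div_pow]
      have : 2 ^ K = 2 ^ (K - e) * 2 ^ e := by rw [← pow_add]; congr 1; omega
      rw [this]
      have h5 : 2 ^ (K - e) * 2 ^ e - 2 ^ e = (2 ^ (K - e) - 1) * 2 ^ e := by
        rw [Nat.sub_mul, one_mul]
      rw [h5, Nat.mul_div_cancel _ hp]
    rw [h4, Nat.and_two_pow_sub_one_eq_mod, Nat.mod_eq_of_lt]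
    rw [Nat.shiftRight_eq_div_pow, Nat.div_lt_iff_lt_mul hp, ← pow_add,
      show K - e + e = K by omega]
    exact hf i hi
  rw [h2, Nat.zero_shiftRight, Nat.shiftRight_eq_div_pow] at h3
  have h6 : 1 ≤ f i / 2 ^ e := (Nat.one_le_div_iff hp).2 hcon
  omega

/-- the number with digits `2 ^ 36 - 1` -/
def lowV (q : ℕ) : ℕ := Nat.mul (Nat.sub (Nat.pow 2 36) 1) (rep K q)

/-- the first `q` digits, cut to 36 bits -/
def sn (q a : ℕ) : ℕ := Nat.land a (lowV q)

/-- the entries of `sn` -/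
def se (a i : ℕ) : ℕ := dg a i % 2 ^ 36

theorem se_lt (a i : ℕ) : se a i < 2 ^ 36 := Nat.mod_lt _ (Nat.two_pow_pos _)

theorem sn_eq (q a : ℕ) : sn q a = digs K q (se a) := by
  have hK : 2 ^ 36 ≤ 2 ^ K := Nat.pow_le_pow_right (by norm_num) (by decide)
  have hp := Nat.two_pow_pos 36
  have h1 : lowV q = digs K q (fun _ => 2 ^ 36 - 1) := (digs_const K_pos q (2 ^ 36 - 1)).symm
  have h2 : digs K q (fun _ => 2 ^ 36 - 1) < 2 ^ (K * q) := digs_lt fun i _ => by omega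
  show a &&& lowV q = _
  rw [h1]
  calc a &&& digs K q (fun _ => 2 ^ 36 - 1)
      = (digs K q (dg a) + 2 ^ (K * q) * (a / 2 ^ (K * q))) &&&
        (digs K q (fun _ => 2 ^ 36 - 1) + 2 ^ (K * q) * 0) := by
        rw [← eq_digs_dg, mul_zero, add_zero]
    _ = digs K q (fun i => dg a i &&& (2 ^ 36 - 1)) := by
        rw [land_two_pow_mul_add (digs_lt fun i _ => dg_lt a i) h2, Nat.and_zero, mul_zero,
          add_zero, digs_land (fun i _ => dg_lt a i) (fun i _ => by omega)]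
    _ = _ := digs_congr fun i _ => by rw [Nat.and_two_pow_sub_one_eq_mod, se]

/-- truncated difference -/
def tsub (q u v : ℕ) : ℕ := Nat.sub (mx K (mk1 q) u v) v

/-- the general assumptions -/
structure Ctx (q : ℕ) (δ : ℕ → ℝ) : Prop where
  hq : 2 ≤ q
  hq' : q ≤ 1000
  hδ : ∀ i, 0 ≤ δ i

section rules

variable {q : ℕ} {δ : ℕ → ℝ} {b b' u v : ℕ} {r r' : ℝ}

theorem VR.mono (h : VR q δ b v r) (hb : b ≤ b') : VR q δ b' v r := by
  obtain ⟨f, h1, h2, h3⟩ := h
  exact ⟨f, h1, fun i hi => (h2 i hi).trans hb, h3⟩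

theorem VR.nonneg (hc : Ctx q δ) (h : VR q δ b v r) : 0 ≤ r := by
  obtain ⟨f, _, _, rfl⟩ := h
  exact lin_nonneg hc.hδ _

theorem VR.add (h : VR q δ b u r) (h' : VR q δ b' v r') :
    VR q δ (b + b') (Nat.add u v) (r + r') := by
  obtain ⟨f, rfl, h2, rfl⟩ := h
  obtain ⟨g, rfl, g2, rfl⟩ := h'
  refine ⟨fun i => f i + g i, ?_, fun i hi => Nat.add_le_add (h2 i hi) (g2 i hi), lin_add _ _⟩
  show digs K q f + digs K q g = _
  rw [digs_add]

theorem VR.smul (c : ℕ) (h : VR q δ b u r) : VR q δ (c * b) (Nat.mul c u) (c * r) := by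
  obtain ⟨f, rfl, h2, rfl⟩ := h
  refine ⟨fun i => c * f i, ?_, fun i hi => Nat.mul_le_mul_left _ (h2 i hi), lin_const_mul _ _⟩
  show c * digs K q f = _
  rw [digs_const_mul]

theorem VR.zero : VR q δ 0 0 0 :=
  ⟨fun _ => 0, by simp [digs], fun _ _ => le_rfl, by simp [lin]⟩

theorem mk1_eq (q : ℕ) : mk1 q = 2 ^ (K - 1) * rep K q := rfl

theorem VR.mx (hc : Ctx q δ) (hb : b < 2 ^ (K - 1)) (h : VR q δ b u r) (h' : VR q δ b v r') :
    ∃ s, VR q δ b (mx K (mk1 q) u v) s ∧ r ≤ s ∧ r' ≤ s := by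
  obtain ⟨f, rfl, h2, rfl⟩ := h
  obtain ⟨g, rfl, g2, rfl⟩ := h'
  refine ⟨_, ⟨fun i => max (f i) (g i), ?_, fun i hi => max_le (h2 i hi) (g2 i hi), rfl⟩,
    lin_mono hc.hδ fun i _ => le_max_left _ _, lin_mono hc.hδ fun i _ => le_max_right _ _⟩
  rw [mk1_eq, mx_eq K_pos (fun i hi => lt_of_le_of_lt (h2 i hi) hb)
    (fun i hi => lt_of_le_of_lt (g2 i hi) hb)]

theorem VR.tsub (hc : Ctx q δ) (hb : b < 2 ^ (K - 1)) (hb' : b' < 2 ^ (K - 1))
    (h : VR q δ b u r) (h' : VR q δ b' v r') :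
    ∃ s, VR q δ b (tsub q u v) s ∧ r - r' ≤ s := by
  obtain ⟨f, rfl, h2, rfl⟩ := h
  obtain ⟨g, rfl, g2, rfl⟩ := h'
  refine ⟨_, ⟨fun i => max (f i) (g i) - g i, ?_, fun i hi => ?_, rfl⟩, ?_⟩
  · show MOS.mx K (mk1 q) _ _ - _ = _
    rw [mk1_eq, mx_eq K_pos (fun i hi => lt_of_le_of_lt (h2 i hi) hb)
      (fun i hi => lt_of_le_of_lt (g2 i hi) hb'), digs_sub fun i _ => le_max_right _ _]
  · have := h2 i hi
    dsimp only
    omega
  · rw [lin_sub fun i _ => le_max_right _ _]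
    have := lin_mono (q := q) hc.hδ (u := f) (v := fun i => max (f i) (g i))
      fun i _ => le_max_left _ _
    linarith

theorem VR.le (hc : Ctx q δ) (hb : b < 2 ^ (K - 1)) (hb' : b' < 2 ^ (K - 1))
    (h : VR q δ b u r) (h' : VR q δ b' v r') (hl : leD (mk1 q) u v = true) : r ≤ r' := by
  obtain ⟨f, rfl, h2, rfl⟩ := h
  obtain ⟨g, rfl, g2, rfl⟩ := h'
  exact lin_mono hc.hδ (le_of_leD K_pos (fun i hi => lt_of_le_of_lt (h2 i hi) hb)
    (fun i hi => lt_of_le_of_lt (g2 i hi) hb') hl)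

theorem VR.san (a : ℕ) : VR q δ (2 ^ 36) (sn q a) (lin q δ (se a)) :=
  ⟨se a, sn_eq q a, fun i _ => (se_lt a i).le, rfl⟩

theorem VR.chk {e : ℕ} (he : e ≤ K) (hb : b < 2 ^ K) (h : VR q δ b v r) (hv : okB e q v = true) :
    VR q δ (2 ^ e) v r := by
  obtain ⟨f, rfl, h2, rfl⟩ := h
  exact ⟨f, rfl, fun i hi => (okB_sound he (fun i hi => lt_of_le_of_lt (h2 i hi) hb) hv i hi).le,
    rfl⟩

/-- the vector with all entries `1` -/
theorem VR.one : VR q δ 1 (rep K q) (lin q δ fun _ => 1) :=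
  ⟨fun _ => 1, (digs_one K_pos q).symm, fun _ _ => le_rfl, rfl⟩

theorem MR.mono (h : MR q δ b v r) (hb : b ≤ b') : MR q δ b' v r := by
  obtain ⟨f, h1, h2, h3⟩ := h
  exact ⟨f, h1, fun i hi => (h2 i hi).trans hb, h3⟩

theorem MR.add (h : MR q δ b u r) (h' : MR q δ b' v r') :
    MR q δ (b + b') (Nat.add u v) (r + r') := by
  obtain ⟨f, rfl, h2, rfl⟩ := h
  obtain ⟨g, rfl, g2, rfl⟩ := h'
  refine ⟨fun i => f i + g i, ?_, fun i hi => Nat.add_le_add (h2 i hi) (g2 i hi), bil_add _ _⟩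
  show digs K (q * q) f + digs K (q * q) g = _
  rw [digs_add]

theorem MR.smul (c : ℕ) (h : MR q δ b u r) : MR q δ (c * b) (Nat.mul c u) (c * r) := by
  obtain ⟨f, rfl, h2, rfl⟩ := h
  refine ⟨fun i => c * f i, ?_, fun i hi => Nat.mul_le_mul_left _ (h2 i hi), bil_const_mul _ _⟩
  show c * digs K (q * q) f = _
  rw [digs_const_mul]

theorem MR.zero : MR q δ 0 0 0 :=
  ⟨fun _ => 0, by simp [digs], fun _ _ => le_rfl, by simp [bil]⟩

theorem sum_lt {q : ℕ} {u : ℕ → ℕ} {b : ℕ} (hq : q ≤ 1000) (hu : ∀ i < q, u i ≤ b)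
    (hb : b ≤ 2 ^ 100) : ∑ i ∈ range q, u i < 2 ^ K := by
  calc ∑ i ∈ range q, u i ≤ ∑ _i ∈ range q, b := sum_le_sum fun i hi => hu i (mem_range.1 hi)
    _ = q * b := by simp
    _ ≤ 1000 * 2 ^ 100 := Nat.mul_le_mul hq hb
    _ < 2 ^ K := by norm_num [K]

theorem MR.out (hc : Ctx q δ) (hb : b ≤ 2 ^ 100) (hb' : b' ≤ 2 ^ 100) (h : VR q δ b u r)
    (h' : VR q δ b' v r') : MR q δ (2 * (b * b')) (outQ q u v) (2 * (r * r')) := by
  obtain ⟨f, rfl, h2, rfl⟩ := h
  obtain ⟨g, rfl, g2, rfl⟩ := h'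
  refine ⟨sym q f g, outD_eq hc.hq (sum_lt hc.hq' h2 hb) (sum_lt hc.hq' g2 hb'),
    fun p hp => sym_le h2 g2 hp, bil_sym (by have := hc.hq; omega) _ _⟩

theorem MR.sq (hc : Ctx q δ) (hb : b ≤ 2 ^ 100) (h : VR q δ b u r) :
    MR q δ (2 * (b * b)) (sqQ q u) (2 * (r * r)) := by
  obtain ⟨f, rfl, h2, rfl⟩ := h
  have hq := hc.hq
  refine ⟨sym q f f, ?_, fun p hp => sym_le h2 h2 hp, bil_sym (by omega) _ _⟩
  show 2 * digs K q f * spread _ _ (digs K q f) = _
  rw [spread_eq K_pos hq (sum_lt hc.hq' h2 hb), mul_assoc, digs_mul_digsS (by omega),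
    digs_const_mul]
  apply digs_congr
  intro p _
  rw [sym]
  ring

theorem MR.one (hq : 0 < q) : MR q δ 1 (rep K (Nat.mul q q)) ((lin q δ fun _ => 1) ^ 2) := by
  refine ⟨fun _ => 1, (digs_one K_pos _).symm, fun _ _ => le_rfl, ?_⟩
  have := bil_mul (δ := δ) hq (fun _ => 1) (fun _ => 1)
  simp only [mul_one] at this
  rw [this, pow_two]

theorem MR.chk {e : ℕ} (he : e ≤ K) (hb : b < 2 ^ K) (h : MR q δ b v r)
    (hv : okB e (Nat.mul q q) v = true) : MR q δ (2 ^ e) v r := by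
  obtain ⟨f, rfl, h2, rfl⟩ := h
  exact ⟨f, rfl, fun i hi => (okB_sound he (fun i hi => lt_of_le_of_lt (h2 i hi) hb) hv i hi).le,
    rfl⟩

theorem MR.le (hc : Ctx q δ) (hb : b < 2 ^ (K - 1)) (hb' : b' < 2 ^ (K - 1))
    (h : MR q δ b u r) (h' : MR q δ b' v r') (hl : leD (mk2 q) u v = true) : r ≤ r' := by
  obtain ⟨f, rfl, h2, rfl⟩ := h
  obtain ⟨g, rfl, g2, rfl⟩ := h'
  exact leM_sound (fun i hi => lt_of_le_of_lt (h2 i hi) hb)
    (fun i hi => lt_of_le_of_lt (g2 i hi) hb') hl hc.hδ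

end rules

/-! ### cuts -/

/-- a cut: the inequality `n ≤ p` -/
inductive Cu where
  | mk (p n : ℕ) : Cu

/-- a multiple of a cut -/
inductive Ml where
  | mk (i c : ℕ) : Ml

/-- the cut holds -/
def CutH (q : ℕ) (δ : ℕ → ℝ) : Cu → Prop
  | .mk p n => ∃ rp rn, VR q δ (2 ^ 36) p rp ∧ VR q δ (2 ^ 36) n rn ∧ rn ≤ rp

/-- the tail -/
noncomputable def tlC (l : List Cu) : List Cu :=
  List.rec (motive := fun _ => List Cu) [] (fun _ t _ => t) l

/-- the list without its first `i` entries -/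
noncomputable def drC (cuts : List Cu) (i : ℕ) : List Cu :=
  Nat.rec (motive := fun _ => List Cu) cuts (fun _ ih => tlC ih) i

theorem mem_drC {c : Cu} {cuts : List Cu} : ∀ {i : ℕ}, c ∈ drC cuts i → c ∈ cuts
  | 0, h => h
  | i + 1, h => by
    refine mem_drC (i := i) ?_
    have h : c ∈ tlC (drC cuts i) := h
    cases hd : drC cuts i with
    | nil => rw [hd] at h; exact h
    | cons a l => rw [hd] at h; exact List.mem_cons_of_mem _ h

/-- the `i`-th cut -/
noncomputable def getC (cuts : List Cu) (i : ℕ) (k : ℕ → ℕ → Bool) : Bool :=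
  List.rec (motive := fun _ => Bool) false
    (fun c _ _ => Cu.rec (motive := fun _ => Bool) (fun p n => k p n) c) (drC cuts i)

theorem getC_sound {q : ℕ} {δ : ℕ → ℝ} {cuts : List Cu} (hc : ∀ c ∈ cuts, CutH q δ c)
    {i : ℕ} {k : ℕ → ℕ → Bool} (h : getC cuts i k = true) :
      ∃ p n rp rn, k p n = true ∧ VR q δ (2 ^ 36) p rp ∧ VR q δ (2 ^ 36) n rn ∧ rn ≤ rp := by
  unfold getC at h
  cases hd : drC cuts i with
  | nil => rw [hd] at h; exact absurd h (by simp)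
  | cons c l =>
    rw [hd] at h
    obtain ⟨p, n⟩ := c
    obtain ⟨rp, rn, h1, h2, h3⟩ := hc (.mk p n) (mem_drC (i := i) (by rw [hd]; simp))
    exact ⟨p, n, rp, rn, h, h1, h2, h3⟩

/-- adds the multiples of the cuts: the vectors `p` to the first argument, the vectors `n` to the
second one -/
noncomputable def comb (cuts : List Cu) (al : List Ml) : ℕ → ℕ → ℕ → (ℕ → ℕ → Bool) → Bool :=
  List.rec (motive := fun _ => ℕ → ℕ → ℕ → (ℕ → ℕ → Bool) → Bool) (fun _ p m k => k p m)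
    (fun e _ ih n p m k => Ml.rec (motive := fun _ => Bool) (fun i c =>
      andB (Nat.ble n 63) (andB (Nat.ble c 1099511627776) (getC cuts i (fun a b =>
        ih (Nat.succ n) (Nat.add p (Nat.mul c a)) (Nat.add m (Nat.mul c b)) k)))) e) al

/-- the bound for the entries of one multiple -/
def CB : ℕ := 2 ^ 76

theorem comb_sound {q : ℕ} {δ : ℕ → ℝ} {cuts : List Cu} (hc : ∀ c ∈ cuts, CutH q δ c)
    {B : ℕ} (al : List Ml) : ∀ {n p m : ℕ} {rp rm : ℝ} {k : ℕ → ℕ → Bool}, n ≤ 64 →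
      VR q δ (B + n * CB) p rp → VR q δ (B + n * CB) m rm → comb cuts al n p m k = true →
      ∃ p' m' rp' rm', k p' m' = true ∧ VR q δ (B + 64 * CB) p' rp' ∧
        VR q δ (B + 64 * CB) m' rm' ∧ rp - rm ≤ rp' - rm' := by
  induction al with
  | nil =>
    intro n p m rp rm k hn hp hm h
    have hb : B + n * CB ≤ B + 64 * CB := Nat.add_le_add_left (Nat.mul_le_mul_right _ hn) _
    exact ⟨p, m, rp, rm, h, hp.mono hb, hm.mono hb, le_rfl⟩
  | cons e al ih =>
    obtain ⟨i, c⟩ := e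
    intro n p m rp rm k hn hp hm h
    obtain ⟨g1, h⟩ := andB_eq_true.1 h
    obtain ⟨g2, h⟩ := andB_eq_true.1 h
    have g1 : n ≤ 63 := Nat.le_of_ble_eq_true g1
    have g2 : c ≤ 2 ^ 40 := Nat.le_of_ble_eq_true g2
    obtain ⟨a, b, ra, rb, h, ha, hb, hab⟩ := getC_sound hc h
    have hcb : c * 2 ^ 36 ≤ CB := (Nat.mul_le_mul_right _ g2).trans (by norm_num [CB])
    have e1 : ∀ {x y : ℕ}, B + n * CB + c * 2 ^ 36 ≤ B + (n + 1) * CB := by
      intro x y
      rw [Nat.add_mul, Nat.one_mul]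
      omega
    obtain ⟨p', m', rp', rm', h1, h2, h3, h4⟩ := ih (n := n + 1) (by omega)
      ((hp.add (ha.smul c)).mono (e1 (x := 0) (y := 0)))
      ((hm.add (hb.smul c)).mono (e1 (x := 0) (y := 0))) h
    refine ⟨p', m', rp', rm', h1, h2, h3, le_trans ?_ h4⟩
    have : (0 : ℝ) ≤ c * (ra - rb) := mul_nonneg (Nat.cast_nonneg _) (by linarith)
    linarith

/-- checks the size of the entries of a vector -/
def vck (q v : ℕ) (k : ℕ → Bool) : Bool := andB (okB 44 q v) (k v)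

theorem vck_sound {q : ℕ} {δ : ℕ → ℝ} {b v : ℕ} {r : ℝ} {k : ℕ → Bool} (hb : b < 2 ^ K)
    (h : VR q δ b v r) (hk : vck q v k = true) : VR q δ VB v r ∧ k v = true := by
  obtain ⟨h1, h2⟩ := andB_eq_true.1 hk
  exact ⟨h.chk (by norm_num [K]) hb h1, h2⟩

/-- checks the size of the entries of a matrix -/
def mck (q v : ℕ) (k : ℕ → Bool) : Bool := andB (okB 96 (Nat.mul q q) v) (k v)

theorem mck_sound {q : ℕ} {δ : ℕ → ℝ} {b v : ℕ} {r : ℝ} {k : ℕ → Bool} (hb : b < 2 ^ K)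
    (h : MR q δ b v r) (hk : mck q v k = true) : MR q δ MB v r ∧ k v = true := by
  obtain ⟨h1, h2⟩ := andB_eq_true.1 hk
  exact ⟨h.chk (by norm_num [K]) hb h1, h2⟩

/-- checks the size of the entries of a weighted sum -/
def ack (q v : ℕ) (k : ℕ → Bool) : Bool := andB (okB 142 (Nat.mul q q) v) (k v)

theorem ack_sound {q : ℕ} {δ : ℕ → ℝ} {b v : ℕ} {r : ℝ} {k : ℕ → Bool} (hb : b < 2 ^ K)
    (h : MR q δ b v r) (hk : ack q v k = true) : MR q δ AB v r ∧ k v = true := by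
  obtain ⟨h1, h2⟩ := andB_eq_true.1 hk
  exact ⟨h.chk (by norm_num [K]) hb h1, h2⟩

/-! ### quadratic certificates -/

/-- an item of a quadratic certificate -/
inductive QE where
  /-- `w (p - m) ^ 2` -/
  | sq (w p m : ℕ) : QE
  /-- `c g_i v` -/
  | cv (c i v : ℕ) : QE
  /-- `c g_i g_j` -/
  | cc (c i j : ℕ) : QE

/-- the bound for the entries of one item -/
def IB : ℕ := 2 ^ 150

/-- adds `w` times the matrices `M`, `N` to `A`, `C`: the coefficient `w` is at most `2 ^ 76`, or it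
is at most `2 ^ 110` and the entries of `M` and `N` are smaller than `2 ^ 40` -/
noncomputable def stp (q w M N A C : ℕ) (k : ℕ → ℕ → Bool) : Bool :=
  Bool.rec (motive := fun _ => Bool)
    (andB (Nat.ble w 1298074214633706907132624082305024) (andB (okB 40 (Nat.mul q q) M)
      (andB (okB 40 (Nat.mul q q) N) (k (Nat.add A (Nat.mul w M)) (Nat.add C (Nat.mul w N))))))
    (k (Nat.add A (Nat.mul w M)) (Nat.add C (Nat.mul w N))) (Nat.ble w 75557863725914323419136)

theorem stp_sound {q : ℕ} {δ : ℕ → ℝ} {w M N A C B : ℕ} {rM rN rA rC : ℝ} {k : ℕ → ℕ → Bool}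
    (hM : MR q δ (2 ^ 74) M rM) (hN : MR q δ (2 ^ 74) N rN) (hA : MR q δ B A rA)
    (hC : MR q δ B C rC) (h : stp q w M N A C k = true) :
    ∃ A' C', k A' C' = true ∧ MR q δ (B + IB) A' (rA + w * rM) ∧
      MR q δ (B + IB) C' (rC + w * rN) := by
  rw [stp] at h
  cases hw : Nat.ble w 75557863725914323419136 with
  | true =>
    rw [hw] at h
    have g2 : w ≤ 2 ^ 76 := Nat.le_of_ble_eq_true hw
    have b1 : w * 2 ^ 74 ≤ IB := (Nat.mul_le_mul_right _ g2).trans (by norm_num [IB])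
    exact ⟨_, _, h, (hA.add (hM.smul w)).mono (Nat.add_le_add_left b1 _),
      (hC.add (hN.smul w)).mono (Nat.add_le_add_left b1 _)⟩
  | false =>
    rw [hw] at h
    obtain ⟨g2, h⟩ := andB_eq_true.1 h
    obtain ⟨g3, h⟩ := andB_eq_true.1 h
    obtain ⟨g4, h⟩ := andB_eq_true.1 h
    have g2 : w ≤ 2 ^ 110 := Nat.le_of_ble_eq_true g2
    have b1 : w * 2 ^ 40 ≤ IB := (Nat.mul_le_mul_right _ g2).trans (by norm_num [IB])
    have hK : (40 : ℕ) ≤ K := by norm_num [K]
    have hb : (2 : ℕ) ^ 74 < 2 ^ K := by norm_num [K]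
    exact ⟨_, _, h, (hA.add ((hM.chk hK hb g3).smul w)).mono (Nat.add_le_add_left b1 _),
      (hC.add ((hN.chk hK hb g4).smul w)).mono (Nat.add_le_add_left b1 _)⟩

/-- the check of a quadratic certificate -/
noncomputable def qcGo (q : ℕ) (cuts : List Cu) (l : List QE) : ℕ → ℕ → ℕ → Bool :=
  List.rec (motive := fun _ => ℕ → ℕ → ℕ → Bool) (fun _ A C => leD (mk2 q) A C)
    (fun e _ ih n A C => andB (Nat.ble n 255) (QE.rec (motive := fun _ => Bool)
      (fun w p m => stp q w (Nat.add (sqQ q (sn q p)) (sqQ q (sn q m)))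
        (Nat.mul 2 (outQ q (sn q p) (sn q m))) A C (ih (Nat.succ n)))
      (fun c i v => getC cuts i (fun a b =>
        stp q c (outQ q a (sn q v)) (outQ q b (sn q v)) A C (ih (Nat.succ n))))
      (fun c i j => getC cuts i (fun a b => getC cuts j (fun a' b' =>
        stp q c (Nat.add (outQ q a a') (outQ q b b')) (Nat.add (outQ q a b') (outQ q b a')) A C
          (ih (Nat.succ n))))) e)) l

theorem qcGo_sound {q : ℕ} {δ : ℕ → ℝ} (hx : Ctx q δ) {cuts : List Cu}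
    (hc : ∀ c ∈ cuts, CutH q δ c) (l : List QE) :
    ∀ {n A C : ℕ} {rA rC : ℝ}, n ≤ 256 → MR q δ (FB + n * IB) A rA → MR q δ (FB + n * IB) C rC →
      qcGo q cuts l n A C = true → rA ≤ rC := by
  induction l with
  | nil =>
    intro n A C rA rC hn hA hC h
    have hb : FB + n * IB < 2 ^ (K - 1) := by
      calc FB + n * IB ≤ FB + 256 * IB := Nat.add_le_add_left (Nat.mul_le_mul_right _ hn) _
        _ < 2 ^ (K - 1) := by norm_num [FB, IB, K]
    exact MR.le hx hb hb hA hC h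
  | cons e l ih =>
    intro n A C rA rC _ hA hC h
    obtain ⟨g1, h⟩ := andB_eq_true.1 h
    have g1 : n ≤ 255 := Nat.le_of_ble_eq_true g1
    have e1 : FB + n * IB + IB ≤ FB + (n + 1) * IB := by
      rw [Nat.add_mul, Nat.one_mul]
      omega
    have h28 : (2 : ℕ) ^ 36 ≤ 2 ^ 100 := by norm_num
    have hout : ∀ {u v : ℕ} {r r' : ℝ}, VR q δ (2 ^ 36) u r → VR q δ (2 ^ 36) v r' →
        MR q δ (2 ^ 73) (outQ q u v) (2 * (r * r')) := fun h h' =>
      (MR.out hx h28 h28 h h').mono (by norm_num)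
    cases e with
    | sq w p m =>
      have hp := VR.san (q := q) (δ := δ) p
      have hm := VR.san (q := q) (δ := δ) m
      have k1 := ((MR.sq hx h28 hp).mono (b' := 2 ^ 73) (by norm_num)).add
        ((MR.sq hx h28 hm).mono (b' := 2 ^ 73) (by norm_num))
      have k2 := (hout hp hm).smul 2
      have h : stp q w (Nat.add (sqQ q (sn q p)) (sqQ q (sn q m)))
        (Nat.mul 2 (outQ q (sn q p) (sn q m))) A C (qcGo q cuts l (Nat.succ n)) = true := h
      obtain ⟨A', C', h', hA', hC'⟩ := stp_sound (k1.mono (by norm_num)) (k2.mono (by norm_num))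
        hA hC h
      have := ih (n := Nat.succ n) (by omega) (hA'.mono e1) (hC'.mono e1) h'
      push_cast at this
      have h2 : 0 ≤ (w : ℝ) * (lin q δ (se p) - lin q δ (se m)) ^ 2 :=
        mul_nonneg (Nat.cast_nonneg _) (sq_nonneg _)
      clear e1
      nlinarith
    | cv c i v =>
      obtain ⟨a, b, ra, rb, h, ha, hb, hab⟩ := getC_sound hc h
      have hv := VR.san (q := q) (δ := δ) v
      have h : stp q c (outQ q a (sn q v)) (outQ q b (sn q v)) A C
        (qcGo q cuts l (Nat.succ n)) = true := h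
      obtain ⟨A', C', h', hA', hC'⟩ := stp_sound ((hout ha hv).mono (by norm_num))
        ((hout hb hv).mono (by norm_num)) hA hC h
      have := ih (n := n + 1) (by omega) (hA'.mono e1) (hC'.mono e1) h'
      have h2 : 0 ≤ (c : ℝ) * ((ra - rb) * lin q δ (se v)) :=
        mul_nonneg (Nat.cast_nonneg _) (mul_nonneg (by linarith) (hv.nonneg hx))
      clear e1
      nlinarith
    | cc c i j =>
      obtain ⟨a, b, ra, rb, h, ha, hb, hab⟩ := getC_sound hc h
      obtain ⟨a', b', ra', rb', h, ha', hb', hab'⟩ := getC_sound hc h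
      have h : stp q c (Nat.add (outQ q a a') (outQ q b b')) (Nat.add (outQ q a b') (outQ q b a'))
        A C (qcGo q cuts l (Nat.succ n)) = true := h
      obtain ⟨A', C', h', hA', hC'⟩ := stp_sound
        (((hout ha ha').add (hout hb hb')).mono (by norm_num))
        (((hout ha hb').add (hout hb ha')).mono (by norm_num)) hA hC h
      have := ih (n := n + 1) (by omega) (hA'.mono e1) (hC'.mono e1) h'
      have h2 : 0 ≤ (c : ℝ) * ((ra - rb) * (ra' - rb')) :=
        mul_nonneg (Nat.cast_nonneg _) (mul_nonneg (by linarith) (by linarith))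
      clear e1
      nlinarith

/-- a quadratic certificate -/
inductive QCt where
  | mk (sc mu : ℕ) (l : List QE) : QCt

/-- the cuts of the cell and the matrices of the total area and of the area of the explicit squares
and the first square of the tail -/
structure CX where
  /-- the cuts -/
  cuts : List Cu
  /-- the total area -/
  S2 : ℕ
  /-- the area of the explicit squares and of the first square of the tail -/
  NG : ℕ

/-- the inequalities hold -/
structure CXok (q : ℕ) (δ : ℕ → ℝ) (cx : CX) : Prop where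
  cut : ∀ c ∈ cx.cuts, CutH q δ c
  mat : ∃ rS rN, MR q δ (2 ^ 70) cx.S2 rS ∧ MR q δ (2 ^ 70) cx.NG rN ∧ rN ≤ rS

/-- the check of a quadratic certificate for `A ≤ C` -/
noncomputable def qc (q : ℕ) (cx : CX) (c : QCt) (A C : ℕ) : Bool :=
  QCt.rec (motive := fun _ => Bool) (fun sc mu l => andB (Nat.ble 1 sc) (andB (Nat.ble sc 65536)
    (andB (Nat.ble mu 1208925819614629174706176)
      (qcGo q cx.cuts l 0 (Nat.add (Nat.mul sc A) (Nat.mul mu cx.S2))
        (Nat.add (Nat.mul sc C) (Nat.mul mu cx.NG)))))) c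

theorem qc_sound {q : ℕ} {δ : ℕ → ℝ} (hx : Ctx q δ) {cx : CX} (hc : CXok q δ cx) {c : QCt}
    {A C b : ℕ} {rA rC : ℝ} (hb : b ≤ 2 ^ 140) (hA : MR q δ b A rA) (hC : MR q δ b C rC)
    (h : qc q cx c A C = true) : rA ≤ rC := by
  obtain ⟨sc, mu, l⟩ := c
  obtain ⟨rS, rN, hS, hN, hSN⟩ := hc.mat
  obtain ⟨g1, h⟩ := andB_eq_true.1 h
  obtain ⟨g2, h⟩ := andB_eq_true.1 h
  obtain ⟨g3, h⟩ := andB_eq_true.1 h
  have g1 : 1 ≤ sc := Nat.le_of_ble_eq_true g1
  have g2 : sc ≤ 2 ^ 16 := Nat.le_of_ble_eq_true g2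
  have g3 : mu ≤ 2 ^ 80 := Nat.le_of_ble_eq_true g3
  have e : sc * b + mu * 2 ^ 70 ≤ FB + 0 * IB := by
    calc sc * b + mu * 2 ^ 70 ≤ 2 ^ 16 * 2 ^ 140 + 2 ^ 80 * 2 ^ 70 :=
        Nat.add_le_add (Nat.mul_le_mul g2 hb) (Nat.mul_le_mul_right _ g3)
      _ ≤ FB + 0 * IB := by norm_num [FB]
  have h1 := qcGo_sound hx hc.cut l (by norm_num) (((hA.smul sc).add (hS.smul mu)).mono e)
    (((hC.smul sc).add (hN.smul mu)).mono e) h
  have h2 : (0 : ℝ) ≤ mu * (rS - rN) := mul_nonneg (Nat.cast_nonneg _) (by linarith)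
  have h3 : (sc : ℝ) * (rA - rC) ≤ 0 := by linarith
  have h7 : (0 : ℝ) < sc := by exact_mod_cast g1
  by_contra hcon
  rw [not_le] at hcon
  have := mul_pos h7 (sub_pos.2 hcon)
  linarith

/-! ### linear certificates -/

/-- a linear certificate; `lq` compares the squares -/
inductive LCt where
  | mk (sc : ℕ) (al : List Ml) : LCt
  | lq (c : QCt) : LCt

/-- the check of a linear certificate for `A ≤ C` -/
noncomputable def lc (q : ℕ) (cx : CX) (c : LCt) (A C : ℕ) : Bool :=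
  LCt.rec (motive := fun _ => Bool) (fun sc al => andB (Nat.ble 1 sc) (andB (Nat.ble sc 1024)
    (comb cx.cuts al 0 (Nat.mul sc A) (Nat.mul sc C) (fun p m => leD (mk1 q) p m))))
    (fun c => qc q cx c (sqQ q A) (sqQ q C)) c

theorem lc_sound {q : ℕ} {δ : ℕ → ℝ} (hx : Ctx q δ) {cx : CX}
    (hc : CXok q δ cx) {c : LCt} {A C b : ℕ} {rA rC : ℝ} (hb : b ≤ 2 ^ 60)
    (hA : VR q δ b A rA) (hC : VR q δ b C rC) (h : lc q cx c A C = true) : rA ≤ rC := by
  cases c with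
  | mk sc al =>
    obtain ⟨g1, h⟩ := andB_eq_true.1 h
    obtain ⟨g2, h⟩ := andB_eq_true.1 h
    have g1 : 1 ≤ sc := Nat.le_of_ble_eq_true g1
    have g2 : sc ≤ 1024 := Nat.le_of_ble_eq_true g2
    have e : ∀ {v : ℕ} {r : ℝ}, VR q δ b v r →
        VR q δ (2 ^ 110 + 0 * CB) (Nat.mul sc v) (sc * r) := by
      intro v r hv
      refine (hv.smul sc).mono ?_
      calc sc * b ≤ 1024 * 2 ^ 60 := Nat.mul_le_mul g2 hb
        _ ≤ 2 ^ 110 + 0 * CB := by norm_num
    obtain ⟨p, m, rp, rm, h1, h2, h3, h4⟩ := comb_sound hc.cut al (by norm_num) (e hA) (e hC) h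
    have hK : 2 ^ 110 + 64 * CB < 2 ^ (K - 1) := by norm_num [CB, K]
    have h5 := VR.le hx hK hK h2 h3 h1
    have h6 : (sc : ℝ) * (rA - rC) ≤ 0 := by linarith
    have h7 : (0 : ℝ) < sc := by exact_mod_cast g1
    by_contra hcon
    rw [not_le] at hcon
    have := mul_pos h7 (sub_pos.2 hcon)
    linarith
  | lq c =>
    have hb' : 2 * (b * b) ≤ 2 ^ 140 := by
      calc 2 * (b * b) ≤ 2 * (2 ^ 60 * 2 ^ 60) := Nat.mul_le_mul_left _ (Nat.mul_le_mul hb hb)
        _ ≤ 2 ^ 140 := by norm_num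
    have hb2 : b ≤ 2 ^ 100 := hb.trans (by norm_num)
    have h1 := qc_sound hx hc hb' (MR.sq hx hb2 hA) (MR.sq hx hb2 hC) h
    have h2 : rA ^ 2 ≤ rC ^ 2 := by nlinarith
    exact (pow_le_pow_iff_left₀ (hA.nonneg hx) (hC.nonneg hx) two_ne_zero).1 h2

/-- the vector `v` plus multiples of the cuts -/
noncomputable def adc (q : ℕ) (cx : CX) (al : List Ml) (v : ℕ) (k : ℕ → Bool) : Bool :=
  List.rec (motive := fun _ => Bool) (k v) (fun _ _ _ =>
    comb cx.cuts al 0 v 0 (fun p m => vck q (tsub q p m) k)) al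

theorem adc_sound {q : ℕ} {δ : ℕ → ℝ} (hx : Ctx q δ) {cx : CX}
    (hc : CXok q δ cx) {al : List Ml} {v : ℕ} {r : ℝ} {k : ℕ → Bool}
    (hv : VR q δ VB v r) (h : adc q cx al v k = true) :
    ∃ v' r', k v' = true ∧ VR q δ VB v' r' ∧ r ≤ r' := by
  cases al with
  | nil => exact ⟨v, r, h, hv, le_rfl⟩
  | cons e al =>
    have h : comb cx.cuts (e :: al) 0 v 0 (fun p m => vck q (tsub q p m) k) = true := h
    obtain ⟨p, m, rp, rm, h1, h2, h3, h4⟩ := comb_sound hc.cut (B := VB) (e :: al) (by norm_num)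
      (hv.mono (Nat.le_add_right _ _)) (VR.zero.mono (Nat.zero_le _)) h
    have hK : VB + 64 * CB < 2 ^ (K - 1) := by norm_num [VB, CB, K]
    obtain ⟨s, h5, h6⟩ := VR.tsub hx hK hK h2 h3
    obtain ⟨h7, h8⟩ := vck_sound (by norm_num [VB, CB, K]) h5 h1
    exact ⟨_, s, h8, h7, by linarith⟩

end Pool.Agent.MOS.V6
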