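import Pool.Agent.Lib.MP_b520b2_co.V6.Dec
import Pool.Agent.Lib.MP_b520b2_co.Compact

/-!
# The check of a covering tree

Every node of the tree is one entry of the list `cs`.
-/

namespace Pool.Agent.MOS.V6

open Finset

/-- a number given by its digits to the base `2 ^ 16384` -/
noncomputable def cat (l : List ℕ) : ℕ :=
  List.rec (motive := fun _ => ℕ) 0 (fun a _ ih => Nat.add a (Nat.shiftLeft ih 16384)) l

/-- an entry of the list of known cells -/
noncomputable def nthKC (l : List KC) : ℕ → (KC → Bool) → Bool :=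
  List.rec (motive := fun _ => ℕ → (KC → Bool) → Bool) (fun _ _ => false)
    (fun a _ ih n k => Nat.rec (motive := fun _ => Bool) (k a) (fun n _ => ih n k) n) l

theorem nthKC_sound {l : List KC} : ∀ {n : ℕ} {k : KC → Bool}, nthKC l n k = true →
    ∃ a ∈ l, k a = true := by
  induction l with
  | nil =>
    intro n k h
    exact absurd h (by simp [nthKC])
  | cons a l ih =>
    intro n k h
    cases n with
    | zero => exact ⟨a, by simp, h⟩
    | succ n =>
      obtain ⟨b, hb, h1⟩ := ih (n := n) h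
      exact ⟨b, List.mem_cons_of_mem _ hb, h1⟩

/-- the check of a cut `c ≤ a` which follows from the area; the data are at the position `p` of
`n` -/
noncomputable def tanC (q : ℕ) (ns : List ℕ) (n p a c : ℕ) : Bool :=
  andB (Nat.ble 1 (rd n (Nat.add p 32) 16))
    (andB (Nat.ble (tanN ns (fun j => rd n (Nat.add (Nat.add p 48) (Nat.mul 20 j)) 20)
        (Nat.sub q 1)) (Nat.mul (rd n p 32) (rd n p 32)))
      (leD (mk1 q) (Nat.add (Nat.mul (rd n p 32) (xr q 0))
          (Nat.mul (Nat.mul SG (rd n (Nat.add p 32) 16)) (sn q c)))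
        (Nat.add (tanV q ns (fun j => rd n (Nat.add (Nat.add p 48) (Nat.mul 20 j)) 20)
          (Nat.sub q 1)) (Nat.mul (Nat.mul SG (rd n (Nat.add p 32) 16)) (sn q a)))))

theorem rd_le (n p w : ℕ) : rd n p w ≤ 2 ^ w :=
  (Nat.and_le_right : Nat.land _ (2 ^ w - 1) ≤ _).trans (Nat.sub_le _ _)

theorem tanC_sound {M : ℝ} {q : ℕ} {ns : List ℕ} {cuts : List Cu} (hc : CellN q ns)
    {n p a c : ℕ} (h : tanC q ns n p a c = true)
    (h3 : Good6 M q ns (apE cuts (Cu.mk (sn q a) (sn q c)))) : Good6 M q ns cuts := by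
  obtain ⟨g1, h⟩ := andB_eq_true.1 h
  obtain ⟨g2, g3⟩ := andB_eq_true.1 h
  exact good6_tan hc a c (fun j => rd_le _ _ 20) (rd_le _ _ 32) (Nat.le_of_ble_eq_true g1)
    (rd_le _ _ 16) (Nat.le_of_ble_eq_true g2) g3 h3

/-- the check of a tree -/
noncomputable def chk (cn cd : ℕ) (kn : List KC) (fuel : ℕ) :
    List ℕ → ℕ → List ℕ → List Cu → (List ℕ → Bool) → Bool :=
  Nat.rec (motive := fun _ => List ℕ → ℕ → List ℕ → List Cu → (List ℕ → Bool) → Bool)
    (fun _ _ _ _ _ => false)
    (fun _ ih cs q ns cuts k => List.rec (motive := fun _ => Bool) false (fun c cs' _ =>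
      Nat.rec (motive := fun _ => Bool)
      -- 0: leaf
      (LD.rec (motive := fun _ => Bool) (fun mu it tes =>
        andB (leaf6 cn cd q ns cuts tes mu it) (k cs')) (dLD q (Nat.shiftRight c 68)))
      (fun o _ => Nat.rec (motive := fun _ => Bool)
      -- 1: a new cut
      (ih cs' q ns (apE cuts (Cu.mk (sn q (dvq c q (rd c 68 6) 74))
          (sn q (ofs q (rd c 68 6))))) (fun cs'' =>
        ih cs'' q ns (apE cuts (Cu.mk (sn q (ofs q (rd c 68 6)))
          (sn q (dvq c q (rd c 68 6) 74)))) k))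
      (fun o _ => Nat.rec (motive := fun _ => Bool)
      -- 2: a new level
      (andB (Nat.ble q 63) (andB (Nat.ble (Nat.add (nthR 0 ns (Nat.sub q 2)) (rd c 68 12)) 4000)
        (ih cs' (Nat.succ q) (nsU q (rd c 68 12) ns) (extC q cuts) k)))
      (fun o _ => Nat.rec (motive := fun _ => Bool)
      -- 3: a cut is dropped
      (ih cs' q ns (rmE cuts (rd c 68 8)) k)
      (fun o _ => Nat.rec (motive := fun _ => Bool)
      -- 4: empty cell
      (andB (dQC q (Nat.shiftRight c 68) (fun e _ => empty6 q ns cuts e)) (k cs'))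
      (fun o _ => Nat.rec (motive := fun _ => Bool)
      -- 5: known cell
      (andB (nthKC kn (rd c 68 12) (fun a => eqC a q ns cuts)) (k cs'))
      (fun o _ => Nat.rec (motive := fun _ => Bool)
      -- 6: contained in a known cell
      (andB (dLCs q (rd c 80 6) 64 (Nat.shiftRight c 86) (fun l _ =>
        nthKC kn (rd c 68 12) (fun a => covC a l q ns cuts))) (k cs'))
      (fun o _ => Nat.rec (motive := fun _ => Bool)
      -- 7: a cut which follows from the area
      (andB (tanC q ns c (Nat.add 74 (Nat.mul q (rd c 68 6)))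
          (dvq c q (rd c 68 6) 74) (ofs q (rd c 68 6)))
        (ih cs' q ns (apE cuts (Cu.mk (sn q (dvq c q (rd c 68 6) 74))
          (sn q (ofs q (rd c 68 6))))) k))
      -- 8: a side is forgotten
      (fun _ _ => andB (Nat.ble 3 q) (andB (Nat.ble (Nat.add (rd c 68 6) 2) q)
        (ih cs' (Nat.sub q 1) (rmE ns (rd c 68 6)) (mgC (rd c 68 6) cuts) k)))
      o) o) o) o) o) o) o) (rd c 64 4)) cs) fuel

/-- the bounds for the constant -/
structure CK (M : ℝ) (cn cd : ℕ) : Prop where
  hcn : cn ≤ 2 ^ 12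
  hcd : cd ≤ 2 ^ 12
  hcd' : 0 < cd
  le : (cn : ℝ) / cd ≤ M

theorem dIt_sound {q wi wq sh : ℕ} (m : ℕ) : ∀ {n : ℕ} {k : List QE → ℕ → Bool},
    dIt q wi wq sh m n k = true → ∃ l n', k l n' = true := by
  induction m with
  | zero => exact fun h => ⟨_, _, h⟩
  | succ m ih =>
    intro n k h
    have h : (Nat.rec (motive := fun _ => Bool) _ _ (Nat.land n 3) : Bool) = true := h
    rcases hop : Nat.land n 3 with _ | o
    · rw [hop] at h
      obtain ⟨l, n', h⟩ := ih h
      exact ⟨_, _, h⟩
    · rw [hop] at h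
      dsimp only at h
      rcases o with _ | o
      · obtain ⟨l, n', h⟩ := ih h
        exact ⟨_, _, h⟩
      · obtain ⟨l, n', h⟩ := ih h
        exact ⟨_, _, h⟩

theorem dQC_sound {q n : ℕ} {k : QCt → ℕ → Bool} (h : dQC q n k = true) :
    ∃ c n', k c n' = true := by
  have h : (Nat.rec (motive := fun _ => Bool) _ _ (Nat.land n 1) : Bool) = true := h
  rcases hop : Nat.land n 1 with _ | o
  · rw [hop] at h
    exact ⟨_, _, h⟩
  · rw [hop] at h
    obtain ⟨l, n', h⟩ := dIt_sound _ h
    exact ⟨_, _, h⟩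

theorem dMl_sound {wc : ℕ} (m : ℕ) : ∀ {n : ℕ} {k : List Ml → ℕ → Bool},
    dMl wc m n k = true → ∃ l n', k l n' = true := by
  induction m with
  | zero => exact fun h => ⟨_, _, h⟩
  | succ m ih =>
    intro n k h
    have h : (Nat.rec (motive := fun _ => Bool) _ _ (Nat.land n 1) : Bool) = true := h
    rcases hop : Nat.land n 1 with _ | o
    · rw [hop] at h
      exact ⟨_, _, h⟩
    · rw [hop] at h
      obtain ⟨l, n', h⟩ := ih h
      exact ⟨_, _, h⟩

theorem dLC_sound {q wc n : ℕ} {k : LCt → ℕ → Bool} (h : dLC q wc n k = true) :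
    ∃ c n', k c n' = true := by
  have h : (Nat.rec (motive := fun _ => Bool) _ _ (Nat.land n 1) : Bool) = true := h
  rcases hop : Nat.land n 1 with _ | o
  · rw [hop] at h
    exact ⟨_, _, h⟩
  · rw [hop] at h
    have h : (Nat.rec (motive := fun _ => Bool) _ _ (rd n 1 1) : Bool) = true := h
    rcases hop2 : rd n 1 1 with _ | o
    · rw [hop2] at h
      obtain ⟨l, n', h⟩ := dMl_sound _ h
      exact ⟨_, _, h⟩
    · rw [hop2] at h
      obtain ⟨c, n', h⟩ := dQC_sound h
      exact ⟨_, _, h⟩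

theorem dLCs_sound {q wc : ℕ} (m : ℕ) : ∀ {n : ℕ} {k : List LCt → ℕ → Bool},
    dLCs q wc m n k = true → ∃ l n', k l n' = true := by
  induction m with
  | zero => exact fun h => ⟨_, _, h⟩
  | succ m ih =>
    intro n k h
    have h : (Nat.rec (motive := fun _ => Bool) _ _ (Nat.land n 1) : Bool) = true := h
    rcases hop : Nat.land n 1 with _ | o
    · rw [hop] at h
      exact ⟨_, _, h⟩
    · rw [hop] at h
      obtain ⟨c, n', h⟩ := dLC_sound h
      obtain ⟨l, n'', h⟩ := ih h
      exact ⟨_, _, h⟩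

theorem chk_sound {M : ℝ} {cn cd : ℕ} (hK : CK M cn cd) {kn : List KC}
    (hkn : ∀ c ∈ kn, GoodKC M c) (fuel : ℕ) :
    ∀ (cs : List ℕ) (q : ℕ) (ns : List ℕ) (cuts : List Cu) (k : List ℕ → Bool),
      CellN q ns → chk cn cd kn fuel cs q ns cuts k = true →
      Good6 M q ns cuts ∧ ∃ cs', k cs' = true := by
  induction fuel with
  | zero =>
    intro cs q ns cuts k _ h
    exact absurd h (by simp [chk])
  | succ fuel ih =>
    intro cs q ns cuts k hc h
    cases cs with
    | nil => exact absurd h (by simp [chk])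
    | cons c cs =>
      unfold chk at h
      dsimp only at h
      change Nat.rec (motive := fun _ => Bool) _ _ (rd c 64 4) = true at h
      rcases hop : rd c 64 4 with _ | o
      · -- leaf
        rw [hop] at h
        obtain ⟨h1, h2⟩ := andB_eq_true.1 h
        exact ⟨fun l hl hs hcut => Good.mono (leaf6_sound (hc.lx hl hs hcut) hK.hcn hK.hcd hK.hcd'
          h1) hK.le, _, h2⟩
      rw [hop] at h
      dsimp only at h
      rcases o with _ | o
      · -- a new cut
        obtain ⟨g1, cs', h⟩ := ih _ _ _ _ _ hc h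
        obtain ⟨g2, g3⟩ := ih _ _ _ _ _ hc h
        exact ⟨good6_cut _ _ g1 g2, g3⟩
      dsimp only at h
      rcases o with _ | o
      · -- a new level
        obtain ⟨h1, h⟩ := andB_eq_true.1 h
        obtain ⟨h2, h⟩ := andB_eq_true.1 h
        have h1 : q ≤ 63 := Nat.le_of_ble_eq_true h1
        obtain ⟨g1, g2⟩ := ih _ _ _ _ _ (cellN_up hc h1 (Nat.le_of_ble_eq_true h2)) h
        exact ⟨good6_up hc g1, g2⟩
      dsimp only at h
      rcases o with _ | o
      · -- a cut is dropped
        obtain ⟨g1, g2⟩ := ih _ _ _ _ _ hc h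
        exact ⟨good6_drop _ g1, g2⟩
      dsimp only at h
      rcases o with _ | o
      · -- empty cell
        obtain ⟨h1, h2⟩ := andB_eq_true.1 h
        obtain ⟨e, _, h1⟩ := dQC_sound h1
        exact ⟨fun l hl hs hcut => (empty6_sound (hc.lx hl hs hcut) h1).elim, _, h2⟩
      dsimp only at h
      rcases o with _ | o
      · -- known cell
        obtain ⟨h1, h2⟩ := andB_eq_true.1 h
        obtain ⟨a, ha, h3⟩ := nthKC_sound h1
        exact ⟨eqC_sound (hkn a ha) h3, _, h2⟩
      dsimp only at h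
      rcases o with _ | o
      · -- contained in a known cell
        obtain ⟨h1, h2⟩ := andB_eq_true.1 h
        obtain ⟨l, _, h1⟩ := dLCs_sound _ h1
        obtain ⟨a, ha, h3⟩ := nthKC_sound h1
        exact ⟨covC_sound hc (hkn a ha) h3, _, h2⟩
      dsimp only at h
      rcases o with _ | o
      · -- a cut which follows from the area
        obtain ⟨h1, h2⟩ := andB_eq_true.1 h
        obtain ⟨g1, g2⟩ := ih _ _ _ _ _ hc h2
        exact ⟨tanC_sound hc h1 g1, g2⟩
      · -- a side is forgotten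
        obtain ⟨h1, h⟩ := andB_eq_true.1 h
        obtain ⟨h2, h⟩ := andB_eq_true.1 h
        have h1 : 3 ≤ q := Nat.le_of_ble_eq_true h1
        have h2 : rd c 68 6 + 2 ≤ q := Nat.le_of_ble_eq_true h2
        obtain ⟨a, ha⟩ : ∃ a, a = rd c 68 6 := ⟨_, rfl⟩
        rw [← ha] at h h2
        obtain ⟨r, rfl⟩ : ∃ r, q = a + 2 + r := ⟨q - (a + 2), by omega⟩
        have e : Nat.sub (a + 2 + r) 1 = a + 1 + r := by
          show a + 2 + r - 1 = a + 1 + r
          omega
        rw [e] at h
        obtain ⟨g1, g2⟩ := ih _ _ _ _ _ (cellN_mg hc h1) h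
        exact ⟨good6_mg hc g1, g2⟩

/-- the check of one piece of the covering tree -/
noncomputable def chkKC (cn cd : ℕ) (kn : List KC) (fuel : ℕ) (cs : List ℕ) (kc : KC) : Bool :=
  KC.rec (motive := fun _ => Bool) (fun q ns cuts => andB (cellB q ns)
    (chk cn cd kn fuel cs q ns cuts (fun _ => true))) kc

/-- all cells of a list are good -/
def AllG (M : ℝ) : List KC → Prop
  | [] => True
  | c :: l => GoodKC M c ∧ AllG M l

theorem AllG.mem {M : ℝ} : ∀ {l : List KC}, AllG M l → ∀ c ∈ l, GoodKC M c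
  | [], _, c, hc => absurd hc (by simp)
  | a :: l, h, c, hc => by
    rcases List.mem_cons.1 hc with rfl | hc
    · exact h.1
    · exact AllG.mem h.2 c hc

/-- **Soundness of the check.** -/
theorem chkKC_sound {M : ℝ} {cn cd : ℕ} (hK : CK M cn cd) {kn : List KC} (hkn : AllG M kn)
    {fuel : ℕ} {cs : List ℕ} {kc : KC} (h : chkKC cn cd kn fuel cs kc = true) :
    GoodKC M kc := by
  obtain ⟨q, ns, cuts⟩ := kc
  obtain ⟨h1, h2⟩ := andB_eq_true.1 h
  exact (chk_sound hK hkn.mem fuel cs q ns cuts _ (cellB_sound h1) h2).1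

/-- the cell of all collections -/
def rootKC : KC := KC.mk 2 [0] []

/-- **The covering tree gives the upper bound.** -/
theorem upperBound_of_root {M : ℝ} (h : GoodKC M rootKC) : UpperBound M := by
  intro l hne h0 hs
  obtain ⟨a, b, h1, h2⟩ := h l hne ⟨hs, h0⟩ (by simp)
  exact ⟨a, b, h2, h1⟩

end Pool.Agent.MOS.V6
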