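import Pool.Agent.Lib.MP_b520b2_co.V6.Leaf

/-!
# Cells and the steps of the covering tree
-/

namespace Pool.Agent.MOS.V6

open Finset

/-- the number of coordinates and the numbers of the explicit sides fit together -/
structure CellN (q : ℕ) (ns : List ℕ) : Prop where
  hq : 2 ≤ q
  hq' : q ≤ 64
  len : ns.length + 1 = q
  ns : NsOK q ns

/-- every collection of the cell is good -/
def Good6 (M : ℝ) (q : ℕ) (ns : List ℕ) (cuts : List Cu) : Prop :=
  ∀ l : List ℝ, l ≠ [] → SP l → (∀ c ∈ cuts, CutH q (dlt q ns l) c) → Good M l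

theorem CellN.lx {q : ℕ} {ns : List ℕ} {cuts : List Cu} (h : CellN q ns) {l : List ℝ}
    (h1 : l ≠ []) (h2 : SP l) (h3 : ∀ c ∈ cuts, CutH q (dlt q ns l) c) : Lx q ns cuts l :=
  ⟨h.hq, h.hq', h2, h1, h.ns, h3⟩

theorem CellN.ctx {q : ℕ} {ns : List ℕ} (h : CellN q ns) {l : List ℝ} (h2 : SP l) :
    Ctx q (dlt q ns l) :=
  ⟨h.hq, by have := h.hq'; omega, dlt_nonneg h.ns h2⟩

theorem Good.mono {M M' : ℝ} {l : List ℝ} (h : Good M l) (hM : M ≤ M') : Good M' l := by
  obtain ⟨a, b, h1, h2⟩ := h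
  exact ⟨a, b, h1, h2.trans (mul_le_mul_of_nonneg_right hM (sumsq_nonneg l))⟩

/-! ### lists -/

/-- appends an entry -/
noncomputable def apE {α : Type} (l : List α) (b : α) : List α :=
  List.rec (motive := fun _ => List α) (List.cons b List.nil) (fun a _ ih => List.cons a ih) l

theorem apE_eq {α : Type} (l : List α) (b : α) : apE l b = l ++ [b] := by
  induction l with
  | nil => rfl
  | cons a l ih =>
    show a :: apE l b = a :: (l ++ [b])
    rw [ih]

/-- removes an entry -/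
noncomputable def rmE {α : Type} (l : List α) : ℕ → List α :=
  List.rec (motive := fun _ => ℕ → List α) (fun _ => List.nil) (fun a t ih i =>
    Nat.rec (motive := fun _ => List α) t (fun i _ => List.cons a (ih i)) i) l

theorem mem_rmE {α : Type} {l : List α} : ∀ {i : ℕ} {a : α}, a ∈ rmE l i → a ∈ l := by
  induction l with
  | nil =>
    intro i a h
    exact absurd h (by simp [rmE])
  | cons b l ih =>
    intro i a h
    cases i with
    | zero => exact List.mem_cons_of_mem _ h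
    | succ i =>
      have h : a ∈ b :: rmE l i := h
      rcases List.mem_cons.1 h with rfl | h
      · exact List.mem_cons_self
      · exact List.mem_cons_of_mem _ (ih h)

/-- equality of lists of numbers -/
noncomputable def eqL (l : List ℕ) : List ℕ → Bool :=
  List.rec (motive := fun _ => List ℕ → Bool)
    (fun l' => List.rec (motive := fun _ => Bool) true (fun _ _ _ => false) l')
    (fun a _ ih l' => List.rec (motive := fun _ => Bool) false
      (fun b t _ => andB (Nat.beq a b) (ih t)) l') l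

theorem eqL_eq (l : List ℕ) : ∀ {l' : List ℕ}, eqL l l' = true → l = l' := by
  induction l with
  | nil =>
    intro l' h
    cases l' with
    | nil => rfl
    | cons b t => exact absurd h (by simp [eqL])
  | cons a l ih =>
    intro l' h
    cases l' with
    | nil => exact absurd h (by simp [eqL])
    | cons b t =>
      obtain ⟨h1, h2⟩ := andB_eq_true.1 h
      rw [Nat.eq_of_beq_eq_true h1, ih h2]

/-- equality of lists of cuts -/
noncomputable def eqK (l : List Cu) : List Cu → Bool :=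
  List.rec (motive := fun _ => List Cu → Bool)
    (fun l' => List.rec (motive := fun _ => Bool) true (fun _ _ _ => false) l')
    (fun a _ ih l' => List.rec (motive := fun _ => Bool) false
      (fun b t _ => Cu.rec (motive := fun _ => Bool) (fun p n =>
        Cu.rec (motive := fun _ => Bool) (fun p' n' =>
          andB (Nat.beq p p') (andB (Nat.beq n n') (ih t))) b) a) l') l

theorem eqK_eq (l : List Cu) : ∀ {l' : List Cu}, eqK l l' = true → l = l' := by
  induction l with
  | nil =>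
    intro l' h
    cases l' with
    | nil => rfl
    | cons b t => exact absurd h (by simp [eqK])
  | cons a l ih =>
    intro l' h
    cases l' with
    | nil => exact absurd h (by simp [eqK])
    | cons b t =>
      obtain ⟨p, n⟩ := a
      obtain ⟨p', n'⟩ := b
      obtain ⟨h1, h⟩ := andB_eq_true.1 h
      obtain ⟨h2, h3⟩ := andB_eq_true.1 h
      rw [Nat.eq_of_beq_eq_true h1, Nat.eq_of_beq_eq_true h2, ih h3]

/-! ### a new cut -/

theorem good6_cut {M : ℝ} {q : ℕ} {ns : List ℕ} {cuts : List Cu} (a b : ℕ)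
    (h1 : Good6 M q ns (apE cuts (Cu.mk (sn q a) (sn q b))))
    (h2 : Good6 M q ns (apE cuts (Cu.mk (sn q b) (sn q a)))) :
    Good6 M q ns cuts := by
  intro l hl hs hc
  have ha := VR.san (q := q) (δ := dlt q ns l) a
  have hb := VR.san (q := q) (δ := dlt q ns l) b
  rcases le_total (lin q (dlt q ns l) (se b)) (lin q (dlt q ns l) (se a)) with h | h
  · refine h1 l hl hs fun c hc' => ?_
    rw [apE_eq, List.mem_append, List.mem_singleton] at hc'
    rcases hc' with hc' | rfl
    · exact hc c hc'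
    · exact ⟨_, _, ha, hb, h⟩
  · refine h2 l hl hs fun c hc' => ?_
    rw [apE_eq, List.mem_append, List.mem_singleton] at hc'
    rcases hc' with hc' | rfl
    · exact hc c hc'
    · exact ⟨_, _, hb, ha, h⟩

theorem good6_drop {M : ℝ} {q : ℕ} {ns : List ℕ} {cuts : List Cu} (i : ℕ)
    (h1 : Good6 M q ns (rmE cuts i)) : Good6 M q ns cuts :=
  fun l hl hs hc => h1 l hl hs fun c hc' => hc c (mem_rmE hc')

/-! ### a cut which follows from the area -/

/-- the sum of the sides with weights -/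
noncomputable def tanV (q : ℕ) (ns : List ℕ) (b : ℕ → ℕ) (n : ℕ) : ℕ :=
  Nat.rec (motive := fun _ => ℕ) 0 (fun j ih =>
    Nat.add ih (Nat.mul (Nat.mul (wt6 ns j) (b j)) (xr q (Nat.succ j)))) n

/-- the sum of the squares of the weights -/
noncomputable def tanN (ns : List ℕ) (b : ℕ → ℕ) (n : ℕ) : ℕ :=
  Nat.rec (motive := fun _ => ℕ) 0 (fun j ih =>
    Nat.add ih (Nat.mul (wt6 ns j) (Nat.mul (b j) (b j)))) n

theorem tanN_eq {q : ℕ} {ns : List ℕ} (hn : NsOK q ns) (b : ℕ → ℕ) : ∀ {n : ℕ}, n < q →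
    tanN ns b n = ∑ j ∈ range n, wt ns j * (b j * b j) := by
  intro n
  induction n with
  | zero => exact fun _ => rfl
  | succ n ih =>
    intro hn'
    rw [sum_range_succ, ← ih (by omega), ← wt6_eq hn hn']
    rfl

theorem tanV_val {q : ℕ} {ns : List ℕ} {l : List ℝ} (hn : NsOK q ns) {b : ℕ → ℕ}
    (hb : ∀ j, b j ≤ 2 ^ 20) {n : ℕ} (hnq : n < q) :
    VR q (dlt q ns l) (2 ^ 60) (tanV q ns b n)
      (∑ j ∈ range n, (wt ns j : ℝ) * (b j * sX ns l (j + 1))) := by
  have key : ∀ n, n < q → VR q (dlt q ns l) ((∑ j ∈ range n, wt ns j) * 2 ^ 48) (tanV q ns b n)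
      (∑ j ∈ range n, (wt ns j : ℝ) * (b j * sX ns l (j + 1))) := by
    intro n
    induction n with
    | zero =>
      intro _
      have := (VR.zero (q := q) (δ := dlt q ns l)).mono (Nat.zero_le (0 * 2 ^ 48))
      simpa [tanV] using this
    | succ n ih =>
      intro hn'
      have h3 := (ih (by omega)).add ((xr_val (ns := ns) (l := l) hn').smul
        (Nat.mul (wt6 ns n) (b n)))
      rw [sum_range_succ, sum_range_succ, ← wt6_eq hn hn']
      have e : (wt6 ns n : ℝ) * (b n * sX ns l (n + 1)) =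
          ((Nat.mul (wt6 ns n) (b n) : ℕ) : ℝ) * sX ns l (n + 1) := by
        rw [Nat.mul_eq, Nat.cast_mul]
        ring
      rw [e]
      refine VR.mono h3 ?_
      rw [Nat.add_mul]
      refine Nat.add_le_add_left ?_ _
      rw [Nat.mul_eq, Nat.mul_assoc]
      exact Nat.mul_le_mul_left _ ((Nat.mul_le_mul_right _ (hb n)).trans (by norm_num [SG]))
  refine (key n hnq).mono ?_
  rw [wt_sum hn hnq]
  calc Ix ns n * 2 ^ 48 ≤ 4096 * 2 ^ 48 := Nat.mul_le_mul_right _ (hn.bd n hnq)
    _ = 2 ^ 60 := by norm_num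

theorem tan_le {q : ℕ} {ns : List ℕ} {l : List ℝ} (hn : NsOK q ns) (h : SP l) {b : ℕ → ℕ}
    {n N : ℕ} (hnq : n < q) (hN : tanN ns b n ≤ N * N) :
    ∑ j ∈ range n, (wt ns j : ℝ) * (b j * sX ns l (j + 1)) ≤ N * Real.sqrt (sumsq l) := by
  have h1 := Finset.sum_mul_sq_le_sq_mul_sq (range n) (fun j => Real.sqrt (wt ns j) * b j)
    (fun j => Real.sqrt (wt ns j) * sX ns l (j + 1))
  have e1 : ∑ j ∈ range n, (Real.sqrt (wt ns j) * (b j : ℝ)) *
      (Real.sqrt (wt ns j) * sX ns l (j + 1)) =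
      ∑ j ∈ range n, (wt ns j : ℝ) * (b j * sX ns l (j + 1)) := by
    refine sum_congr rfl fun j _ => ?_
    have := Real.mul_self_sqrt (Nat.cast_nonneg (α := ℝ) (wt ns j))
    linear_combination (b j * sX ns l (j + 1)) * this
  have e2 : ∑ j ∈ range n, (Real.sqrt (wt ns j) * (b j : ℝ)) ^ 2 = (tanN ns b n : ℝ) := by
    rw [tanN_eq hn b hnq]
    push_cast
    refine sum_congr rfl fun j _ => ?_
    have := Real.mul_self_sqrt (Nat.cast_nonneg (α := ℝ) (wt ns j))
    linear_combination ((b j : ℝ) ^ 2) * this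
  have e3 : ∑ j ∈ range n, (Real.sqrt (wt ns j) * sX ns l (j + 1)) ^ 2 = gS ns l n := by
    rw [gS]
    refine sum_congr rfl fun j _ => ?_
    have := Real.mul_self_sqrt (Nat.cast_nonneg (α := ℝ) (wt ns j))
    linear_combination (sX ns l (j + 1) ^ 2) * this
  rw [e1, e2, e3] at h1
  have h2 := T'_nonneg hn h hnq
  have h3 : (tanN ns b n : ℝ) ≤ N ^ 2 := by
    rw [pow_two]
    exact_mod_cast hN
  have h4 : 0 ≤ gS ns l n := sum_nonneg fun j _ => mul_nonneg (Nat.cast_nonneg _) (sq_nonneg _)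
  have h5 : (tanN ns b n : ℝ) * gS ns l n ≤ (N * Real.sqrt (sumsq l)) ^ 2 := by
    rw [mul_pow, Real.sq_sqrt (sumsq_nonneg l)]
    exact mul_le_mul h3 h2 h4 (by positivity)
  exact (abs_le_of_sq_le_sq' (h1.trans h5) (by positivity)).2

theorem good6_tan {M : ℝ} {q : ℕ} {ns : List ℕ} {cuts : List Cu} (hc : CellN q ns) (a c : ℕ)
    {b : ℕ → ℕ} {N d : ℕ} (hb : ∀ j, b j ≤ 2 ^ 20) (hN : N ≤ 2 ^ 32) (hd : 1 ≤ d)
    (hd' : d ≤ 2 ^ 16) (h1 : tanN ns b (q - 1) ≤ N * N)
    (h2 : leD (mk1 q) (Nat.add (Nat.mul N (xr q 0)) (Nat.mul (Nat.mul SG d) (sn q c)))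
      (Nat.add (tanV q ns b (q - 1)) (Nat.mul (Nat.mul SG d) (sn q a))) = true)
    (h3 : Good6 M q ns (apE cuts (Cu.mk (sn q a) (sn q c)))) : Good6 M q ns cuts := by
  intro l hl hs hcut
  have hq2 := hc.hq
  have ha := VR.san (q := q) (δ := dlt q ns l) a
  have hb' := VR.san (q := q) (δ := dlt q ns l) c
  refine h3 l hl hs fun e hc' => ?_
  rw [apE_eq, List.mem_append, List.mem_singleton] at hc'
  rcases hc' with hc' | rfl
  · exact hcut e hc'
  refine ⟨_, _, ha, hb', ?_⟩
  have k1 : ∀ v : ℕ, (Nat.mul SG d) * 2 ^ 36 ≤ 2 ^ 80 := fun _ => by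
    calc Nat.mul SG d * 2 ^ 36 ≤ (SG * 2 ^ 16) * 2 ^ 36 :=
        Nat.mul_le_mul_right _ (Nat.mul_le_mul_left _ hd')
      _ = 2 ^ 80 := by norm_num [SG]
  have k2 : N * SG ≤ 2 ^ 60 := (Nat.mul_le_mul_right _ hN).trans (by norm_num [SG])
  have v1 := (((xr_val (ns := ns) (l := l) (q := q) (i := 0) (by omega)).smul N).mono k2).add
    ((hb'.smul (Nat.mul SG d)).mono (k1 0))
  have v2 := (tanV_val (l := l) hc.ns hb (n := q - 1) (by omega)).add
    ((ha.smul (Nat.mul SG d)).mono (k1 0))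
  have hle := VR.le (hc.ctx hs) (by norm_num [K]) (by norm_num [K]) v1 v2 h2
  have hS : sX ns l 0 = Real.sqrt (sumsq l) := rfl
  have ht := tan_le hc.ns hs (n := q - 1) (by omega) h1
  rw [hS] at hle
  have hpos : (0 : ℝ) < ((Nat.mul SG d : ℕ) : ℝ) := by
    rw [Nat.mul_eq, Nat.cast_mul]
    have : (0 : ℝ) < d := by exact_mod_cast hd
    exact mul_pos SG_pos this
  have h5 : ((Nat.mul SG d : ℕ) : ℝ) * (lin q (dlt q ns l) (se c) - lin q (dlt q ns l) (se a)) ≤
      0 := by linarith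
  by_contra hcon
  rw [not_le] at hcon
  have := mul_pos hpos (sub_pos.2 hcon)
  linarith

/-! ### a new level -/

/-- repeats the last entry of a vector -/
def extV (q p : ℕ) : ℕ :=
  Nat.add p (Nat.shiftLeft (Nat.shiftRight p (Nat.mul K (Nat.sub q 1))) (Nat.mul K q))

/-- repeats the last entries of the cuts -/
noncomputable def extC (q : ℕ) (l : List Cu) : List Cu :=
  List.rec (motive := fun _ => List Cu) List.nil (fun c _ ih =>
    List.cons (Cu.rec (motive := fun _ => Cu) (fun p n => Cu.mk (extV q p) (extV q n)) c) ih) l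

/-- the new list of the numbers of the explicit sides -/
noncomputable def nsU (q n : ℕ) (ns : List ℕ) : List ℕ :=
  apE ns (Nat.add (nthR 0 ns (Nat.sub q 2)) n)

theorem Ix_append {ns : List ℕ} {b i : ℕ} (h : i ≤ ns.length) : Ix (ns ++ [b]) i = Ix ns i := by
  cases i with
  | zero => rfl
  | succ i =>
    show nthR 0 (ns ++ [b]) i + 1 = nthR 0 ns i + 1
    rw [nthR_eq, nthR_eq, List.getD_append _ _ _ _ (by omega)]

theorem cellN_up {q n : ℕ} {ns : List ℕ} (h : CellN q ns) (hq : q ≤ 63)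
    (hn : nthR 0 ns (q - 2) + n ≤ 4000) : CellN (q + 1) (nsU q n ns) := by
  have hlen := h.len
  have hq2 := h.hq
  rw [nsU, apE_eq]
  refine ⟨by omega, by omega, by rw [List.length_append, List.length_singleton, hlen], ?_⟩
  have hlast : Ix (ns ++ [Nat.add (nthR 0 ns (Nat.sub q 2)) n]) q =
      nthR 0 ns (q - 2) + n + 1 := by
    obtain ⟨r, rfl⟩ : ∃ r, q = r + 1 := ⟨q - 1, by omega⟩
    have hr : ns.length = r := by omega
    show nthR 0 (ns ++ [_]) r + 1 = _
    rw [nthR_eq, List.getD_append_right _ _ _ _ (by omega), hr, Nat.sub_self]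
    rfl
  refine ⟨fun i hi => ?_, fun i hi => ?_⟩
  · rcases Nat.lt_or_ge (i + 1) q with h1 | h1
    · rw [Ix_append (by omega), Ix_append (by omega)]
      exact h.ns.mono i h1
    · have h2 : i + 1 = q := by omega
      rw [h2, hlast, Ix_append (by omega)]
      obtain ⟨r, rfl⟩ : ∃ r, i = r + 1 := ⟨i - 1, by omega⟩
      show nthR 0 ns r + 1 ≤ _
      have : q - 2 = r := by omega
      rw [this]
      omega
  · rcases Nat.lt_or_ge i q with h1 | h1
    · rw [Ix_append (by omega)]
      exact h.ns.bd i h1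
    · have h2 : i = q := by omega
      rw [h2, hlast]
      exact Nat.succ_le_succ (hn.trans (by norm_num))

theorem extV_eq {q b p : ℕ} {δ δ' : ℕ → ℝ} {r : ℝ} (hb : b < 2 ^ K) (hq : 0 < q)
    (h : VR q δ b p r) (hδ : ∀ i, i + 1 < q → δ' i = δ i)
    (hδ' : δ' (q - 1) + δ' q = δ (q - 1)) : VR (q + 1) δ' b (extV q p) r := by
  obtain ⟨f, rfl, h2, rfl⟩ := h
  obtain ⟨n, rfl⟩ : ∃ n, q = n + 1 := ⟨q - 1, by omega⟩
  rw [Nat.add_sub_cancel] at hδ'
  have hf : ∀ i < n + 1, f i < 2 ^ K := fun i hi => lt_of_le_of_lt (h2 i hi) hb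
  refine ⟨fun i => if i < n + 1 then f i else f n, ?_, fun i hi => ?_, ?_⟩
  · have h1 : Nat.shiftRight (digs K (n + 1) f) (Nat.mul K (Nat.sub (n + 1) 1)) = f n := by
      have e : Nat.shiftRight (digs K (n + 1) f) (Nat.mul K (Nat.sub (n + 1) 1)) =
          digs K (n + 1) f / 2 ^ (K * n) := Nat.shiftRight_eq_div_pow _ _
      rw [e, digs_succ]
      have h3 : digs K n f < 2 ^ (K * n) := digs_lt fun i hi => hf i (by omega)
      rw [Nat.add_mul_div_right _ _ (Nat.two_pow_pos _), Nat.div_eq_of_lt h3, zero_add]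
    have h5 : Nat.shiftLeft (f n) (Nat.mul K (n + 1)) = f n * 2 ^ (K * (n + 1)) :=
      Nat.shiftLeft_eq _ _
    have h6 : digs K (n + 1) (fun i => if i < n + 1 then f i else f n) = digs K (n + 1) f :=
      digs_congr fun i hi => by rw [if_pos hi]
    rw [extV, h1, h5, digs_succ K (n + 1) (fun i => if i < n + 1 then f i else f n), h6,
      if_neg (lt_irrefl _), Nat.add_eq]
  · dsimp only
    split_ifs
    · exact h2 i ‹_›
    · exact h2 n (by omega)
  · rw [lin, lin, sum_range_succ, sum_range_succ, sum_range_succ (n := n)]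
    have h5 : ∑ x ∈ range n, δ' x * ((if x < n + 1 then f x else f n : ℕ) : ℝ) =
        ∑ x ∈ range n, δ x * f x := by
      refine sum_congr rfl fun x hx => ?_
      rw [mem_range] at hx
      rw [if_pos (by omega), hδ x (by omega)]
    rw [h5, if_pos (by omega), if_neg (lt_irrefl _), ← hδ']
    ring

theorem dlt_up {q b : ℕ} {ns : List ℕ} {l : List ℝ} (hlen : ns.length + 1 = q) (hq : 2 ≤ q) :
    (∀ i, i + 1 < q → dlt (q + 1) (ns ++ [b]) l i = dlt q ns l i) ∧
      dlt (q + 1) (ns ++ [b]) l (q - 1) + dlt (q + 1) (ns ++ [b]) l q = dlt q ns l (q - 1) := by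
  have hX : ∀ i < q, sX (ns ++ [b]) l i = sX ns l i := fun i hi => by
    rw [sX, Ix_append (by omega), sX]
  refine ⟨fun i hi => ?_, ?_⟩
  · rw [dlt, dlt, if_pos (by omega), if_pos hi, hX i (by omega), hX (i + 1) hi]
  · rw [dlt, dlt, dlt, if_pos (by omega), if_neg (by omega), if_neg (by omega),
      show q - 1 + 1 = q by omega, hX (q - 1) (by omega)]
    have := SG_pos.ne'
    field_simp
    ring

theorem good6_up {M : ℝ} {q n : ℕ} {ns : List ℕ} {cuts : List Cu} (hc : CellN q ns)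
    (h1 : Good6 M (q + 1) (nsU q n ns) (extC q cuts)) : Good6 M q ns cuts := by
  intro l hl hs hcut
  refine h1 l hl hs ?_
  rw [nsU, apE_eq]
  obtain ⟨hd1, hd2⟩ := dlt_up (b := Nat.add (nthR 0 ns (Nat.sub q 2)) n) (l := l) hc.len hc.hq
  have hb : 2 ^ 36 < 2 ^ K := by norm_num [K]
  have hq0 : 0 < q := by have := hc.hq; omega
  clear h1
  induction cuts with
  | nil =>
    intro c hc'
    exact absurd hc' (by simp [extC])
  | cons c cuts ih =>
    obtain ⟨p, m⟩ := c
    intro c' hc'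
    have hc' : c' ∈ Cu.mk (extV q p) (extV q m) :: extC q cuts := hc'
    rcases List.mem_cons.1 hc' with rfl | hc'
    · obtain ⟨rp, rn, g1, g2, g3⟩ := hcut (.mk p m) (by simp)
      exact ⟨rp, rn, extV_eq hb hq0 g1 hd1 hd2, extV_eq hb hq0 g2 hd1 hd2, g3⟩
    · exact ih (fun c hc => hcut c (List.mem_cons_of_mem _ hc)) c' hc'

/-! ### a side is forgotten -/

/-- removes the digit `t` -/
def rmD (v t : ℕ) : ℕ :=
  Nat.add (Nat.land v (Nat.sub (Nat.pow 2 (Nat.mul K t)) 1))
    (Nat.shiftLeft (Nat.shiftRight v (Nat.mul K (Nat.succ t))) (Nat.mul K t))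

/-- the cuts without the coordinate `a + 1` -/
noncomputable def mgC (a : ℕ) (l : List Cu) : List Cu :=
  List.rec (motive := fun _ => List Cu) List.nil (fun c _ ih =>
    List.cons (Cu.rec (motive := fun _ => Cu) (fun p n =>
      Nat.rec (motive := fun _ => Cu) (Cu.mk (rmD p (Nat.succ a)) (rmD n (Nat.succ a)))
        (fun _ _ => Cu.mk (rmD p a) (rmD n a))
        (Nat.sub (Nat.add (dg p (Nat.succ a)) (dg n a)) (Nat.add (dg p a) (dg n (Nat.succ a)))))
      c) ih) l

/-- the function without the value at `t` -/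
def rmF (t : ℕ) (f : ℕ → ℕ) : ℕ → ℕ := fun j => if j < t then f j else f (j + 1)

theorem digs_split (k a b : ℕ) (f : ℕ → ℕ) :
    digs k (a + b) f = digs k a f + 2 ^ (k * a) * digs k b (fun j => f (a + j)) := by
  rw [digs, digs, digs, sum_range_add, mul_sum]
  congr 1
  refine sum_congr rfl fun i _ => ?_
  rw [mul_add, pow_add]
  ring

theorem rmD_eq {t r : ℕ} {f : ℕ → ℕ} (hf : ∀ i < t + 1 + r, f i < 2 ^ K) :
    rmD (digs K (t + 1 + r) f) t = digs K (t + r) (rmF t f) := by
  have h1 := digs_split K (t + 1) r f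
  have h2 := digs_succ K t f
  have l1 : digs K t f < 2 ^ (K * t) := digs_lt fun i hi => hf i (by omega)
  have l2 : digs K (t + 1) f < 2 ^ (K * (t + 1)) := digs_lt fun i hi => hf i (by omega)
  have e1 : Nat.land (digs K (t + 1 + r) f) (Nat.sub (Nat.pow 2 (Nat.mul K t)) 1) =
      digs K t f := by
    have e : Nat.land (digs K (t + 1 + r) f) (Nat.sub (Nat.pow 2 (Nat.mul K t)) 1) =
        digs K (t + 1 + r) f % 2 ^ (K * t) := Nat.and_two_pow_sub_one_eq_mod _ _
    rw [e, h1, h2, show digs K t f + f t * 2 ^ (K * t) + 2 ^ (K * (t + 1)) *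
      digs K r (fun j => f (t + 1 + j)) = digs K t f + 2 ^ (K * t) * (f t + 2 ^ K *
        digs K r (fun j => f (t + 1 + j))) by
      rw [mul_add K t 1, pow_add]
      ring, Nat.add_mul_mod_self_left, Nat.mod_eq_of_lt l1]
  have e2 : Nat.shiftRight (digs K (t + 1 + r) f) (Nat.mul K (Nat.succ t)) =
      digs K r (fun j => f (t + 1 + j)) := by
    have e : Nat.shiftRight (digs K (t + 1 + r) f) (Nat.mul K (Nat.succ t)) =
        digs K (t + 1 + r) f / 2 ^ (K * (t + 1)) := Nat.shiftRight_eq_div_pow _ _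
    rw [e, h1, Nat.add_mul_div_left _ _ (Nat.two_pow_pos _), Nat.div_eq_of_lt l2, zero_add]
  have e3 : Nat.shiftLeft (digs K r (fun j => f (t + 1 + j))) (Nat.mul K t) =
      digs K r (fun j => f (t + 1 + j)) * 2 ^ (K * t) := Nat.shiftLeft_eq _ _
  rw [rmD, e1, e2, e3, digs_split K t r]
  have e4 : digs K t (rmF t f) = digs K t f := digs_congr fun i hi => if_pos hi
  have e5 : digs K r (fun j => rmF t f (t + j)) = digs K r (fun j => f (t + 1 + j)) := by
    refine digs_congr fun i _ => ?_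
    rw [rmF, if_neg (by omega)]
    congr 1
    omega
  rw [e4, e5, Nat.add_eq]
  ring

section mg

variable {a r : ℕ} {δ δ' : ℕ → ℝ} {f : ℕ → ℕ}

theorem lin_split (a r : ℕ) (δ : ℕ → ℝ) (f : ℕ → ℕ) :
    lin (a + 2 + r) δ f = ∑ i ∈ range a, δ i * f i + δ a * f a + δ (a + 1) * f (a + 1) +
      ∑ i ∈ range r, δ (a + 2 + i) * f (a + 2 + i) := by
  rw [lin, sum_range_add, sum_range_succ, sum_range_succ]

theorem lin_split' (a r : ℕ) (δ : ℕ → ℝ) (f : ℕ → ℕ) :
    lin (a + 1 + r) δ f = ∑ i ∈ range a, δ i * f i + δ a * f a +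
      ∑ i ∈ range r, δ (a + 1 + i) * f (a + 1 + i) := by
  rw [lin, sum_range_add, sum_range_succ]

theorem lin_rm (h1 : ∀ i < a, δ' i = δ i) (h2 : δ' a = δ a + δ (a + 1))
    (h3 : ∀ i < r, δ' (a + 1 + i) = δ (a + 2 + i)) :
    lin (a + 1 + r) δ' (rmF (a + 1) f) = lin (a + 2 + r) δ f + δ (a + 1) * (f a - f (a + 1)) ∧
      lin (a + 1 + r) δ' (rmF a f) = lin (a + 2 + r) δ f + δ a * (f (a + 1) - f a) := by
  rw [lin_split, lin_split', lin_split']
  have e1 : ∑ i ∈ range a, δ' i * (rmF (a + 1) f i : ℝ) = ∑ i ∈ range a, δ i * f i := by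
    refine sum_congr rfl fun i hi => ?_
    rw [mem_range] at hi
    rw [h1 i hi, rmF, if_pos (by omega)]
  have e2 : ∑ i ∈ range a, δ' i * (rmF a f i : ℝ) = ∑ i ∈ range a, δ i * f i := by
    refine sum_congr rfl fun i hi => ?_
    rw [mem_range] at hi
    rw [h1 i hi, rmF, if_pos (by omega)]
  have e3 : ∑ i ∈ range r, δ' (a + 1 + i) * (rmF (a + 1) f (a + 1 + i) : ℝ) =
      ∑ i ∈ range r, δ (a + 2 + i) * f (a + 2 + i) := by
    refine sum_congr rfl fun i hi => ?_
    rw [mem_range] at hi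
    rw [h3 i hi, rmF, if_neg (by omega), show a + 1 + i + 1 = a + 2 + i by omega]
  have e4 : ∑ i ∈ range r, δ' (a + 1 + i) * (rmF a f (a + 1 + i) : ℝ) =
      ∑ i ∈ range r, δ (a + 2 + i) * f (a + 2 + i) := by
    refine sum_congr rfl fun i hi => ?_
    rw [mem_range] at hi
    rw [h3 i hi, rmF, if_neg (by omega), show a + 1 + i + 1 = a + 2 + i by omega]
  have e5 : rmF (a + 1) f a = f a := if_pos (by omega)
  have e6 : rmF a f a = f (a + 1) := if_neg (by omega)
  rw [e1, e2, e3, e4, e5, e6, h2]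
  constructor <;> ring

theorem mg_cut (hδ : ∀ i, 0 ≤ δ i) (h1 : ∀ i < a, δ' i = δ i) (h2 : δ' a = δ a + δ (a + 1))
    (h3 : ∀ i < r, δ' (a + 1 + i) = δ (a + 2 + i)) {p n : ℕ}
    (h : CutH (a + 2 + r) δ (Cu.mk p n)) :
    CutH (a + 1 + r) δ' (Nat.rec (motive := fun _ => Cu)
      (Cu.mk (rmD p (Nat.succ a)) (rmD n (Nat.succ a))) (fun _ _ => Cu.mk (rmD p a) (rmD n a))
        (Nat.sub (Nat.add (dg p (Nat.succ a)) (dg n a))
          (Nat.add (dg p a) (dg n (Nat.succ a))))) := by
  obtain ⟨_, _, ⟨f, rfl, hf, rfl⟩, ⟨g, rfl, hg, rfl⟩, hle⟩ := h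
  have hb : 2 ^ 36 < 2 ^ K := by norm_num [K]
  have hf' : ∀ i < a + 2 + r, f i < 2 ^ K := fun i hi => lt_of_le_of_lt (hf i hi) hb
  have hg' : ∀ i < a + 2 + r, g i < 2 ^ K := fun i hi => lt_of_le_of_lt (hg i hi) hb
  have d1 : dg (digs K (a + 2 + r) f) (Nat.succ a) = f (a + 1) := dg_digs hf' (by omega)
  have d2 : dg (digs K (a + 2 + r) g) (Nat.succ a) = g (a + 1) := dg_digs hg' (by omega)
  have d3 : dg (digs K (a + 2 + r) f) a = f a := dg_digs hf' (by omega)
  have d4 : dg (digs K (a + 2 + r) g) a = g a := dg_digs hg' (by omega)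
  rw [d1, d2, d3, d4]
  obtain ⟨k1, k2⟩ := lin_rm (f := f) h1 h2 h3
  obtain ⟨k3, k4⟩ := lin_rm (f := g) h1 h2 h3
  have key : ∀ (t : ℕ) (F : ℕ → ℕ), t ≤ a + 1 → (∀ i < a + 2 + r, F i ≤ 2 ^ 36) →
      VR (a + 1 + r) δ' (2 ^ 36) (rmD (digs K (a + 2 + r) F) t)
        (lin (a + 1 + r) δ' (rmF t F)) := by
    intro t F ht hF
    refine ⟨rmF t F, ?_, fun i hi => ?_, rfl⟩
    · have e := rmD_eq (t := t) (r := a + 1 + r - t) (f := F) (fun i hi =>
        lt_of_le_of_lt (hF i (by omega)) hb)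
      rw [show t + 1 + (a + 1 + r - t) = a + 2 + r by omega,
        show t + (a + 1 + r - t) = a + 1 + r by omega] at e
      exact e
    · rw [rmF]
      split_ifs
      · exact hF i (by omega)
      · exact hF (i + 1) (by omega)
  rcases hs : Nat.sub (Nat.add (f (a + 1)) (g a)) (Nat.add (f a) (g (a + 1))) with _ | s
  · have hs' : f (a + 1) + g a ≤ f a + g (a + 1) := Nat.sub_eq_zero_iff_le.1 hs
    refine ⟨_, _, key (a + 1) f le_rfl hf, key (a + 1) g le_rfl hg, ?_⟩
    rw [k1, k3]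
    have h4 : (f (a + 1) : ℝ) + g a ≤ f a + g (a + 1) := by exact_mod_cast hs'
    have h5 := mul_nonneg (hδ (a + 1)) (by linarith :
      (0 : ℝ) ≤ (f a + g (a + 1)) - (f (a + 1) + g a))
    nlinarith
  · have hs' : f a + g (a + 1) < f (a + 1) + g a := by
      have : f (a + 1) + g a - (f a + g (a + 1)) = s + 1 := hs
      omega
    refine ⟨_, _, key a f (by omega) hf, key a g (by omega) hg, ?_⟩
    rw [k2, k4]
    have h4 : (f a : ℝ) + g (a + 1) ≤ f (a + 1) + g a := by exact_mod_cast hs'.le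
    have h5 := mul_nonneg (hδ a) (by linarith :
      (0 : ℝ) ≤ (f (a + 1) + g a) - (f a + g (a + 1)))
    nlinarith

end mg

theorem nthR_rmE (ns : List ℕ) : ∀ a i, nthR 0 (rmE ns a) i =
    if i < a then nthR 0 ns i else nthR 0 ns (i + 1) := by
  induction ns with
  | nil =>
    intro a i
    have e : rmE ([] : List ℕ) a = [] := rfl
    rw [e, nthR_eq, nthR_eq]
    simp
  | cons b ns ih =>
    intro a i
    cases a with
    | zero =>
      have e : rmE (b :: ns) 0 = ns := rfl
      rw [e, if_neg (by omega)]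
      rfl
    | succ a =>
      have e : rmE (b :: ns) (a + 1) = b :: rmE ns a := rfl
      rw [e]
      cases i with
      | zero =>
        rw [if_pos (by omega)]
        rfl
      | succ i =>
        have e1 : nthR 0 (b :: rmE ns a) (i + 1) = nthR 0 (rmE ns a) i := rfl
        have e2 : nthR 0 (b :: ns) (i + 1) = nthR 0 ns i := rfl
        have e3 : nthR 0 (b :: ns) (i + 1 + 1) = nthR 0 ns (i + 1) := rfl
        rw [e1, e2, e3, ih]
        by_cases h : i < a
        · rw [if_pos h, if_pos (by omega)]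
        · rw [if_neg h, if_neg (by omega)]

theorem length_rmE {ns : List ℕ} : ∀ {a : ℕ}, a < ns.length →
    (rmE ns a).length + 1 = ns.length := by
  induction ns with
  | nil =>
    intro a h
    exact absurd h (by simp)
  | cons b ns ih =>
    intro a h
    cases a with
    | zero => rfl
    | succ a =>
      have e : rmE (b :: ns) (a + 1) = b :: rmE ns a := rfl
      rw [e, List.length_cons, List.length_cons, ih (by simpa using h)]

theorem Ix_rmE (ns : List ℕ) (a j : ℕ) :
    Ix (rmE ns a) j = if j ≤ a then Ix ns j else Ix ns (j + 1) := by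
  cases j with
  | zero => rw [if_pos (Nat.zero_le _)]; rfl
  | succ j =>
    have e1 : Ix (rmE ns a) (j + 1) = nthR 0 (rmE ns a) j + 1 := rfl
    rw [e1, nthR_rmE]
    by_cases h : j < a
    · rw [if_pos h, if_pos (by omega)]
      rfl
    · rw [if_neg h, if_neg (by omega)]
      rfl

theorem cellN_mg {a r : ℕ} {ns : List ℕ} (h : CellN (a + 2 + r) ns) (h3 : 3 ≤ a + 2 + r) :
    CellN (a + 1 + r) (rmE ns a) := by
  have hlen := h.len
  have hq' := h.hq'
  have h4 : a < ns.length := by omega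
  have h5 := length_rmE h4
  refine ⟨by omega, by omega, by omega, fun i hi => ?_, fun i hi => ?_⟩
  · rw [Ix_rmE, Ix_rmE]
    have m1 := h.ns.mono i (by omega)
    have m2 := h.ns.mono (i + 1) (by omega)
    split_ifs
    · exact m1
    · exact m1.trans m2
    · omega
    · exact m2
  · rw [Ix_rmE]
    split_ifs
    · exact h.ns.bd i (by omega)
    · exact h.ns.bd (i + 1) (by omega)

theorem dlt_mg (a r : ℕ) (ns : List ℕ) (l : List ℝ) :
    (∀ i < a, dlt (a + 1 + r) (rmE ns a) l i = dlt (a + 2 + r) ns l i) ∧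
      dlt (a + 1 + r) (rmE ns a) l a = dlt (a + 2 + r) ns l a + dlt (a + 2 + r) ns l (a + 1) ∧
      ∀ i < r, dlt (a + 1 + r) (rmE ns a) l (a + 1 + i) = dlt (a + 2 + r) ns l (a + 2 + i) := by
  have hX : ∀ j, sX (rmE ns a) l j = if j ≤ a then sX ns l j else sX ns l (j + 1) := by
    intro j
    rw [sX, Ix_rmE]
    split_ifs <;> rfl
  refine ⟨fun i hi => ?_, ?_, fun i hi => ?_⟩
  · rw [dlt, dlt, if_pos (by omega), if_pos (by omega), hX, hX, if_pos (by omega),
      if_pos (by omega)]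
  · have := SG_pos.ne'
    rw [dlt, dlt, dlt, hX, hX, if_pos le_rfl, if_neg (by omega : ¬ a + 1 ≤ a),
      if_pos (by omega : a + 1 < a + 2 + r)]
    rcases Nat.eq_zero_or_pos r with rfl | hr
    · rw [if_neg (by omega), if_neg (by omega)]
      field_simp
      ring
    · rw [if_pos (by omega), if_pos (by omega)]
      field_simp
      ring
  · have e1 : sX (rmE ns a) l (a + 1 + i) = sX ns l (a + 2 + i) := by
      rw [hX, if_neg (by omega), show a + 1 + i + 1 = a + 2 + i by omega]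
    have e2 : sX (rmE ns a) l (a + 1 + i + 1) = sX ns l (a + 2 + i + 1) := by
      rw [hX, if_neg (by omega), show a + 1 + i + 1 + 1 = a + 2 + i + 1 by omega]
    rw [dlt, dlt, e1, e2]
    by_cases h : a + 1 + i + 1 < a + 1 + r
    · rw [if_pos h, if_pos (by omega)]
    · rw [if_neg h, if_neg (by omega)]

theorem good6_mg {M : ℝ} {a r : ℕ} {ns : List ℕ} {cuts : List Cu} (hc : CellN (a + 2 + r) ns)
    (h1 : Good6 M (a + 1 + r) (rmE ns a) (mgC a cuts)) : Good6 M (a + 2 + r) ns cuts := by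
  intro l hl hs hcut
  refine h1 l hl hs ?_
  obtain ⟨g1, g2, g3⟩ := dlt_mg a r ns l
  have hδ := (hc.ctx hs).hδ
  clear h1
  induction cuts with
  | nil =>
    intro c hc'
    exact absurd hc' (by simp [mgC])
  | cons c cuts ih =>
    obtain ⟨p, m⟩ := c
    intro c' hc'
    have hc' : c' ∈ (Nat.rec (motive := fun _ => Cu)
      (Cu.mk (rmD p (Nat.succ a)) (rmD m (Nat.succ a))) (fun _ _ => Cu.mk (rmD p a) (rmD m a))
        (Nat.sub (Nat.add (dg p (Nat.succ a)) (dg m a))
          (Nat.add (dg p a) (dg m (Nat.succ a)))) : Cu) :: mgC a cuts := hc'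
    rcases List.mem_cons.1 hc' with rfl | hc'
    · exact mg_cut hδ g1 g2 g3 (hcut (.mk p m) (by simp))
    · exact ih (fun c hc => hcut c (List.mem_cons_of_mem _ hc)) c' hc'

/-! ### known cells -/

/-- a cell -/
inductive KC where
  | mk (q : ℕ) (ns : List ℕ) (cuts : List Cu) : KC

/-- every collection of the cell is good -/
def GoodKC (M : ℝ) : KC → Prop
  | .mk q ns cuts => Good6 M q ns cuts

/-- equality with a known cell -/
noncomputable def eqC (kc : KC) (q : ℕ) (ns : List ℕ) (cuts : List Cu) : Bool :=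
  KC.rec (motive := fun _ => Bool) (fun q' ns' cuts' =>
    andB (Nat.beq q q') (andB (eqL ns ns') (eqK cuts cuts'))) kc

theorem eqC_sound {M : ℝ} {kc : KC} {q : ℕ} {ns : List ℕ} {cuts : List Cu} (hk : GoodKC M kc)
    (h : eqC kc q ns cuts = true) : Good6 M q ns cuts := by
  obtain ⟨q', ns', cuts'⟩ := kc
  obtain ⟨h1, h⟩ := andB_eq_true.1 h
  obtain ⟨h2, h3⟩ := andB_eq_true.1 h
  rw [Nat.eq_of_beq_eq_true h1, eqL_eq _ h2, eqK_eq _ h3]
  exact hk

/-- `v` is a vector of length `q` with small entries -/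
def vb (q v : ℕ) : Bool := andB (Nat.ble (Nat.succ v) (Nat.pow 2 (Nat.mul K q))) (okB 36 q v)

theorem vb_sound {q v : ℕ} {δ : ℕ → ℝ} (h : vb q v = true) :
    VR q δ (2 ^ 36) v (lin q δ (dg v)) := by
  obtain ⟨h1, h2⟩ := andB_eq_true.1 h
  have h1 : v + 1 ≤ 2 ^ (K * q) := Nat.le_of_ble_eq_true h1
  have h3 : v = digs K q (dg v) := by
    have h4 := eq_digs_dg v q
    rw [Nat.div_eq_of_lt (by omega), mul_zero, add_zero] at h4
    exact h4
  refine ⟨dg v, h3, fun i hi => ?_, rfl⟩
  rw [h3] at h2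
  exact (okB_sound (by norm_num [K]) (fun i _ => dg_lt v i) h2 i hi).le

/-- the known cuts hold on the cell -/
noncomputable def subC (q : ℕ) (cx : CX) (l : List LCt) : List Cu → Bool :=
  List.rec (motive := fun _ => List Cu → Bool)
    (fun l' => List.rec (motive := fun _ => Bool) true (fun _ _ _ => false) l')
    (fun a _ ih l' => List.rec (motive := fun _ => Bool) false
      (fun b t _ => Cu.rec (motive := fun _ => Bool) (fun p n =>
        andB (vb q p) (andB (vb q n) (andB (lc q cx a n p) (ih t)))) b) l') l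

theorem subC_sound {q : ℕ} {δ : ℕ → ℝ} (hx : Ctx q δ) {cx : CX}
    (hc : CXok q δ cx) (l : List LCt) :
    ∀ {l' : List Cu}, subC q cx l l' = true → ∀ c ∈ l', CutH q δ c := by
  induction l with
  | nil =>
    intro l' h
    cases l' with
    | nil => simp
    | cons b t => exact absurd h (by simp [subC])
  | cons a l ih =>
    intro l' h
    cases l' with
    | nil => exact absurd h (by simp [subC])
    | cons b t =>
      obtain ⟨p, n⟩ := b
      obtain ⟨h1, h⟩ := andB_eq_true.1 h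
      obtain ⟨h2, h⟩ := andB_eq_true.1 h
      obtain ⟨h3, h4⟩ := andB_eq_true.1 h
      intro c hc'
      rcases List.mem_cons.1 hc' with rfl | hc'
      · have g1 := vb_sound (δ := δ) h1
        have g2 := vb_sound (δ := δ) h2
        exact ⟨_, _, g1, g2, lc_sound hx hc (by norm_num) g2 g1 h3⟩
      · exact ih h4 c hc'

/-- the check that a cell is contained in a known cell -/
noncomputable def covC (kc : KC) (l : List LCt) (q : ℕ) (ns : List ℕ) (cuts : List Cu) : Bool :=
  KC.rec (motive := fun _ => Bool) (fun q' ns' cuts' =>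
    andB (Nat.beq q q') (andB (eqL ns ns')
      (subC q (CX.mk cuts (sqQ q (xr q 0)) (ngS q ns (Nat.sub q 1))) l cuts'))) kc

theorem covC_sound {M : ℝ} {kc : KC} {l : List LCt} {q : ℕ} {ns : List ℕ} {cuts : List Cu}
    (hN : CellN q ns) (hk : GoodKC M kc) (h : covC kc l q ns cuts = true) :
    Good6 M q ns cuts := by
  obtain ⟨q', ns', cuts'⟩ := kc
  obtain ⟨h1, h⟩ := andB_eq_true.1 h
  obtain ⟨h2, h3⟩ := andB_eq_true.1 h
  have hk : Good6 M q' ns' cuts' := hk
  rw [← Nat.eq_of_beq_eq_true h1, ← eqL_eq _ h2] at hk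
  intro L hL hs hcut
  exact hk L hL hs (subC_sound (hN.ctx hs) (hN.lx hL hs hcut).cxok l h3)

/-- the length of a list -/
noncomputable def lenN (l : List ℕ) : ℕ :=
  List.rec (motive := fun _ => ℕ) 0 (fun _ _ ih => Nat.succ ih) l

theorem lenN_eq (l : List ℕ) : lenN l = l.length := by
  induction l with
  | nil => rfl
  | cons a l ih =>
    show lenN l + 1 = l.length + 1
    rw [ih]

/-- the check of the numbers of the explicit sides -/
noncomputable def nsB (l : List ℕ) : ℕ → Bool :=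
  List.rec (motive := fun _ => ℕ → Bool) (fun _ => true) (fun a _ ih prev =>
    andB (Nat.ble prev a) (andB (Nat.ble a 4000) (ih a))) l

theorem nsB_sound (l : List ℕ) : ∀ {prev : ℕ}, nsB l prev = true →
    (∀ a ∈ l, prev ≤ a ∧ a ≤ 4000) ∧ l.Pairwise (· ≤ ·) := by
  induction l with
  | nil =>
    intro prev h
    exact ⟨by simp, List.Pairwise.nil⟩
  | cons a l ih =>
    intro prev h
    obtain ⟨h1, h⟩ := andB_eq_true.1 h
    obtain ⟨h2, h3⟩ := andB_eq_true.1 h
    have h1 : prev ≤ a := Nat.le_of_ble_eq_true h1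
    have h2 : a ≤ 4000 := Nat.le_of_ble_eq_true h2
    obtain ⟨g2, g3⟩ := ih h3
    refine ⟨?_, List.pairwise_cons.2 ⟨fun b hb => (g2 b hb).1, g3⟩⟩
    intro b hb
    rcases List.mem_cons.1 hb with rfl | hb
    · exact ⟨h1, h2⟩
    · exact ⟨h1.trans (g2 b hb).1, (g2 b hb).2⟩

/-- the check of the shape of a cell -/
noncomputable def cellB (q : ℕ) (ns : List ℕ) : Bool :=
  andB (Nat.ble 2 q) (andB (Nat.ble q 64) (andB (Nat.beq (Nat.succ (lenN ns)) q) (nsB ns 0)))

theorem cellB_sound {q : ℕ} {ns : List ℕ} (h : cellB q ns = true) : CellN q ns := by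
  obtain ⟨h1, h⟩ := andB_eq_true.1 h
  obtain ⟨h2, h⟩ := andB_eq_true.1 h
  obtain ⟨h4, h3⟩ := andB_eq_true.1 h
  have h1 : 2 ≤ q := Nat.le_of_ble_eq_true h1
  have h2 : q ≤ 64 := Nat.le_of_ble_eq_true h2
  obtain ⟨g2, g3⟩ := nsB_sound ns h3
  have hlen : ns.length + 1 = q := by
    rw [← lenN_eq]
    exact Nat.eq_of_beq_eq_true h4
  have hget : ∀ i (hi : i < ns.length), nthR 0 ns i = ns[i] := by
    intro i hi
    rw [nthR_eq, List.getD_eq_getElem?_getD, List.getElem?_eq_getElem hi]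
    rfl
  refine ⟨h1, h2, hlen, fun i hi => ?_, fun i hi => ?_⟩
  · cases i with
    | zero => exact Nat.zero_le _
    | succ i =>
      show nthR 0 ns i + 1 ≤ nthR 0 ns (i + 1) + 1
      rw [hget i (by omega), hget (i + 1) (by omega)]
      have := List.pairwise_iff_getElem.1 g3 i (i + 1) (by omega) (by omega) (by omega)
      omega
  · cases i with
    | zero => exact Nat.zero_le _
    | succ i =>
      show nthR 0 ns i + 1 ≤ 4096
      rw [hget i (by omega)]
      have := (g2 _ (List.getElem_mem (by omega : i < ns.length))).2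
      omega

end Pool.Agent.MOS.V6
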