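import Pool.Agent.Lib.MP_b520b2_co.V6.Chk

/-!
# The cell of the critical collection

Near `(√3, 1, 1, 1)` the rectangles `(x₁ + x₂) × (x₁ + x₄)` and `(x₁ + x₂ + x₃) × (x₃ + x₄)` suffice.
-/

namespace Pool.Agent.MOS.V6

open Finset

/-- the optimal constant -/
noncomputable def AS : ℝ := (2 + Real.sqrt 3) / 3

theorem VR.uniq {q : ℕ} {δ : ℕ → ℝ} {b b' v : ℕ} {r r' : ℝ} (hb : b < 2 ^ K) (hb' : b' < 2 ^ K)
    (h : VR q δ b v r) (h' : VR q δ b' v r') : r = r' := by
  obtain ⟨f, h1, h2, rfl⟩ := h
  obtain ⟨g, g1, g2, rfl⟩ := h'
  have := digs_inj (fun i hi => lt_of_le_of_lt (h2 i hi) hb)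
    (fun i hi => lt_of_le_of_lt (g2 i hi) hb') (h1.symm.trans g1)
  exact sum_congr rfl fun i hi => by rw [this i (mem_range.1 hi)]

theorem VR.uniq' {q : ℕ} {δ : ℕ → ℝ} {b b' v v' : ℕ} {r r' : ℝ} (hb : b < 2 ^ K)
    (hb' : b' < 2 ^ K) (h : VR q δ b v r) (h' : VR q δ b' v' r') (e : v = v') : r = r' := by
  subst e
  exact VR.uniq hb hb' h h'

theorem MR.uniq {q : ℕ} {δ : ℕ → ℝ} {b b' v : ℕ} {r r' : ℝ} (hb : b < 2 ^ K) (hb' : b' < 2 ^ K)
    (h : MR q δ b v r) (h' : MR q δ b' v r') : r = r' := by
  obtain ⟨f, h1, h2, rfl⟩ := h
  obtain ⟨g, g1, g2, rfl⟩ := h'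
  have := digs_inj (fun i hi => lt_of_le_of_lt (h2 i hi) hb)
    (fun i hi => lt_of_le_of_lt (g2 i hi) hb') (h1.symm.trans g1)
  exact sum_congr rfl fun i hi => by rw [this i (mem_range.1 hi)]

/-- the result of the check of a template has the given area -/
def isA (q w h aL aR Lam : ℕ) : Bool :=
  andB (Nat.beq aL (Nat.mul 120 (outQ q w h))) (andB (Nat.beq aR 0) (Nat.beq Lam 120))

theorem te_area {q : ℕ} {ns : List ℕ} {cuts : List Cu} {l : List ℝ} (hx : Lx q ns cuts l)
    (te : TE6) {w h : ℕ} {rw rh : ℝ} (hw : VR q (dlt q ns l) (2 ^ 40) w rw)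
    (hh : VR q (dlt q ns l) (2 ^ 40) h rh)
    (hc : te6 q ns (CX.mk cuts (sqQ q (xr q 0)) (ngS q ns (Nat.sub q 1))) te 0 0 0
      (isA q w h) = true) : ∃ a b, PacksL l a b ∧ a * b ≤ rw * rh := by
  have h0 := (MR.zero (q := q) (δ := dlt q ns l)).mono (Nat.zero_le AB)
  obtain ⟨aL, aR, E, rL, rR, A, h1, ⟨a, b, h2, h3⟩, h4, h5, h6⟩ :=
    te6_sound hx hx.cxok (hx.s2.mono (by norm_num)) te h0 h0 hc
  obtain ⟨g1, h1⟩ := andB_eq_true.1 h1
  obtain ⟨g2, g3⟩ := andB_eq_true.1 h1
  have g1 : aL = Nat.mul 120 (outQ q w h) := Nat.eq_of_beq_eq_true g1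
  have g2 : aR = 0 := Nat.eq_of_beq_eq_true g2
  have g3 : 0 + E = 120 := Nat.eq_of_beq_eq_true g3
  have hE : E = 120 := by omega
  subst g2
  rw [g1] at h4
  have hv := (MR.out hx.ctx (by norm_num) (by norm_num) hw hh).smul 120
  have e1 := MR.uniq (by norm_num [AB, K]) (by norm_num [K]) h4 hv
  have e2 := MR.uniq (by norm_num [AB, K]) (by norm_num [K]) h5 (MR.zero (q := q))
  refine ⟨a, b, h2, h3.trans (le_of_eq ?_)⟩
  rw [e1, e2, hE] at h6
  push_cast at h6
  linarith

/-- the certificates of the two templates -/
def crT1 : ℕ := 0x1fffe0fffdf8001cc00002000c8fffd402c683422214a461000647fff03fff39fffe0fffe180016863a1cbf8b2be1407ffd1c000d9fffd4fffcb800323ffeb0028265a06def0183fffd9ffff8ffff2800324000f9fffca18f57ebe46c2af01fff64ffffe800323fffaa00040fffde018eab1c2b4ba740fffad8000b4000ee000c8fffdd7fffe8274f3799bad9420800323fff0600022fffc17fffac000a01245e23da1c16c03ffff5fff970006480023c0006e000020f7d11315923cb01fffbf000357fff33ffe71fff4900014037dbf265ba5856000000000000000020000000000000000600000b115f94a7260000000000000000000000000000000000002fb118cf10c280000000001000000000000000000000000007f7c546e384d0000000000000000000008000000000000001e2b9efc4cc7a000000000000000000000000008000000000acacb5a1f6dc43023ccf55665814a010006fd3acb0c11c800200abd10839b200064802008200403060000608000000054805df820100000000001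

/-- the certificates of the two templates -/
def crT2 : ℕ := 0x800323fff35fff90fffe48000ac00018000bbdd6a619d64d83fff660008afffdb7ffce3fff8e000080004ef1d00495517c2000c8fffd27ffdc3fff2a00042ffffc000187d84da348c370fffc680017c001420003afff9c8002080013cf8c73d2827d0800323fff7dfffcafffea7ffe5c000f4001f64a8a2db15e80400121ffffcfff9c7fff73fff720002a00000dc4c9c6587d31fff53000647ffefbfff05fff95000030001a8b909a9286cf0fff9c80031bfff3200074fffaa800018000471dd81691a6e48001e3fff61fff8d000647fff940001000060ec4ee0a9bb1040000000000000000000000000000000080000162eef67a6579041ce0dd1abf56d880005000000000000000000000000000000000000000a07840258474000000000080000000000000000000000000003cd6b071386a800000000000000000000400000000000000000c24e0ca9ad1d0000000000000000000000000040000000000047d1f85edbf9218001151bb36ff2a3a00800002f01ac996de0c0010056288e0911e0064802008100c0200c00200000000c408000000034805df820100000000001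

/-- the cuts of the cell with four explicit sides -/
def crB : List Cu := [Cu.mk 0xc500000000000000000000000000000000000000c500000000000000000000000000000000000000a70000000000000000000000000000000000000089000000000000000000000000000000000000006b0000000000000000000000000000000000000037 0x8000000000000000000000000000000000000000800000000000000000000000000000000000000080000000000000000000000000000000000000008000000000000000000000000000000000000000800000000000000000000000000000000000000080, Cu.mk 0x300000000000000000000000000000000000000030000000000000000000000000000000000000002000000000000000000000000000000000000000100000000000000000000000000000000000000010000000000000000000000000000000000000002 0x200000000000000000000000000000000000000020000000000000000000000000000000000000002000000000000000000000000000000000000000200000000000000000000000000000000000000020000000000000000000000000000000000000002, Cu.mk 0x200000000000000000000000000000000000000020000000000000000000000000000000000000001000000000000000000000000000000000000000200000000000000000000000000000000000000030000000000000000000000000000000000000002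 0x200000000000000000000000000000000000000020000000000000000000000000000000000000002000000000000000000000000000000000000000200000000000000000000000000000000000000020000000000000000000000000000000000000002, Cu.mk 0x3c000000000000000000000000000000000000003c000000000000000000000000000000000000003c000000000000000000000000000000000000007200000000000000000000000000000000000000590000000000000000000000000000000000000040 0x4000000000000000000000000000000000000000400000000000000000000000000000000000000040000000000000000000000000000000000000004000000000000000000000000000000000000000400000000000000000000000000000000000000040]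

theorem crC1 : te6 6 [0, 1, 2, 3, 4]
    (CX.mk crB (sqQ 6 (xr 6 0)) (ngS 6 [0, 1, 2, 3, 4] (Nat.sub 6 1))) (dTE 6 crT1) 0 0 0
    (isA 6 (Nat.add (xr 6 1) (xr 6 2)) (Nat.add (xr 6 1) (xr 6 4))) = true := by
  decide +kernel

theorem crC2 : te6 6 [0, 1, 2, 3, 4]
    (CX.mk crB (sqQ 6 (xr 6 0)) (ngS 6 [0, 1, 2, 3, 4] (Nat.sub 6 1))) (dTE 6 crT2) 0 0 0
    (isA 6 (Nat.add (Nat.add (xr 6 1) (xr 6 3)) (xr 6 2)) (Nat.add (xr 6 3) (xr 6 4))) = true := by
  decide +kernel

/-- the check of the fourth cut -/
def crL (q p n : ℕ) : Bool :=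
  Nat.beq (Nat.add (Nat.mul SG p) (Nat.mul 54 (xr q 3)))
    (Nat.add (Nat.add (Nat.mul 25 (xr q 1)) (Nat.mul 25 (xr q 2))) (Nat.mul SG n))

theorem crC4 : crL 6 0x3c000000000000000000000000000000000000003c000000000000000000000000000000000000003c000000000000000000000000000000000000007200000000000000000000000000000000000000590000000000000000000000000000000000000040
    0x4000000000000000000000000000000000000000400000000000000000000000000000000000000040000000000000000000000000000000000000004000000000000000000000000000000000000000400000000000000000000000000000000000000040 = true := by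
  decide +kernel

theorem crit_lin {q : ℕ} {ns : List ℕ} {l : List ℝ} {p n : ℕ} {rp rn : ℝ} (hq : 3 < q)
    (c1 : VR q (dlt q ns l) (2 ^ 36) p rp) (c2 : VR q (dlt q ns l) (2 ^ 36) n rn)
    (h : crL q p n = true) :
    SG * rp + 54 * sX ns l 3 = 25 * sX ns l 1 + 25 * sX ns l 2 + SG * rn := by
  have h : Nat.add (Nat.mul SG p) (Nat.mul 54 (xr q 3)) =
    Nat.add (Nat.add (Nat.mul 25 (xr q 1)) (Nat.mul 25 (xr q 2))) (Nat.mul SG n) :=
    Nat.eq_of_beq_eq_true h
  have h1 := xr_val (ns := ns) (l := l) (q := q) (i := 1) (by omega)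
  have h2 := xr_val (ns := ns) (l := l) (q := q) (i := 2) (by omega)
  have h3 := xr_val (ns := ns) (l := l) (q := q) (i := 3) (by omega)
  have v1 := ((c1.smul SG).mono (b' := 2 ^ 80) (by norm_num [SG])).add
    ((h3.smul 54).mono (b' := 2 ^ 80) (by norm_num [SG]))
  have v2 := (((h1.smul 25).mono (b' := 2 ^ 80) (by norm_num [SG])).add
    ((h2.smul 25).mono (b' := 2 ^ 80) (by norm_num [SG]))).add
    ((c2.smul SG).mono (b' := 2 ^ 80) (by norm_num [SG]))
  have := VR.uniq' (by norm_num [K]) (by norm_num [K]) v1 v2 h
  push_cast at this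
  exact this

/-- the inequality between the two areas and the sum of the squares -/
theorem crit_ineq {x y z w s S : ℝ} (hs : s * s = 3) (hs0 : 0 ≤ s) (hw : w ≤ z) (hz : 0 ≤ z)
    (h : 54 * z ≤ 25 * (x + y)) (hS : x ^ 2 + y ^ 2 + z ^ 2 + w ^ 2 ≤ S)
    (h1 : (2 + s) / 3 * S < (x + y) * (x + w))
    (h2 : (2 + s) / 3 * S < (x + z + y) * (z + w)) : False := by
  have hs1 : s ≤ 1.74 := by nlinarith
  have e : (2 + s) / 3 * (x ^ 2 + y ^ 2 + z ^ 2 + w ^ 2) - 2 / 3 * ((x + y) * (x + w)) -
      1 / 3 * ((x + z + y) * (z + w)) = s / 3 * (x - s / 3 * (y + 2 * z)) ^ 2 +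
      (6 + 2 * s) / 9 * (y - z) ^ 2 + (z - w) * (x + y - (1 + 2 * s / 3) * z) +
      (2 + s) / 3 * (z - w) ^ 2 := by
    linear_combination (2 / 9 * x * (y + 2 * z) - s / 27 * (y + 2 * z) ^ 2) * hs
  have t1 : 0 ≤ s / 3 * (x - s / 3 * (y + 2 * z)) ^ 2 := by positivity
  have t2 : 0 ≤ (6 + 2 * s) / 9 * (y - z) ^ 2 := by positivity
  have t4 : 0 ≤ (2 + s) / 3 * (z - w) ^ 2 := by positivity
  have t3 : 0 ≤ (z - w) * (x + y - (1 + 2 * s / 3) * z) := by
    refine mul_nonneg (by linarith) ?_
    have : (1 + 2 * s / 3) * z ≤ 2.16 * z := mul_le_mul_of_nonneg_right (by linarith) hz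
    linarith
  have hSS : (2 + s) / 3 * (x ^ 2 + y ^ 2 + z ^ 2 + w ^ 2) ≤ (2 + s) / 3 * S :=
    mul_le_mul_of_nonneg_left hS (by positivity)
  linarith

theorem crit_base : GoodKC AS (KC.mk 6 [0, 1, 2, 3, 4] crB) := by
  intro l hl hsp hcut
  have hN : CellN 6 [0, 1, 2, 3, 4] := cellB_sound (by decide +kernel)
  have hx := hN.lx hl hsp hcut
  by_contra hcon
  have hM : ∀ a b, PacksL l a b → AS * sumsq l < a * b := by
    intro a b hab
    by_contra hle
    exact hcon ⟨a, b, hab, not_lt.1 hle⟩
  have hX : ∀ i < 6, VR 6 (dlt 6 [0, 1, 2, 3, 4] l) SG (xr 6 i) (sX [0, 1, 2, 3, 4] l i) :=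
    fun i hi => xr_val hi
  have hX2 : ∀ {v : ℕ} {r : ℝ}, VR 6 (dlt 6 [0, 1, 2, 3, 4] l) SG v r →
      VR 6 (dlt 6 [0, 1, 2, 3, 4] l) (2 ^ 38) v r := fun h => h.mono (by norm_num [SG])
  obtain ⟨a, b, g1, g2⟩ := te_area hx (dTE 6 crT1)
    (((hX2 (hX 1 (by norm_num))).add (hX2 (hX 2 (by norm_num)))).mono (by norm_num))
    (((hX2 (hX 1 (by norm_num))).add (hX2 (hX 4 (by norm_num)))).mono (by norm_num)) crC1
  obtain ⟨a', b', g1', g2'⟩ := te_area hx (dTE 6 crT2)
    ((((hX2 (hX 1 (by norm_num))).add (hX2 (hX 3 (by norm_num)))).add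
      (hX2 (hX 2 (by norm_num)))).mono (by norm_num))
    (((hX2 (hX 3 (by norm_num))).add (hX2 (hX 4 (by norm_num)))).mono (by norm_num)) crC2
  have k1 := (hM a b g1).trans_le g2
  have k2 := (hM a' b' g1').trans_le g2'
  obtain ⟨rp, rn, c1, c2, c3⟩ := hcut (.mk 0x3c000000000000000000000000000000000000003c000000000000000000000000000000000000003c000000000000000000000000000000000000007200000000000000000000000000000000000000590000000000000000000000000000000000000040 0x4000000000000000000000000000000000000000400000000000000000000000000000000000000040000000000000000000000000000000000000004000000000000000000000000000000000000000400000000000000000000000000000000000000040)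
    (by simp [crB])
  have e4 := crit_lin (by norm_num) c1 c2 crC4
  have hsx : ∀ i, i < 5 → sX [0, 1, 2, 3, 4] l (i + 1) = sideX l (i + 1) := by
    intro i hi
    interval_cases i <;> rfl
  rw [hsx 0 (by norm_num), hsx 1 (by norm_num), hsx 2 (by norm_num)] at e4
  rw [hsx 0 (by norm_num), hsx 1 (by norm_num), hsx 3 (by norm_num)] at k1
  rw [hsx 0 (by norm_num), hsx 1 (by norm_num), hsx 2 (by norm_num), hsx 3 (by norm_num)] at k2
  have hSG := SG_pos
  have hsum : sideX l 1 ^ 2 + sideX l 2 ^ 2 + sideX l 3 ^ 2 + sideX l 4 ^ 2 ≤ sumsq l := by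
    have h1 := sumsq_split l 4
    have h2 := sumsq_nonneg (l.drop 4)
    simp only [sum_range_succ, sum_range_zero] at h1
    linarith
  have h3 : Real.sqrt 3 * Real.sqrt 3 = 3 := Real.mul_self_sqrt (by norm_num)
  push_cast at e4
  refine crit_ineq h3 (Real.sqrt_nonneg _) (sideX_anti hsp 3) (sideX_nonneg hsp 3) ?_ hsum k1 k2
  nlinarith

/-- the certificate of the cell with three explicit sides -/
theorem crC0 : chkKC 2651 2131 [KC.mk 6 [0, 1, 2, 3, 4] crB] 8 [0x1220b26c1c9f767c45, 0x29b8212de47ddebde5c099, 0x78f1e72b3007158608fefcb91ce37, 0x56bb6a198f1446beb, 0x40008e0003b0001f80011400191fff96000a241313591d3a0040005e0001d0006480010400051fffb40076156ef5cfc1c4003ffeba000250006480007c00131fff9e00074051a8ae49f7803ffe7200092fffef8001b400189fff520000dd5b90e45fa0404000adffffafffa27ffd1c0019200004000a1cc2f1d3ef2b0000000000000000000000000000200000180000307282b18509b20000080000000000000000000000000040000012bf4913560dc84154816e5d5500d4000050000000000000000000000000000000000000000a0b84316fa4800000000010000000000000000000000000000a4d455b8c96a2000000000000000200000000000000000000001236a50624d3a800000000000000000000400000000000000002a601ca5d0f23200000000000000000000000000800000000001aa409a054ad708000115be3506ef2160004015901db46e85000c945375c64fbd69fe29,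 0x40000a000010006480018400041fff9606275dd58ef5bb800ffffb7fff6c00191fffdf000237ffed00daa8fa0ec2e2a804000360001f0003c800324000e5fff8011ba309eb61b51000fffe47fff5c0019200043000577ffe400c2a63439e39380040000e0000900061800323ffe81ffff804a7f5aac28f104000000080000000000000000000000000040000e6b50beda4812000000000040000000000000000000004001185dedabab9502000000000000000000001000000000004000490edde5ce0c3a0000000000000000000000000080000040022bcb1882158623000000000000000000000000000000000000001bac12c387220000000000400000000000000000000000000e5603e86cf8620000000000000002000000000000000000001a3e1e3322c0a20000000000000000000010000000000000002b5f3c34d3891200000000000000000000000000800000000069b4dffea09c320010d7de6679f1540004015841fa50965000c9443d85892ec1d7da1]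
    (KC.mk 5 [0, 1, 2, 3] [Cu.mk 0xc500000000000000000000000000000000000000a70000000000000000000000000000000000000089000000000000000000000000000000000000006b0000000000000000000000000000000000000037 0x800000000000000000000000000000000000000080000000000000000000000000000000000000008000000000000000000000000000000000000000800000000000000000000000000000000000000080, Cu.mk 0x30000000000000000000000000000000000000002000000000000000000000000000000000000000100000000000000000000000000000000000000010000000000000000000000000000000000000002 0x20000000000000000000000000000000000000002000000000000000000000000000000000000000200000000000000000000000000000000000000020000000000000000000000000000000000000002]) = true := by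
  decide +kernel

theorem ck_AS : CK AS 2651 2131 := by
  refine ⟨by norm_num, by norm_num, by norm_num, ?_⟩
  have h : (3691 : ℝ) / 2131 ≤ Real.sqrt 3 := Real.le_sqrt_of_sq_le (by norm_num)
  rw [AS]
  push_cast
  linarith

/-- the critical cell -/
def crK0 : KC := KC.mk 5 [0, 1, 2, 3] [Cu.mk 0xc500000000000000000000000000000000000000a70000000000000000000000000000000000000089000000000000000000000000000000000000006b0000000000000000000000000000000000000037 0x800000000000000000000000000000000000000080000000000000000000000000000000000000008000000000000000000000000000000000000000800000000000000000000000000000000000000080, Cu.mk 0x30000000000000000000000000000000000000002000000000000000000000000000000000000000100000000000000000000000000000000000000010000000000000000000000000000000000000002 0x20000000000000000000000000000000000000002000000000000000000000000000000000000000200000000000000000000000000000000000000020000000000000000000000000000000000000002]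

theorem crit0 : GoodKC AS crK0 :=
  chkKC_sound ck_AS (kn := [KC.mk 6 [0, 1, 2, 3, 4] crB]) ⟨crit_base, trivial⟩ crC0

/-! ### the same cell with more explicit sides -/

theorem good6_ext {M : ℝ} {q n : ℕ} {ns : List ℕ} {cuts : List Cu} (hc : CellN q ns)
    (hv : ∀ c ∈ cuts, ∃ p m, c = Cu.mk p m ∧ vb q p = true ∧ vb q m = true)
    (h : Good6 M q ns cuts) : Good6 M (q + 1) (nsU q n ns) (extC q cuts) := by
  intro l hl hs hcut
  refine h l hl hs ?_
  rw [nsU, apE_eq] at hcut
  obtain ⟨hd1, hd2⟩ := dlt_up (b := Nat.add (nthR 0 ns (Nat.sub q 2)) n) (l := l) hc.len hc.hq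
  have hb : 2 ^ 36 < 2 ^ K := by norm_num [K]
  have hq0 : 0 < q := by have := hc.hq; omega
  clear h
  induction cuts with
  | nil => simp
  | cons c cuts ih =>
    obtain ⟨p, m, rfl, hp, hm⟩ := hv c List.mem_cons_self
    intro c' hc'
    rcases List.mem_cons.1 hc' with rfl | hc'
    · obtain ⟨rp, rn, g1, g2, g3⟩ := hcut (.mk (extV q p) (extV q m)) List.mem_cons_self
      have k1 := vb_sound (δ := dlt q ns l) hp
      have k2 := vb_sound (δ := dlt q ns l) hm
      have e1 := VR.uniq hb hb g1 (extV_eq hb hq0 k1 hd1 hd2)
      have e2 := VR.uniq hb hb g2 (extV_eq hb hq0 k2 hd1 hd2)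
      exact ⟨_, _, k1, k2, by rw [← e1, ← e2]; exact g3⟩
    · exact ih (fun c hc => hv c (List.mem_cons_of_mem _ hc))
        (fun c hc => hcut c (List.mem_cons_of_mem _ hc)) c' hc'

/-- one more explicit side -/
noncomputable def KC.up (kc : KC) : KC :=
  KC.rec (motive := fun _ => KC) (fun q ns cuts => KC.mk (Nat.succ q) (nsU q 1 ns) (extC q cuts)) kc

/-- the check for one more explicit side -/
noncomputable def upB (kc : KC) : Bool :=
  KC.rec (motive := fun _ => Bool) (fun q ns cuts => andB (cellB q ns)
    (List.rec (motive := fun _ => Bool) true (fun c _ ih => Cu.rec (motive := fun _ => Bool)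
      (fun p m => andB (vb q p) (andB (vb q m) ih)) c) cuts)) kc

theorem upB_sound {M : ℝ} {kc : KC} (h : upB kc = true) (hk : GoodKC M kc) : GoodKC M kc.up := by
  obtain ⟨q, ns, cuts⟩ := kc
  obtain ⟨h1, h2⟩ := andB_eq_true.1 h
  refine good6_ext (cellB_sound h1) ?_ hk
  clear h h1 hk
  induction cuts with
  | nil => simp
  | cons c cuts ih =>
    obtain ⟨p, m⟩ := c
    obtain ⟨k1, h2⟩ := andB_eq_true.1 h2
    obtain ⟨k2, h3⟩ := andB_eq_true.1 h2
    intro c hc
    rcases List.mem_cons.1 hc with rfl | hc
    · exact ⟨p, m, rfl, k1, k2⟩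
    · exact ih h3 c hc

theorem crit1 : GoodKC AS crK0.up := upB_sound (by decide +kernel) crit0

theorem crit2 : GoodKC AS crK0.up.up := upB_sound (by decide +kernel) crit1

theorem crit3 : GoodKC AS crK0.up.up.up := upB_sound (by decide +kernel) crit2

/-- the known cells -/
noncomputable def crKs : List KC := [crK0, crK0.up, crK0.up.up, crK0.up.up.up]

theorem crKs_ok : AllG AS crKs := ⟨crit0, crit1, crit2, crit3, trivial⟩

end Pool.Agent.MOS.V6
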