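import Pool.Agent.Lib.MP_b520b2_co.V6.Cover

/-!
# Decoding of certificates

The certificates are stored in numbers.  Nothing has to be proved about the decoding: the check is
sound for every certificate.  The functions get the rest of the bits and a continuation.
-/

namespace Pool.Agent.MOS.V6

/-- `w` bits of `n` from position `p` -/
def rd (n p w : ℕ) : ℕ := Nat.land (Nat.shiftRight n p) (Nat.sub (Nat.pow 2 w) 1)

/-- the multiplier which spreads three digits of `w` bits -/
def spR (w : ℕ) : ℕ :=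
  Nat.add 1 (Nat.add (Nat.pow 2 (Nat.sub K w)) (Nat.pow 2 (Nat.mul 2 (Nat.sub K w))))

/-- the mask for three digits of `w` bits -/
def spM (w : ℕ) : ℕ := Nat.mul (Nat.sub (Nat.pow 2 w) 1) (rep K 3)

/-- a vector with `m` blocks of three digits of `w` bits, the blocks start at `p + 3 w t` -/
noncomputable def dvec (n w p m : ℕ) : ℕ :=
  Nat.rec (motive := fun _ => ℕ → ℕ) (fun _ => 0) (fun _ ih p =>
    Nat.add (Nat.land (Nat.mul (rd n p (Nat.mul 3 w)) (spR w)) (spM w))
      (Nat.shiftLeft (ih (Nat.add p (Nat.mul 3 w))) (Nat.mul 3 K))) m p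

/-- a vector of `q` digits of `w` bits from position `p` -/
noncomputable def dvq (n q w p : ℕ) : ℕ :=
  dvec (rd n p (Nat.mul q w)) w 0 (Nat.div (Nat.add q 2) 3)

/-- the vector with entries `2 ^ (w - 1)` -/
noncomputable def ofs (q w : ℕ) : ℕ := Nat.mul (Nat.pow 2 (Nat.sub w 1)) (rep K q)

variable {α : Type}

/-- `m` items of a quadratic certificate; the coefficients have `wi` bits and are shifted by `sh`,
the entries of vectors have `wq` bits -/
noncomputable def dIt (q wi wq sh m : ℕ) : ℕ → (List QE → ℕ → α) → α :=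
  Nat.rec (motive := fun _ => ℕ → (List QE → ℕ → α) → α) (fun n k => k List.nil n)
    (fun _ ih n k => Nat.rec (motive := fun _ => α)
      (ih (Nat.shiftRight n (Nat.add (Nat.add 2 wi) (Nat.mul q wq))) (fun l n' =>
        k (List.cons (QE.sq (Nat.shiftLeft (rd n 2 wi) sh) (dvq n q wq (Nat.add 2 wi))
          (ofs q wq)) l) n'))
      (fun o _ => Nat.rec (motive := fun _ => α)
        (ih (Nat.shiftRight n (Nat.add (Nat.add 8 wi) (Nat.mul q wq))) (fun l n' =>
          k (List.cons (QE.cv (Nat.shiftLeft (rd n 2 wi) sh) (rd n (Nat.add 2 wi) 6)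
            (dvq n q wq (Nat.add 8 wi))) l) n'))
        (fun _ _ => ih (Nat.shiftRight n (Nat.add 14 wi)) (fun l n' =>
          k (List.cons (QE.cc (Nat.shiftLeft (rd n 2 wi) sh) (rd n (Nat.add 2 wi) 6)
            (rd n (Nat.add 8 wi) 6)) l) n'))
        o) (Nat.land n 3)) m

/-- the last part of a quadratic certificate -/
noncomputable def dQ2 (q sc mu n : ℕ) (k : QCt → ℕ → α) : α :=
  dIt q (rd n 8 7) (rd n 15 6) (rd n 21 7) (rd n 0 8) (Nat.shiftRight n 28) (fun l n' =>
    k (QCt.mk sc mu l) n')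

/-- a quadratic certificate -/
noncomputable def dQC (q n : ℕ) (k : QCt → ℕ → α) : α :=
  Nat.rec (motive := fun _ => α) (k (QCt.mk 1 0 List.nil) (Nat.shiftRight n 1))
    (fun _ _ => dQ2 q (rd n 1 17) (rd n 25 (rd n 18 7))
      (Nat.shiftRight n (Nat.add 25 (rd n 18 7))) k) (Nat.land n 1)

/-- multiples of cuts -/
noncomputable def dMl (wc fuel : ℕ) : ℕ → (List Ml → ℕ → α) → α :=
  Nat.rec (motive := fun _ => ℕ → (List Ml → ℕ → α) → α) (fun n k => k List.nil n)
    (fun _ ih n k => Nat.rec (motive := fun _ => α) (k List.nil (Nat.shiftRight n 1))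
      (fun _ _ => ih (Nat.shiftRight n (Nat.add 7 wc)) (fun l n' =>
        k (List.cons (Ml.mk (rd n 1 6) (rd n 7 wc)) l) n')) (Nat.land n 1)) fuel

/-- a linear certificate -/
noncomputable def dLC (q wc n : ℕ) (k : LCt → ℕ → α) : α :=
  Nat.rec (motive := fun _ => α) (k (LCt.mk 1 List.nil) (Nat.shiftRight n 1))
    (fun _ _ => Nat.rec (motive := fun _ => α)
      (dMl wc 64 (Nat.shiftRight n 13) (fun l n' => k (LCt.mk (rd n 2 11) l) n'))
      (fun _ _ => dQC q (Nat.shiftRight n 2) (fun c n' => k (LCt.lq c) n')) (rd n 1 1))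
    (Nat.land n 1)

/-- linear certificates -/
noncomputable def dLCs (q wc fuel : ℕ) : ℕ → (List LCt → ℕ → α) → α :=
  Nat.rec (motive := fun _ => ℕ → (List LCt → ℕ → α) → α) (fun n k => k List.nil n)
    (fun _ ih n k => Nat.rec (motive := fun _ => α) (k List.nil (Nat.shiftRight n 1))
      (fun _ _ => dLC q wc (Nat.shiftRight n 1) (fun c n' => ih n' (fun l n'' =>
        k (List.cons c l) n''))) (Nat.land n 1)) fuel

/-- edges -/
noncomputable def dEd (wc fuel : ℕ) : ℕ → (List Ed → ℕ → α) → α :=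
  Nat.rec (motive := fun _ => ℕ → (List Ed → ℕ → α) → α) (fun n k => k List.nil n)
    (fun _ ih n k => Nat.rec (motive := fun _ => α) (k List.nil (Nat.shiftRight n 1))
      (fun _ _ => dMl wc 64 (Nat.shiftRight n 7) (fun al n' => dMl wc 64 n' (fun be n'' =>
        ih n'' (fun l n3 => k (List.cons (Ed.mk (rd n 1 6) al be) l) n3)))) (Nat.land n 1)) fuel

/-- the type of a block -/
noncomputable def dBT (q wc n : ℕ) (k : BT → ℕ → α) : α :=
  Nat.rec (motive := fun _ => α) (k (BT.mk (Nat.land n 1) BU.mm) (Nat.shiftRight n 3))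
    (fun t _ => Nat.rec (motive := fun _ => α)
      (k (BT.mk (Nat.land n 1) (BU.r1 (rd n 3 8) (rd n 11 7) (rd n 18 11))) (Nat.shiftRight n 29))
      (fun _ _ => dLC q wc (Nat.shiftRight n 29) (fun c n' =>
        k (BT.mk (Nat.land n 1) (BU.r2 (rd n 3 8) (rd n 11 7) (rd n 18 11) c)) n')) t)
    (rd n 1 2)

/-- a tree -/
noncomputable def dT (q wc fuel : ℕ) : ℕ → (T6 → ℕ → α) → α :=
  Nat.rec (motive := fun _ => ℕ → (T6 → ℕ → α) → α) (fun n k => k (T6.sq 99 0) n)
    (fun _ ih n k => Nat.rec (motive := fun _ => α)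
      -- 0: square
      (Nat.rec (motive := fun _ => α) (k (T6.sq (rd n 3 6) 0) (Nat.shiftRight n 10))
        (fun _ _ => k (T6.sq (rd n 3 6) (rd n 10 6)) (Nat.shiftRight n 16)) (rd n 9 1))
      (fun o _ => Nat.rec (motive := fun _ => α)
      -- 1: block
      (dBT q wc (Nat.shiftRight n 13) (fun bt n' => dLC q wc n' (fun c n'' =>
        k (T6.bk (rd n 3 5) (rd n 8 5) bt c) n'')))
      (fun o _ => Nat.rec (motive := fun _ => α)
      -- 2: side by side
      (dMl wc 64 (Nat.shiftRight n 5) (fun al n1 => dMl wc 64 n1 (fun be n2 =>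
        Nat.rec (motive := fun _ => α)
          (ih n2 (fun t n3 => ih n3 (fun t' n4 =>
            k (T6.hh 0 al be (BT.mk 0 BU.mm) (LCt.mk 1 List.nil) t t') n4)))
          (fun _ _ => dBT q wc n2 (fun bt n3 => dLC q wc n3 (fun c n4 =>
            ih n4 (fun t n5 => ih n5 (fun t' n6 => k (T6.hh (rd n 3 2) al be bt c t t') n6)))))
          (rd n 3 2))))
      (fun o _ => Nat.rec (motive := fun _ => α)
      -- 3: one above the other
      (dMl wc 64 (Nat.shiftRight n 5) (fun al n1 => dMl wc 64 n1 (fun be n2 =>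
        Nat.rec (motive := fun _ => α)
          (ih n2 (fun t n3 => ih n3 (fun t' n4 =>
            k (T6.vv 0 al be (BT.mk 0 BU.mm) (LCt.mk 1 List.nil) t t') n4)))
          (fun _ _ => dBT q wc n2 (fun bt n3 => dLC q wc n3 (fun c n4 =>
            ih n4 (fun t n5 => ih n5 (fun t' n6 => k (T6.vv (rd n 3 2) al be bt c t t') n6)))))
          (rd n 3 2))))
      (fun o _ => Nat.rec (motive := fun _ => α)
      -- 4: a block on the right
      (dBT q wc (Nat.shiftRight n 8) (fun bt n1 => dLC q wc n1 (fun c n2 =>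
        ih n2 (fun t n3 => k (T6.hs (rd n 3 5) bt c t) n3))))
      -- 5: a block above
      (fun _ _ => dBT q wc (Nat.shiftRight n 8) (fun bt n1 => dLC q wc n1 (fun c n2 =>
        ih n2 (fun t n3 => k (T6.vs (rd n 3 5) bt c t) n3)))) o) o) o) o) (Nat.land n 7)) fuel

/-- `m` pieces -/
noncomputable def dPs (q wc m : ℕ) : ℕ → (List P6 → ℕ → α) → α :=
  Nat.rec (motive := fun _ => ℕ → (List P6 → ℕ → α) → α) (fun n k => k List.nil n)
    (fun _ ih n k => dEd wc 64 n (fun px n1 => dEd wc 64 n1 (fun py n2 =>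
      Nat.rec (motive := fun _ => α)
        (dT q wc 64 n2 (fun t n3 => ih n3 (fun l n4 => k (List.cons (P6.mk px py t) l) n4)))
        (fun _ _ => dBT q wc (Nat.shiftRight n2 23) (fun bt n3 => dLC q wc n3 (fun c n4 =>
          dLC q wc n4 (fun c' n5 => ih n5 (fun l n6 => k (List.cons (P6.bd px py (rd n2 3 5)
            (rd n2 8 5) (rd n2 13 5) (rd n2 18 5) bt c c') l) n6)))))
        (Nat.sub (Nat.land n2 7) 5)))) m

/-- a column -/
noncomputable def dCo (q wc fuel : ℕ) : ℕ → (List Co → ℕ → α) → α :=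
  Nat.rec (motive := fun _ => ℕ → (List Co → ℕ → α) → α) (fun n k => k List.nil n)
    (fun _ ih n k => Nat.rec (motive := fun _ => α) (k List.nil (Nat.shiftRight n 1))
      (fun _ _ => dLC q wc (Nat.shiftRight n 1) (fun c n1 => Nat.rec (motive := fun _ => α)
        (dT q wc 64 (Nat.shiftRight n1 1) (fun t n2 =>
          ih n2 (fun l n3 => k (List.cons (Co.mk c t) l) n3)))
        (fun _ _ => dPs q wc (rd n1 1 6) (Nat.shiftRight n1 7) (fun ps n2 =>
          dEd wc 64 n2 (fun wx n3 => dEd wc 64 n3 (fun wy n4 =>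
            ih n4 (fun l n5 => k (List.cons (Co.mp c ps wx wy) l) n5)))))
        (Nat.land n1 1))) (Nat.land n 1)) fuel

/-- a template of a leaf -/
noncomputable def dTE (q n : ℕ) : TE6 :=
  dPs q (rd n 64 6) (rd n 70 6) (Nat.shiftRight n (Nat.add 76 (Nat.mul (rd n 48 5)
      (Nat.mul q (rd n 53 6))))) (fun ps n1 =>
    dEd (rd n 64 6) 64 n1 (fun wx n2 => dEd (rd n 64 6) 64 n2 (fun wy n3 =>
      TE6.mk (rd n 0 40) (rd n 42 6) (fun a => Nat.shiftLeft (dvq n q (rd n 53 6)
          (Nat.add 76 (Nat.mul a (Nat.mul q (rd n 53 6))))) (rd n 59 5)) ps wx wy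
        (Nat.rec (motive := fun _ => F6)
          (dQC q n3 (fun c _ => F6.none c))
          (fun o _ => Nat.rec (motive := fun _ => F6)
            (dLC q (rd n 64 6) (Nat.shiftRight n3 5) (fun lW n4 =>
              dLC q (rd n 64 6) n4 (fun lY n5 =>
              dLC q (rd n 64 6) n5 (fun lC n6 => dCo q (rd n 64 6) 64 n6 (fun Lc n7 =>
                dCo q (rd n 64 6) 64 n7 (fun Rc n8 => dMl (rd n 64 6) 64 n8 (fun al n9 =>
                  dMl (rd n 64 6) 64 n9 (fun be m1 =>
                    dQC q (Nat.shiftRight m1 (Nat.add 88 (Nat.mul q (rd m1 0 6))))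
                      (fun q1 m2 => dQC q m2 (fun q2 _ =>
                        F6.flow (rd n3 0 5) lW lY lC Lc Rc al be
                          (Nat.shiftLeft (dvq m1 q (rd m1 0 6) 88) (rd m1 6 5))
                          (Nat.shiftLeft (ofs q (rd m1 0 6)) (rd m1 6 5)) (rd m1 11 77)
                          q1 q2))))))))))
            (fun o _ => Nat.rec (motive := fun _ => F6)
              (dLC q (rd n 64 6) (Nat.shiftRight n3 14) (fun lW n4 =>
                dLC q (rd n 64 6) n4 (fun lk n5 => dLC q (rd n 64 6) n5 (fun lk2 n6 =>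
                  dQC q n6 (fun q2 _ =>
                    F6.row (rd n3 0 5) (rd n3 5 1) (rd n3 6 8) lW lk lk2 q2)))))
              (fun _ _ => dLC q (rd n 64 6) (Nat.shiftRight n3 22) (fun lW n4 =>
                dLC q (rd n 64 6) n4 (fun lk n5 => dLC q (rd n 64 6) n5 (fun lt n6 =>
                  dQC q n6 (fun q2 _ =>
                    F6.rowv (rd n3 0 5) (rd n3 5 5) (rd n3 10 4) (rd n3 14 8) lW lk lt q2)))))
              o) o) (rd n 40 2)))))

/-- the templates of a leaf -/
noncomputable def dTEs (q m : ℕ) : ℕ → List TE6 :=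
  Nat.rec (motive := fun _ => ℕ → List TE6) (fun _ => List.nil) (fun _ ih n =>
    List.cons (dTE q (rd n 24 (Nat.land n 16777215)))
      (ih (Nat.shiftRight n (Nat.add 24 (Nat.land n 16777215))))) m

/-- a leaf certificate -/
inductive LD where
  | mk (mu : ℕ) (l : List QE) (tes : List TE6) : LD

/-- the last part of a leaf certificate -/
noncomputable def dL2 (q mu n : ℕ) : LD :=
  dIt q (rd n 16 7) (rd n 23 6) (rd n 29 7) (rd n 8 8) (Nat.shiftRight n 36) (fun l n' =>
    LD.mk mu l (dTEs q (rd n 0 8) n'))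

/-- a leaf certificate -/
noncomputable def dLD (q n : ℕ) : LD :=
  dL2 q (rd n 7 (rd n 0 7)) (Nat.shiftRight n (Nat.add 7 (rd n 0 7)))

/-- a cut: the width, the order of the two vectors, the vector -/
noncomputable def dCu (q n : ℕ) : Cu :=
  Nat.rec (motive := fun _ => Cu) (Cu.mk (sn q (dvq n q (rd n 0 6) 7)) (sn q (ofs q (rd n 0 6))))
    (fun _ _ => Cu.mk (sn q (ofs q (rd n 0 6))) (sn q (dvq n q (rd n 0 6) 7))) (rd n 6 1)

/-- `m` cuts -/
noncomputable def dCus (q m : ℕ) : ℕ → List Cu :=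
  Nat.rec (motive := fun _ => ℕ → List Cu) (fun _ => List.nil) (fun _ ih n =>
    List.cons (dCu q n) (ih (Nat.shiftRight n (Nat.add 7 (Nat.mul q (rd n 0 6)))))) m

end Pool.Agent.MOS.V6
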