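import Pool.Agent.Lib.MP_b520b2_co.V6.Base

/-!
# Rows between columns

`prof cs t` is the width at height `t` of the column `cs`, a list of rectangles `(w, h)` one above
the other, and `integ cs t` is the area of the part of the column above the height `t`.
-/

namespace Pool.Agent.MOS.V6

/-- the rectangles are separated -/
def Sep2 (a b : Rect) : Prop := a.Sep b ∨ b.Sep a

theorem Sep2.symm {a b : Rect} (h : Sep2 a b) : Sep2 b a := h.elim Or.inr Or.inl

/-- packings of separated rectangles are put together -/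
theorem packs_rects2 {W H : ℝ} : ∀ (rs : List Rect) (cs : List (List ℝ)),
    List.Forall₂ (fun c (r : Rect) => PacksL c r.w r.h) cs rs → rs.Pairwise Sep2 →
    (∀ r ∈ rs, 0 ≤ r.x ∧ r.x + r.w ≤ W ∧ 0 ≤ r.y ∧ r.y + r.h ≤ H) →
    PacksL cs.flatten W H := by
  intro rs cs h1 h2 h3
  suffices key : ∃ q : List ((ℝ × ℝ) × ℝ), q.map Prod.snd = cs.flatten ∧
      (∀ z ∈ q, ∃ r ∈ rs, r.x ≤ z.1.1 ∧ z.1.1 + z.2 ≤ r.x + r.w ∧ r.y ≤ z.1.2 ∧
        z.1.2 + z.2 ≤ r.y + r.h) ∧ q.Pairwise fun x y => Apart x.1 x.2 y.1 y.2 by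
    obtain ⟨q, k1, k2, k3⟩ := key
    refine ⟨q, k1, fun z hz => ?_, k3⟩
    obtain ⟨r, hr, g1, g2, g3, g4⟩ := k2 z hz
    obtain ⟨g5, g6, g7, g8⟩ := h3 r hr
    exact ⟨by linarith, by linarith, by linarith, by linarith⟩
  clear h3
  induction h1 with
  | nil => exact ⟨[], rfl, by simp, List.Pairwise.nil⟩
  | @cons c r cs rs h1 _ ih =>
    obtain ⟨h2, h3⟩ := List.pairwise_cons.1 h2
    obtain ⟨q, k1, k2, k3⟩ := ih h3
    obtain ⟨q', g1, g2, g3⟩ := h1
    refine ⟨(q'.map fun x => (x.1 + (r.x, r.y), x.2)) ++ q, ?_, ?_, ?_⟩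
    · rw [List.map_append, k1, List.flatten_cons, ← g1, List.map_map]
      rfl
    · intro z hz
      rcases List.mem_append.1 hz with hz | hz
      · obtain ⟨x, hx, rfl⟩ := List.mem_map.1 hz
        obtain ⟨e1, e2, e3, e4⟩ := g2 x hx
        refine ⟨r, by simp, ?_⟩
        simp only [Prod.fst_add, Prod.snd_add]
        exact ⟨by linarith, by linarith, by linarith, by linarith⟩
      · obtain ⟨r', hr', e⟩ := k2 z hz
        exact ⟨r', List.mem_cons_of_mem _ hr', e⟩
    · rw [List.pairwise_append]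
      refine ⟨?_, k3, ?_⟩
      · rw [List.pairwise_map]
        exact g3.imp fun {x y} h => h.add (r.x, r.y)
      · intro z hz z' hz'
        obtain ⟨x, hx, rfl⟩ := List.mem_map.1 hz
        obtain ⟨e1, e2, e3, e4⟩ := g2 x hx
        obtain ⟨r', hr', f1, f2, f3, f4⟩ := k2 z' hz'
        rcases h2 r' hr' with (h | h) | (h | h)
        · refine Or.inr (Or.inl ?_)
          simp only [Prod.fst_add]
          linarith
        · refine Or.inr (Or.inr (Or.inr ?_))
          simp only [Prod.snd_add]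
          linarith
        · refine Or.inl ?_
          simp only [Prod.fst_add]
          linarith
        · refine Or.inr (Or.inr (Or.inl ?_))
          simp only [Prod.snd_add]
          linarith

/-- the width of the column at height `t` -/
noncomputable def prof : List (ℝ × ℝ) → ℝ → ℝ
  | [], _ => 0
  | c :: cs, t => if t < c.2 then c.1 else prof cs (t - c.2)

/-- the area of the column -/
noncomputable def colA (cs : List (ℝ × ℝ)) : ℝ := (cs.map fun c => c.1 * c.2).sum

/-- the height of the column -/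
noncomputable def colH (cs : List (ℝ × ℝ)) : ℝ := (cs.map fun c => c.2).sum

/-- the width of the lowest rectangle of the column -/
def colW (cs : List (ℝ × ℝ)) : ℝ := (cs.headD (0, 0)).1

/-- the area of the column above height `t` -/
noncomputable def integ : List (ℝ × ℝ) → ℝ → ℝ
  | [], _ => 0
  | c :: cs, t => if t < c.2 then c.1 * (c.2 - t) + colA cs else integ cs (t - c.2)

/-- the widths are decreasing -/
def ColOK (cs : List (ℝ × ℝ)) : Prop :=
  cs.Pairwise (fun a b => b.1 ≤ a.1) ∧ ∀ c ∈ cs, 0 ≤ c.1 ∧ 0 ≤ c.2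

theorem colA_cons (c : ℝ × ℝ) (cs : List (ℝ × ℝ)) : colA (c :: cs) = c.1 * c.2 + colA cs := by
  simp [colA]

theorem colH_cons (c : ℝ × ℝ) (cs : List (ℝ × ℝ)) : colH (c :: cs) = c.2 + colH cs := by
  simp [colH]

theorem ColOK.tail {c : ℝ × ℝ} {cs : List (ℝ × ℝ)} (h : ColOK (c :: cs)) : ColOK cs :=
  ⟨(List.pairwise_cons.1 h.1).2, fun d hd => h.2 d (List.mem_cons_of_mem _ hd)⟩

theorem ColOK.nil : ColOK [] := ⟨List.Pairwise.nil, by simp⟩

theorem prof_nonneg {cs : List (ℝ × ℝ)} (h : ColOK cs) : ∀ t, 0 ≤ prof cs t := by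
  induction cs with
  | nil => exact fun t => le_rfl
  | cons c cs ih =>
    intro t
    rw [prof]
    split_ifs
    · exact (h.2 c (by simp)).1
    · exact ih h.tail _

theorem prof_le {cs : List (ℝ × ℝ)} {W : ℝ} (hW : 0 ≤ W) (h : ∀ c ∈ cs, c.1 ≤ W) :
    ∀ t, prof cs t ≤ W := by
  induction cs with
  | nil => exact fun t => hW
  | cons c cs ih =>
    intro t
    rw [prof]
    split_ifs
    · exact h c (by simp)
    · exact ih (fun d hd => h d (List.mem_cons_of_mem _ hd)) _

theorem colW_nonneg {cs : List (ℝ × ℝ)} (h : ColOK cs) : 0 ≤ colW cs := by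
  cases cs with
  | nil => exact le_rfl
  | cons c cs => exact (h.2 c (by simp)).1

theorem le_colW {cs : List (ℝ × ℝ)} (h : ColOK cs) : ∀ c ∈ cs, c.1 ≤ colW cs := by
  intro c hc
  cases cs with
  | nil => simp at hc
  | cons d cs =>
    rcases List.mem_cons.1 hc with rfl | hc
    · exact le_rfl
    · exact (List.pairwise_cons.1 h.1).1 c hc

theorem colA_nonneg {cs : List (ℝ × ℝ)} (h : ColOK cs) : 0 ≤ colA cs :=
  List.sum_nonneg fun x hx => by
    obtain ⟨c, hc, rfl⟩ := List.mem_map.1 hx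
    exact mul_nonneg (h.2 c hc).1 (h.2 c hc).2

theorem integ_zero {cs : List (ℝ × ℝ)} (h : ColOK cs) : integ cs 0 = colA cs := by
  induction cs with
  | nil => simp [integ, colA]
  | cons c cs ih =>
    rw [integ, colA_cons]
    split_ifs with h1
    · rw [sub_zero]
    · have : c.2 = 0 := le_antisymm (not_lt.1 h1) (h.2 c (by simp)).2
      rw [this, sub_zero, ih h.tail, mul_zero, zero_add]

theorem integ_step {cs : List (ℝ × ℝ)} (h : ColOK cs) : ∀ {t a : ℝ}, 0 ≤ t → 0 ≤ a →
    integ cs (t + a) + a * prof cs (t + a) ≤ integ cs t := by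
  induction cs with
  | nil =>
    intro t a _ _
    simp [integ, prof]
  | cons c cs ih =>
    intro t a ht ha
    have hc := h.2 c (by simp)
    rw [integ, prof, integ]
    by_cases h1 : t + a < c.2
    · rw [if_pos h1, if_pos h1, if_pos (by linarith : t < c.2)]
      nlinarith
    · rw [if_neg h1, if_neg h1]
      rw [not_lt] at h1
      by_cases h2 : t < c.2
      · rw [if_pos h2]
        have h3 := ih h.tail (t := 0) (a := t + a - c.2) le_rfl (by linarith)
        rw [zero_add, integ_zero h.tail] at h3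
        have h4 : prof cs (t + a - c.2) ≤ c.1 :=
          prof_le hc.1 (fun d hd => (List.pairwise_cons.1 h.1).1 d hd) _
        nlinarith [mul_le_mul_of_nonneg_left h4 (sub_nonneg.2 h2.le)]
      · rw [if_neg h2]
        rw [not_lt] at h2
        have h3 := ih h.tail (t := t - c.2) (a := a) (by linarith) ha
        rw [show t - c.2 + a = t + a - c.2 by ring] at h3
        exact h3

theorem integ_nonneg {cs : List (ℝ × ℝ)} (h : ColOK cs) : ∀ t, 0 ≤ integ cs t := by
  induction cs with
  | nil => exact fun t => le_rfl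
  | cons c cs ih =>
    intro t
    have hc := h.2 c (by simp)
    rw [integ]
    split_ifs with h1
    · exact add_nonneg (mul_nonneg hc.1 (by linarith)) (colA_nonneg h.tail)
    · exact ih h.tail _

theorem prof_zero_le {cs : List (ℝ × ℝ)} (h : ColOK cs) : prof cs 0 ≤ colW cs :=
  prof_le (colW_nonneg h) (le_colW h) 0

theorem prof_anti {cs : List (ℝ × ℝ)} (h : ColOK cs) : ∀ {t : ℝ}, 0 ≤ t → prof cs t ≤ colW cs :=
  fun _ => prof_le (colW_nonneg h) (le_colW h) _

/-- the rectangles of the left column, standing on the height `t0` -/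
noncomputable def lrects : List (ℝ × ℝ) → ℝ → List Rect
  | [], _ => []
  | c :: cs, t0 => ⟨0, t0, c.1, c.2⟩ :: lrects cs (t0 + c.2)

/-- the rectangles of the right column -/
noncomputable def rrects (W : ℝ) : List (ℝ × ℝ) → ℝ → List Rect
  | [], _ => []
  | c :: cs, t0 => ⟨W - c.1, t0, c.1, c.2⟩ :: rrects W cs (t0 + c.2)

theorem lrects_mem {cs : List (ℝ × ℝ)} (h : ColOK cs) : ∀ {t0 : ℝ} {r : Rect}, 0 ≤ t0 →
    r ∈ lrects cs t0 → r.x = 0 ∧ t0 ≤ r.y ∧ r.y + r.h ≤ t0 + colH cs ∧ r.w ≤ colW cs ∧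
      0 ≤ r.w ∧ 0 ≤ r.h ∧ ∀ t, r.y + r.h ≤ t0 + t ∨ r.w ≤ prof cs t := by
  induction cs with
  | nil =>
    intro t0 r _ hr
    simp [lrects] at hr
  | cons c cs ih =>
    intro t0 r ht0 hr
    have hc := h.2 c (by simp)
    have hH : 0 ≤ colH cs := List.sum_nonneg fun x hx => by
      obtain ⟨d, hd, rfl⟩ := List.mem_map.1 hx
      exact (h.2 d (List.mem_cons_of_mem _ hd)).2
    rw [lrects] at hr
    rcases List.mem_cons.1 hr with rfl | hr
    · refine ⟨rfl, le_rfl, ?_, le_rfl, hc.1, hc.2, fun t => ?_⟩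
      · rw [colH_cons]
        dsimp only
        linarith
      · rw [prof]
        split_ifs with h1
        · exact Or.inr le_rfl
        · refine Or.inl ?_
          dsimp only
          linarith
    · obtain ⟨h1, h2, h3, h4, h5, h6, h7⟩ := ih h.tail (by linarith [hc.2]) hr
      have hw : r.w ≤ c.1 := by
        refine h4.trans ?_
        cases cs with
        | nil => exact hc.1
        | cons d cs => exact (List.pairwise_cons.1 h.1).1 d (by simp)
      refine ⟨h1, by linarith [hc.2], by rw [colH_cons]; linarith, hw, h5, h6, fun t => ?_⟩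
      rw [prof]
      split_ifs with h8
      · exact Or.inr hw
      · rcases h7 (t - c.2) with h9 | h9
        · exact Or.inl (by linarith)
        · exact Or.inr h9

theorem rrects_mem {W : ℝ} {cs : List (ℝ × ℝ)} (h : ColOK cs) : ∀ {t0 : ℝ} {r : Rect}, 0 ≤ t0 →
    r ∈ rrects W cs t0 → r.x + r.w = W ∧ t0 ≤ r.y ∧ r.y + r.h ≤ t0 + colH cs ∧ r.w ≤ colW cs ∧
      0 ≤ r.w ∧ 0 ≤ r.h ∧ ∀ t, r.y + r.h ≤ t0 + t ∨ r.w ≤ prof cs t := by
  induction cs with
  | nil =>
    intro t0 r _ hr
    simp [rrects] at hr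
  | cons c cs ih =>
    intro t0 r ht0 hr
    have hc := h.2 c (by simp)
    have hH : 0 ≤ colH cs := List.sum_nonneg fun x hx => by
      obtain ⟨d, hd, rfl⟩ := List.mem_map.1 hx
      exact (h.2 d (List.mem_cons_of_mem _ hd)).2
    rw [rrects] at hr
    rcases List.mem_cons.1 hr with rfl | hr
    · refine ⟨by dsimp only; ring, le_rfl, ?_, le_rfl, hc.1, hc.2, fun t => ?_⟩
      · rw [colH_cons]
        dsimp only
        linarith
      · rw [prof]
        split_ifs with h1
        · exact Or.inr le_rfl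
        · refine Or.inl ?_
          dsimp only
          linarith
    · obtain ⟨h1, h2, h3, h4, h5, h6, h7⟩ := ih h.tail (by linarith [hc.2]) hr
      have hw : r.w ≤ c.1 := by
        refine h4.trans ?_
        cases cs with
        | nil => exact hc.1
        | cons d cs => exact (List.pairwise_cons.1 h.1).1 d (by simp)
      refine ⟨h1, by linarith [hc.2], by rw [colH_cons]; linarith, hw, h5, h6, fun t => ?_⟩
      rw [prof]
      split_ifs with h8
      · exact Or.inr hw
      · rcases h7 (t - c.2) with h9 | h9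
        · exact Or.inl (by linarith)
        · exact Or.inr h9

theorem lrects_pw {cs : List (ℝ × ℝ)} (h : ColOK cs) : ∀ {t0 : ℝ}, 0 ≤ t0 →
    (lrects cs t0).Pairwise Sep2 := by
  induction cs with
  | nil => exact fun _ => List.Pairwise.nil
  | cons c cs ih =>
    intro t0 ht0
    have hc := h.2 c (by simp)
    rw [lrects, List.pairwise_cons]
    refine ⟨fun r hr => ?_, ih h.tail (by linarith [hc.2])⟩
    have := (lrects_mem h.tail (by linarith [hc.2]) hr).2.1
    exact Or.inr (Or.inr this)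

theorem rrects_pw {W : ℝ} {cs : List (ℝ × ℝ)} (h : ColOK cs) : ∀ {t0 : ℝ}, 0 ≤ t0 →
    (rrects W cs t0).Pairwise Sep2 := by
  induction cs with
  | nil => exact fun _ => List.Pairwise.nil
  | cons c cs ih =>
    intro t0 ht0
    have hc := h.2 c (by simp)
    rw [rrects, List.pairwise_cons]
    refine ⟨fun r hr => ?_, ih h.tail (by linarith [hc.2])⟩
    have := (rrects_mem h.tail (by linarith [hc.2]) hr).2.1
    exact Or.inr (Or.inr this)

theorem lrects_fa {cs : List (ℝ × ℝ)} {cc : List (List ℝ)}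
    (h : List.Forall₂ (fun c (d : ℝ × ℝ) => PacksL c d.1 d.2) cc cs) : ∀ t0,
    List.Forall₂ (fun c (r : Rect) => PacksL c r.w r.h) cc (lrects cs t0) := by
  induction h with
  | nil => exact fun _ => List.Forall₂.nil
  | cons h1 _ ih => exact fun t0 => List.Forall₂.cons h1 (ih _)

theorem rrects_fa {W : ℝ} {cs : List (ℝ × ℝ)} {cc : List (List ℝ)}
    (h : List.Forall₂ (fun c (d : ℝ × ℝ) => PacksL c d.1 d.2) cc cs) : ∀ t0,
    List.Forall₂ (fun c (r : Rect) => PacksL c r.w r.h) cc (rrects W cs t0) := by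
  induction h with
  | nil => exact fun _ => List.Forall₂.nil
  | cons h1 _ ih => exact fun t0 => List.Forall₂.cons h1 (ih _)

/-- a row between the columns at height `t` -/
noncomputable def rowR (W : ℝ) (L R : List (ℝ × ℝ)) (t a : ℝ) : Rect :=
  ⟨prof L t, t, W - prof L t - prof R t, a⟩

/-- **Rows between columns.** -/
theorem rows_exist {W H : ℝ} {L R : List (ℝ × ℝ)} (hL : ColOK L) (hR : ColOK R) {Y : ℝ}
    (hW : colW L + colW R + Y ≤ W) :
    ∀ (n : ℕ) (t a : ℝ) (l : List ℝ), l.length ≤ n → (a :: l).Pairwise (· ≥ ·) →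
      (∀ s ∈ a :: l, 0 < s) → a ≤ Y → 0 ≤ t → t + a ≤ H →
      sumsq l ≤ (W - a) * (H - t - a) - a * (prof L t + prof R t) - (integ L t + integ R t) →
      ∃ (rows : List (ℝ × ℝ)) (cc : List (List ℝ)), cc.flatten = a :: l ∧
        List.Forall₂ (fun c (p : ℝ × ℝ) => PacksL c (rowR W L R p.1 p.2).w (rowR W L R p.1 p.2).h)
          cc rows ∧ rows.Pairwise (fun p p' => p.1 + p.2 ≤ p'.1) ∧
        ∀ p ∈ rows, t ≤ p.1 ∧ 0 ≤ p.2 ∧ p.1 + p.2 ≤ H := by
  intro n
  induction n with
  | zero =>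
    intro t a l hn hl h0 ha ht hH _
    obtain rfl : l = [] := List.length_eq_zero_iff.1 (Nat.le_zero.1 hn)
    have ha0 : 0 < a := h0 a (by simp)
    have h1 := prof_anti hL ht
    have h2 := prof_anti hR ht
    refine ⟨[(t, a)], [[a]], by simp, List.Forall₂.cons ?_ List.Forall₂.nil,
      List.pairwise_singleton _ _, ?_⟩
    · refine PacksL.singleton ?_ le_rfl
      dsimp only [rowR]
      linarith
    · intro p hp
      rw [List.mem_singleton] at hp
      rw [hp]
      exact ⟨le_rfl, ha0.le, hH⟩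
  | succ n ih =>
    intro t a l hn hl h0 ha ht hH hs
    have ha0 : 0 < a := h0 a (by simp)
    have hp1 := prof_anti hL ht
    have hp2 := prof_anti hR ht
    have hp3 := prof_nonneg hL t
    have hp4 := prof_nonneg hR t
    obtain ⟨l₁, l₂, rfl, h1, h2⟩ := exists_first_shelf (a := W - prof L t - prof R t) hl h0
      (by linarith)
    rcases h2 with rfl | ⟨s, t', rfl, h2, _⟩
    · refine ⟨[(t, a)], [a :: l₁], by simp, List.Forall₂.cons h1 List.Forall₂.nil,
        List.pairwise_singleton _ _, ?_⟩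
      intro p hp
      rw [List.mem_singleton] at hp
      rw [hp]
      exact ⟨le_rfl, ha0.le, hH⟩
    have hs0 : 0 < s := h0 s (by simp)
    have hsa : s ≤ a := (List.pairwise_cons.1 hl).1 s (by simp)
    have i1 := integ_step hL ht ha0.le
    have i2 := integ_step hR ht ha0.le
    have q1 := prof_nonneg hL (t + a)
    have q2 := prof_nonneg hR (t + a)
    have j1 := integ_nonneg hL (t + a)
    have j2 := integ_nonneg hR (t + a)
    rw [sumsq_append, sumsq_cons] at hs
    rw [sumsq_cons] at h2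
    have hWa : 0 ≤ W - a := by
      have := colW_nonneg hL
      have := colW_nonneg hR
      linarith
    have hnn := sumsq_nonneg t'
    obtain ⟨w, hw⟩ : ∃ w, w = prof L t + prof R t := ⟨_, rfl⟩
    obtain ⟨w', hw'⟩ : ∃ w', w' = prof L (t + a) + prof R (t + a) := ⟨_, rfl⟩
    obtain ⟨I, hI⟩ : ∃ I, I = integ L t + integ R t := ⟨_, rfl⟩
    obtain ⟨I', hI'⟩ : ∃ I', I' = integ L (t + a) + integ R (t + a) := ⟨_, rfl⟩
    rw [← hw, ← hI] at hs
    have hII : I' + a * w' ≤ I := by
      rw [hI, hI', hw']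
      linarith
    have hw0 : 0 ≤ w := by rw [hw]; linarith
    have hw0' : 0 ≤ w' := by rw [hw']; linarith
    have hI0 : 0 ≤ I' := by rw [hI']; linarith
    have h3 : s * (W - w - a - s) < sumsq l₁ := by
      have e : (W - prof L t - prof R t - a - s) * s = s * (W - w - a - s) := by
        rw [hw]
        ring
      linarith
    have hsH : t + a + s ≤ H := by
      by_contra hcon
      rw [not_le] at hcon
      have k1 : (W - a) * (H - t - a) ≤ (W - a) * s :=
        mul_le_mul_of_nonneg_left (by linarith) hWa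
      have k2 : s * w ≤ a * w := mul_le_mul_of_nonneg_right hsa hw0
      have k3 : 0 ≤ a * w' := mul_nonneg ha0.le hw0'
      nlinarith
    have key : sumsq t' ≤ (W - s) * (H - (t + a) - s) -
        s * (prof L (t + a) + prof R (t + a)) - (integ L (t + a) + integ R (t + a)) := by
      rw [← hw', ← hI']
      have k1 : 0 ≤ (a - s) * (H - t - a - s) :=
        mul_nonneg (by linarith) (by linarith)
      have k2 : 0 ≤ (a - s) * w := mul_nonneg (by linarith) hw0
      have k3 : s * w' ≤ a * w' := mul_le_mul_of_nonneg_right hsa hw0'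
      nlinarith
    have hsub : (s :: t').Sublist (a :: (l₁ ++ s :: t')) :=
      (List.sublist_append_right l₁ (s :: t')).trans (List.sublist_cons_self a _)
    obtain ⟨rows, cc, c1, c2, c3, c4⟩ := ih (t + a) s t'
      (by simp only [List.length_append, List.length_cons] at hn; omega)
      (hl.sublist hsub) (fun r hr => h0 r (hsub.subset hr)) (hsa.trans ha) (by linarith) hsH key
    refine ⟨(t, a) :: rows, (a :: l₁) :: cc, by simp [c1], List.Forall₂.cons h1 c2,
      List.pairwise_cons.2 ⟨fun p hp => (c4 p hp).1, c3⟩, ?_⟩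
    intro p hp
    rcases List.mem_cons.1 hp with rfl | hp
    · exact ⟨le_rfl, ha0.le, hH⟩
    · obtain ⟨d1, d2, d3⟩ := c4 p hp
      exact ⟨by linarith, d2, d3⟩

/-- **The tail fits between the columns.** -/
theorem flow_packs {W H Y : ℝ} {L R : List (ℝ × ℝ)} (hL : ColOK L) (hR : ColOK R)
    (hW : colW L + colW R + Y ≤ W) (hLH : colH L ≤ H) (hRH : colH R ≤ H) (hYH : Y ≤ H)
    {cL cR : List (List ℝ)} (hcL : List.Forall₂ (fun c (d : ℝ × ℝ) => PacksL c d.1 d.2) cL L)
    (hcR : List.Forall₂ (fun c (d : ℝ × ℝ) => PacksL c d.1 d.2) cR R) {a : ℝ} {l : List ℝ}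
    (hl : (a :: l).Pairwise (· ≥ ·)) (h0 : ∀ s ∈ a :: l, 0 < s) (ha : a ≤ Y)
    (hs : sumsq l ≤ (W - Y) * (H - Y) - (colA L + colA R + (colW L + colW R) * Y)) :
    PacksL ((cL.flatten ++ cR.flatten) ++ (a :: l)) W H := by
  have hp1 := prof_zero_le hL
  have hp2 := prof_zero_le hR
  have hw1 := colW_nonneg hL
  have hw2 := colW_nonneg hR
  have ha0 : 0 < a := h0 a (by simp)
  obtain ⟨rows, cc, h1, h2, h3, h4⟩ := rows_exist (H := H) hL hR hW _ 0 a l le_rfl hl h0 ha le_rfl
    (by linarith) (by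
      rw [integ_zero hL, integ_zero hR]
      have k1 : (W - Y) * (H - Y) ≤ (W - a) * (H - a) :=
        mul_le_mul (by linarith) (by linarith) (by linarith) (by linarith)
      have k2 : a * (prof L 0 + prof R 0) ≤ Y * (colW L + colW R) :=
        mul_le_mul ha (by linarith) (add_nonneg (prof_nonneg hL 0) (prof_nonneg hR 0))
          (by linarith)
      have k3 : (W - a) * (H - 0 - a) = (W - a) * (H - a) := by ring
      rw [k3]
      linarith)
  obtain ⟨RR, hRR⟩ : ∃ RR, RR = rows.map fun p => rowR W L R p.1 p.2 := ⟨_, rfl⟩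
  have hrow : ∀ r ∈ RR, r.x = prof L r.y ∧ r.x + r.w = W - prof R r.y ∧ 0 ≤ r.y ∧ 0 ≤ r.h ∧
      r.y + r.h ≤ H := by
    intro r hr
    rw [hRR] at hr
    obtain ⟨p, hp, rfl⟩ := List.mem_map.1 hr
    obtain ⟨d1, d2, d3⟩ := h4 p hp
    refine ⟨rfl, ?_, d1, d2, d3⟩
    dsimp only [rowR]
    ring
  have hfa : List.Forall₂ (fun c (r : Rect) => PacksL c r.w r.h) ((cL ++ cR) ++ cc)
      ((lrects L 0 ++ rrects W R 0) ++ RR) := by
    refine List.rel_append (List.rel_append (lrects_fa hcL 0) (rrects_fa hcR 0)) ?_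
    rw [hRR, List.forall₂_map_right_iff]
    exact h2
  have := packs_rects2 (W := W) (H := H) _ _ hfa ?_ ?_
  · rw [List.flatten_append, List.flatten_append, h1] at this
    exact this
  · rw [List.pairwise_append, List.pairwise_append]
    refine ⟨⟨lrects_pw hL le_rfl, rrects_pw hR le_rfl, ?_⟩, ?_, ?_⟩
    · intro x hx z hz
      obtain ⟨x1, _, _, x4, _⟩ := lrects_mem hL le_rfl hx
      obtain ⟨z1, _, _, z4, _⟩ := rrects_mem hR le_rfl hz
      refine Or.inr (Or.inl ?_)
      rw [x1]
      linarith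
    · rw [hRR, List.pairwise_map]
      exact h3.imp fun {p p'} h => Or.inr (Or.inr h)
    · intro x hx z hz
      obtain ⟨z1, z2, z3, z4, z5⟩ := hrow z hz
      rcases List.mem_append.1 hx with hx | hx
      · obtain ⟨x1, _, _, _, _, _, x7⟩ := lrects_mem hL le_rfl hx
        rcases x7 z.y with h | h
        · refine Or.inr (Or.inr ?_)
          linarith
        · refine Or.inr (Or.inl ?_)
          rw [x1, z1]
          linarith
      · obtain ⟨x1, _, _, _, _, _, x7⟩ := rrects_mem hR le_rfl hx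
        rcases x7 z.y with h | h
        · refine Or.inr (Or.inr ?_)
          linarith
        · refine Or.inl (Or.inl ?_)
          linarith
  · intro r hr
    rcases List.mem_append.1 hr with hr | hr
    · rcases List.mem_append.1 hr with hr | hr
      · obtain ⟨x1, x2, x3, x4, x5, x6, _⟩ := lrects_mem hL le_rfl hr
        rw [x1]
        exact ⟨le_rfl, by linarith, x2, by linarith⟩
      · obtain ⟨x1, x2, x3, x4, x5, x6, _⟩ := rrects_mem hR le_rfl hr
        exact ⟨by linarith, by linarith, x2, by linarith⟩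
    · obtain ⟨z1, z2, z3, z4, z5⟩ := hrow r hr
      have k1 := prof_nonneg hL r.y
      have k2 := prof_nonneg hR r.y
      exact ⟨by linarith, by linarith, z3, z5⟩

/-- the columns alone -/
theorem cols_packs {W H : ℝ} {L R : List (ℝ × ℝ)} (hL : ColOK L) (hR : ColOK R)
    (hW : colW L + colW R ≤ W) (hLH : colH L ≤ H) (hRH : colH R ≤ H)
    {cL cR : List (List ℝ)} (hcL : List.Forall₂ (fun c (d : ℝ × ℝ) => PacksL c d.1 d.2) cL L)
    (hcR : List.Forall₂ (fun c (d : ℝ × ℝ) => PacksL c d.1 d.2) cR R) :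
    PacksL (cL.flatten ++ cR.flatten) W H := by
  have hw1 := colW_nonneg hL
  have hw2 := colW_nonneg hR
  have hfa : List.Forall₂ (fun c (r : Rect) => PacksL c r.w r.h) (cL ++ cR)
      (lrects L 0 ++ rrects W R 0) := List.rel_append (lrects_fa hcL 0) (rrects_fa hcR 0)
  have := packs_rects2 (W := W) (H := H) _ _ hfa ?_ ?_
  · rw [List.flatten_append] at this
    exact this
  · rw [List.pairwise_append]
    refine ⟨lrects_pw hL le_rfl, rrects_pw hR le_rfl, ?_⟩
    intro x hx z hz
    obtain ⟨x1, _, _, x4, _⟩ := lrects_mem hL le_rfl hx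
    obtain ⟨z1, _, _, z4, _⟩ := rrects_mem hR le_rfl hz
    refine Or.inr (Or.inl ?_)
    rw [x1]
    linarith
  · intro r hr
    rcases List.mem_append.1 hr with hr | hr
    · obtain ⟨x1, x2, x3, x4, x5, x6, _⟩ := lrects_mem hL le_rfl hr
      rw [x1]
      exact ⟨le_rfl, by linarith, x2, by linarith⟩
    · obtain ⟨x1, x2, x3, x4, x5, x6, _⟩ := rrects_mem hR le_rfl hr
      exact ⟨by linarith, by linarith, x2, by linarith⟩

/-! ### blocks which may be too small -/

/-- a block `(a, b, f)`: its capacity is at least `f`, or `f ≤ 0` -/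
def BOK (Y : ℝ) (B : ℝ × ℝ × ℝ) : Prop := Cap B.1 B.2.1 Y B.2.2 ∨ B.2.2 ≤ 0

theorem BOK.anti {Y Z : ℝ} {B : ℝ × ℝ × ℝ} (h : BOK Y B) (hZ : Z ≤ Y) : BOK Z B := by
  rcases h with h | h
  · exact Or.inl fun y l hl h0 hy => h y l hl h0 (hy.trans hZ)
  · exact Or.inr h

theorem bok_mm {a b Y : ℝ} (ha : Y ≤ a) : BOK Y (a, b, (a - Y) * (b - Y)) := by
  by_cases hb : Y ≤ b
  · exact Or.inl (cap_mm ha hb)
  · exact Or.inr (mul_nonpos_of_nonneg_of_nonpos (by linarith) (by linarith))

/-- the blocks take a part of the tail, the rest is small -/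
theorem packs_last (Y F : ℝ) : ∀ (Bs : List (ℝ × ℝ × ℝ)) (y : ℝ) (l : List ℝ),
    (y :: l).Pairwise (· ≥ ·) → (∀ s ∈ y :: l, 0 < s) → y ≤ Y → (∀ B ∈ Bs, BOK Y B) →
    sumsq l ≤ (Bs.map fun B => B.2.2).sum + F →
    ∃ (parts : List (List ℝ)) (rest : List ℝ), parts.flatten ++ rest = y :: l ∧
      List.Forall₂ (fun p (B : ℝ × ℝ × ℝ) => PacksL p B.1 B.2.1) parts Bs ∧
      (rest = [] ∨ ∃ s t, rest = s :: t ∧ s ≤ Y ∧ sumsq t ≤ F) := by
  intro Bs
  induction Bs with
  | nil =>
    intro y l hl h0 hy _ hs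
    refine ⟨[], y :: l, by simp, List.Forall₂.nil, Or.inr ⟨y, l, rfl, hy, ?_⟩⟩
    simpa using hs
  | cons B Bs ih =>
    intro y l hl h0 hy hB hs
    rw [List.map_cons, List.sum_cons] at hs
    have hB' : ∀ C ∈ Bs, BOK Y C := fun C hC => hB C (by simp [hC])
    rcases hB B (by simp) with hc | hc
    · obtain ⟨l₁, l₂, rfl, h1, h2⟩ := hc y l hl h0 hy
      rcases h2 with rfl | ⟨s, t, rfl, h2⟩
      · refine ⟨(y :: l₁) :: List.replicate Bs.length [], [], by simp, List.Forall₂.cons h1 ?_,
          Or.inl rfl⟩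
        clear ih hB hs hB'
        induction Bs with
        | nil => exact List.Forall₂.nil
        | cons C Bs ih => exact List.Forall₂.cons (PacksL.nil _ _) ih
      have hsub : (s :: t).Sublist (y :: (l₁ ++ s :: t)) :=
        (List.sublist_append_right l₁ (s :: t)).trans (List.sublist_cons_self y _)
      have hsy : s ≤ y := (List.pairwise_cons.1 hl).1 s (by simp)
      rw [sumsq_append, sumsq_cons] at hs
      rw [sumsq_cons] at h2
      obtain ⟨parts, rest, h5, h6, h7⟩ := ih s t (hl.sublist hsub)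
        (fun r hr => h0 r (hsub.subset hr)) (hsy.trans hy) hB' (by linarith)
      refine ⟨(y :: l₁) :: parts, rest, ?_, List.Forall₂.cons h1 h6, h7⟩
      rw [List.flatten_cons, List.append_assoc, h5]
      simp
    · obtain ⟨parts, rest, h5, h6, h7⟩ := ih y l hl h0 hy hB' (by linarith)
      exact ⟨[] :: parts, rest, by simpa using h5, List.Forall₂.cons (PacksL.nil _ _) h6, h7⟩

/-- the distribution of the tail to the blocks and a last region -/
theorem tail_last {Y F : ℝ} {Bs : List (ℝ × ℝ × ℝ)} {tl : List ℝ} (h1 : SP tl) (h2 : hd tl = Y)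
    (h3 : ∀ B ∈ Bs, BOK Y B)
    (h4 : sumsq tl - Y ^ 2 ≤ (Bs.map fun B => B.2.2).sum + F) :
    ∃ (parts : List (List ℝ)) (rest : List ℝ), parts.flatten ++ rest = tl ∧
      List.Forall₂ (fun p (B : ℝ × ℝ × ℝ) => PacksL p B.1 B.2.1) parts Bs ∧
      (rest = [] ∨ ∃ s t, rest = s :: t ∧ s ≤ Y ∧ sumsq t ≤ F ∧ (s :: t).Pairwise (· ≥ ·) ∧
        ∀ r ∈ s :: t, 0 < r) := by
  cases tl with
  | nil =>
    refine ⟨List.replicate Bs.length [], [], by simp, ?_, Or.inl rfl⟩
    clear h3 h4
    induction Bs with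
    | nil => exact List.Forall₂.nil
    | cons C Bs ih => exact List.Forall₂.cons (PacksL.nil _ _) ih
  | cons a tl =>
    have h2 : a = Y := h2
    subst h2
    rw [sumsq_cons] at h4
    obtain ⟨parts, rest, h5, h6, h7⟩ := packs_last a F Bs a tl h1.1 h1.2 le_rfl h3 (by linarith)
    refine ⟨parts, rest, h5, h6, ?_⟩
    rcases h7 with h7 | ⟨s, t, h7, h8, h9⟩
    · exact Or.inl h7
    · have hsub : (s :: t).Sublist (a :: tl) := by
        rw [← h5, h7]
        exact List.sublist_append_right _ _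
      exact Or.inr ⟨s, t, h7, h8, h9, h1.1.sublist hsub, fun r hr => h1.2 r (hsub.subset hr)⟩

/-- **The area of a packing with columns and rows.**  `hP` says that, whenever the parts of the tail
are packed into the blocks, there is a packing of the base and of the rectangles of the columns. -/
theorem final_area {l tl : List ℝ} {W w0 h0 H1 Y D β cap A : ℝ} {L R : List (ℝ × ℝ)}
    {Bs : List (ℝ × ℝ × ℝ)} (hL : ColOK L) (hR : ColOK R)
    (h1 : SP tl) (h2 : hd tl = Y) (h3 : ∀ B ∈ Bs, BOK Y B)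
    (hcap : cap = (Bs.map fun B => B.2.2).sum) (hh0 : 0 ≤ h0) (hw0 : w0 ≤ W)
    (hYW : Y < W) (hW : colW L + colW R + Y ≤ W) (hLH : h0 + colH L ≤ H1) (hRH : h0 + colH R ≤ H1)
    (hD : D = sumsq tl - Y ^ 2 - cap + (W - Y) * h0 + (colA L + colA R + (colW L + colW R) * Y))
    (hβ : D ≤ (W - Y) * β) (hA : W * Y + D + Y * β ≤ A) (hA' : W * H1 ≤ A)
    (hP : ∀ parts : List (List ℝ),
      List.Forall₂ (fun p (B : ℝ × ℝ × ℝ) => PacksL p B.1 B.2.1) parts Bs →
      ∃ (G0 : List ℝ) (cL cR : List (List ℝ)), PacksL G0 w0 h0 ∧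
        List.Forall₂ (fun c (d : ℝ × ℝ) => PacksL c d.1 d.2) cL L ∧
        List.Forall₂ (fun c (d : ℝ × ℝ) => PacksL c d.1 d.2) cR R ∧
        ∀ T, (parts.flatten ++ T).Perm tl → ((G0 ++ (cL.flatten ++ cR.flatten)) ++ T).Perm l) :
    ∃ a b, PacksL l a b ∧ a * b ≤ A := by
  have hY : 0 ≤ Y := by
    rw [← h2]
    exact hd_nonneg h1
  have hWY : 0 < W - Y := by linarith
  have hW0 : 0 < W := by linarith
  obtain ⟨H, hH⟩ : ∃ H, H = max H1 (Y + D / (W - Y)) := ⟨_, rfl⟩
  have hH1 : H1 ≤ H := by rw [hH]; exact le_max_left _ _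
  have hH2 : Y + D / (W - Y) ≤ H := by rw [hH]; exact le_max_right _ _
  have hDH : D ≤ (W - Y) * (H - Y) := by
    have : D / (W - Y) ≤ H - Y := by linarith
    rw [div_le_iff₀ hWY] at this
    linarith
  obtain ⟨F, hF⟩ : ∃ F, F = (W - Y) * (H - h0 - Y) -
      (colA L + colA R + (colW L + colW R) * Y) := ⟨_, rfl⟩
  obtain ⟨parts, rest, p1, p2, p3⟩ := tail_last (F := F) h1 h2 h3 (by
    rw [← hcap, hF]
    have e : (W - Y) * (H - h0 - Y) = (W - Y) * (H - Y) - (W - Y) * h0 := by ring
    rw [e]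
    linarith)
  obtain ⟨G0, cL, cR, q1, q2, q3, q4⟩ := hP parts p2
  have hq : 0 ≤ colA L + colA R + (colW L + colW R) * Y := by
    have := colA_nonneg hL
    have := colA_nonneg hR
    have := mul_nonneg (add_nonneg (colW_nonneg hL) (colW_nonneg hR)) hY
    linarith
  refine ⟨W, H, ?_, ?_⟩
  · have hreg : PacksL ((cL.flatten ++ cR.flatten) ++ rest) W (H - h0) := by
      rcases p3 with p3 | ⟨s, t, p3, p4, p5, p6, p7⟩
      · rw [p3, List.append_nil]
        exact cols_packs hL hR (by linarith) (by linarith) (by linarith) q2 q3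
      · rw [p3]
        have hF0 : 0 ≤ F := (sumsq_nonneg t).trans p5
        have hYH : Y ≤ H - h0 := by
          have h4 : 0 ≤ (W - Y) * (H - h0 - Y) := by
            rw [hF] at hF0
            linarith
          have := nonneg_of_mul_nonneg_right h4 hWY
          linarith
        exact flow_packs hL hR hW (by linarith) (by linarith) hYH q2 q3 p6 p7 p4
          (by rw [hF] at p5; exact p5)
    have hHh : 0 ≤ H - h0 := by
      have : 0 ≤ colH L := List.sum_nonneg fun x hx => by
        obtain ⟨d, hd, rfl⟩ := List.mem_map.1 hx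
        exact (hL.2 d hd).2
      linarith
    have := PacksL.ver hh0 hHh (q1.mono hw0 le_rfl) hreg
    rw [show h0 + (H - h0) = H by ring, ← List.append_assoc] at this
    exact this.perm (q4 rest (by rw [p1]))
  · rcases le_total H1 (Y + D / (W - Y)) with h4 | h4
    · rw [hH, max_eq_right h4]
      have e : W * (Y + D / (W - Y)) = W * Y + D + Y * (D / (W - Y)) := by
        field_simp
        ring
      have h5 : D / (W - Y) ≤ β := by
        rw [div_le_iff₀ hWY]
        linarith
      rw [e]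
      have := mul_le_mul_of_nonneg_left h5 hY
      linarith
    · rw [hH, max_eq_left h4]
      exact hA'

/-- the area of a packing without a last region -/
theorem none_area {l tl : List ℝ} {w0 h0 Y cap : ℝ} {Bs : List (ℝ × ℝ × ℝ)}
    (h1 : SP tl) (h2 : hd tl = Y) (h3 : ∀ B ∈ Bs, BOK Y B)
    (hcap : cap = (Bs.map fun B => B.2.2).sum) (hT : sumsq tl - Y ^ 2 < cap)
    (hP : ∀ parts : List (List ℝ),
      List.Forall₂ (fun p (B : ℝ × ℝ × ℝ) => PacksL p B.1 B.2.1) parts Bs →
      ∃ G0 : List ℝ, PacksL G0 w0 h0 ∧ ∀ T, (parts.flatten ++ T).Perm tl → (G0 ++ T).Perm l) :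
    PacksL l w0 h0 := by
  obtain ⟨parts, rest, p1, p2, p3⟩ := tail_last (F := sumsq tl - Y ^ 2 - cap) h1 h2 h3 (by
    rw [← hcap]
    linarith)
  obtain ⟨G0, q1, q2⟩ := hP parts p2
  rcases p3 with p3 | ⟨s, t, _, _, p5, _⟩
  · have := q2 rest (by rw [p1])
    rw [p3, List.append_nil] at this
    exact q1.perm this
  · exfalso
    have := sumsq_nonneg t
    linarith

end Pool.Agent.MOS.V6
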