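import Pool.Agent.Lib.MP_b520b2_co.V6.Pieces

/-!
# Certificates of leaves
-/

namespace Pool.Agent.MOS.V6

open Finset

/-- the sides: `0` is the square root of the area, `i + 1` the side number `i` of the list -/
noncomputable def sideX (l : List ℝ) : ℕ → ℝ
  | 0 => Real.sqrt (sumsq l)
  | i + 1 => l.getD i 0

/-- the index of the `i`-th coordinate; `ns` are the numbers of the explicit sides -/
def Ix (ns : List ℕ) : ℕ → ℕ
  | 0 => 0
  | i + 1 => nthR 0 ns i + 1

/-- the coordinates -/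
noncomputable def sX (ns : List ℕ) (l : List ℝ) (i : ℕ) : ℝ := sideX l (Ix ns i)

/-- the numbers of the explicit sides are increasing and small -/
structure NsOK (q : ℕ) (ns : List ℕ) : Prop where
  mono : ∀ i, i + 1 < q → Ix ns i ≤ Ix ns (i + 1)
  bd : ∀ i < q, Ix ns i ≤ 4096

/-- the coefficients of the rays -/
noncomputable def dlt (q : ℕ) (ns : List ℕ) (l : List ℝ) (j : ℕ) : ℝ :=
  if j + 1 < q then (sX ns l j - sX ns l (j + 1)) / SG else sX ns l j / SG

/-- a square as a list -/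
def cont (l : List ℝ) (j : ℕ) : List ℝ := (l.drop j).take 1

theorem sideX_nonneg {l : List ℝ} (h : SP l) (i : ℕ) : 0 ≤ sideX l i := by
  cases i with
  | zero => exact Real.sqrt_nonneg _
  | succ i =>
    rw [sideX, List.getD_eq_getElem?_getD]
    cases hg : l[i]? with
    | none => simp
    | some a =>
      obtain ⟨hi, rfl⟩ := List.getElem?_eq_some_iff.1 hg
      exact (h.2 _ (List.getElem_mem hi)).le

theorem hd_drop (l : List ℝ) (i : ℕ) : hd (l.drop i) = sideX l (i + 1) := by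
  rw [sideX, hd, List.headD_eq_head?_getD, List.head?_drop, List.getD_eq_getElem?_getD]

theorem sideX_anti {l : List ℝ} (h : SP l) (i : ℕ) : sideX l (i + 1) ≤ sideX l i := by
  cases i with
  | zero =>
    apply Real.le_sqrt_of_sq_le
    cases l with
    | nil => simp [sideX]
    | cons a l =>
      rw [sumsq_cons]
      have := sumsq_nonneg l
      show a ^ 2 ≤ _
      linarith
  | succ i =>
    rw [← hd_drop, ← hd_drop]
    cases h1 : l.drop (i + 1) with
    | nil =>
      rw [hd, List.headD_nil, hd_drop]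
      exact sideX_nonneg h _
    | cons b U =>
      apply (h.drop i).le_hd
      have : l.drop (i + 1) = (l.drop i).drop 1 := by rw [List.drop_drop]
      rw [this] at h1
      exact List.mem_of_mem_drop (i := 1) (by rw [h1]; exact List.mem_cons_self)

theorem sideX_anti' {l : List ℝ} (h : SP l) {i j : ℕ} (hij : i ≤ j) : sideX l j ≤ sideX l i := by
  induction hij with
  | refl => exact le_rfl
  | step _ ih => exact (sideX_anti h _).trans ih

theorem SG_pos : (0 : ℝ) < SG := by norm_num [SG]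

theorem sX_nonneg {ns : List ℕ} {l : List ℝ} (h : SP l) (i : ℕ) : 0 ≤ sX ns l i :=
  sideX_nonneg h _

theorem dlt_nonneg {q : ℕ} {ns : List ℕ} {l : List ℝ} (hn : NsOK q ns) (h : SP l) (j : ℕ) :
    0 ≤ dlt q ns l j := by
  rw [dlt]
  split_ifs with h1
  · exact div_nonneg (by
      have := sideX_anti' h (hn.mono j h1)
      have h2 : sX ns l (j + 1) ≤ sX ns l j := this
      linarith) SG_pos.le
  · exact div_nonneg (sX_nonneg h j) SG_pos.le

theorem tel_sum (Z : ℕ → ℝ) (i n : ℕ) (hi : i ≤ n) :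
    ∑ j ∈ range n, (Z j - Z (j + 1)) * (if i ≤ j then 1 else 0) = Z i - Z n := by
  induction n with
  | zero =>
    obtain rfl : i = 0 := Nat.le_zero.1 hi
    simp
  | succ n ih =>
    rw [sum_range_succ]
    rcases hi.lt_or_eq with h | h
    · rw [ih (by omega), if_pos (by omega)]
      ring
    · rw [h]
      have : ∑ j ∈ range n, (Z j - Z (j + 1)) * (if n + 1 ≤ j then 1 else 0) = 0 := by
        apply sum_eq_zero
        intro j hj
        rw [mem_range] at hj
        rw [if_neg (by omega), mul_zero]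
      rw [this, if_neg (by omega)]
      ring

theorem lin_dlt {ns : List ℕ} {l : List ℝ} {q i : ℕ} (hi : i < q) :
    lin q (dlt q ns l) (fun p => if i ≤ p then SG else 0) = sX ns l i := by
  obtain ⟨n, rfl⟩ : ∃ n, q = n + 1 := ⟨q - 1, by omega⟩
  rw [lin, sum_range_succ]
  have h1 : ∑ j ∈ range n, dlt (n + 1) ns l j * ((if i ≤ j then SG else 0 : ℕ) : ℝ) =
      ∑ j ∈ range n, (sX ns l j - sX ns l (j + 1)) * (if i ≤ j then 1 else 0) := by
    apply sum_congr rfl
    intro j hj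
    rw [mem_range] at hj
    rw [dlt, if_pos (by omega)]
    have := SG_pos.ne'
    split_ifs
    · field_simp
    · simp
  rw [h1, tel_sum _ _ _ (by omega), dlt, if_neg (by omega), if_pos (by omega)]
  have := SG_pos.ne'
  field_simp
  ring

theorem xr_val {ns : List ℕ} {l : List ℝ} {q i : ℕ} (hi : i < q) :
    VR q (dlt q ns l) SG (xr q i) (sX ns l i) := by
  refine ⟨_, xr_eq hi.le, fun p _ => ?_, lin_dlt hi⟩
  split_ifs
  · exact le_rfl
  · exact Nat.zero_le _

theorem cont_packs {l : List ℝ} (j : ℕ) :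
    PacksL (cont l j) (sideX l (j + 1)) (sideX l (j + 1)) := by
  rw [cont, ← hd_drop]
  cases l.drop j with
  | nil => exact PacksL.nil _ _
  | cons a U =>
    rw [List.take_succ_cons, List.take_zero]
    exact PacksL.singleton le_rfl le_rfl

theorem cont_packs' {ns : List ℕ} {l : List ℝ} (h : SP l) (i c : ℕ) :
    PacksL (cont l (nthR 0 ns i + c)) (sX ns l (i + 1)) (sX ns l (i + 1)) := by
  have h1 : sideX l (nthR 0 ns i + c + 1) ≤ sX ns l (i + 1) :=
    sideX_anti' h (by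
      show nthR 0 ns i + 1 ≤ nthR 0 ns i + c + 1
      omega)
  exact (cont_packs _).mono h1 h1

theorem cont_range (l : List ℝ) (n : ℕ) : ((List.range n).map (cont l)).flatten = l.take n := by
  induction n with
  | zero => simp
  | succ n ih =>
    rw [List.range_succ, map_flatten_append, ih, List.take_add]
    simp [cont]

theorem sl_perm {acc tm : ℕ} {S : List ℕ} (h : AccOK acc S)
    (h1 : Nat.beq (Nat.succ acc) (Nat.pow 2 tm) = true) : S.Perm (List.range tm) := by
  have h1 : acc + 1 = 2 ^ tm := Nat.eq_of_beq_eq_true h1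
  rw [List.perm_ext_iff_of_nodup h.1 List.nodup_range]
  intro j
  rw [← h.2 j, List.mem_range]
  have : acc = 2 ^ tm - 1 := by omega
  rw [this, Nat.testBit_two_pow_sub_one, decide_eq_true_iff]

theorem cont_perm {acc tm : ℕ} {S : List ℕ} {l : List ℝ} (h : AccOK acc S)
    (h1 : Nat.beq (Nat.succ acc) (Nat.pow 2 tm) = true) {U : List ℝ} (hU : U.Perm (l.drop tm)) :
    (((S.map (cont l)).flatten) ++ U).Perm l := by
  have h2 : ((S.map (cont l)).flatten).Perm (l.take tm) := by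
    rw [← cont_range]
    exact ((sl_perm h h1).map _).flatten
  exact (h2.append hU).trans (by rw [List.take_append_drop])

/-- the number of squares of a group -/
def wt (ns : List ℕ) (j : ℕ) : ℕ :=
  Nat.sub (Nat.succ (nthR 0 ns j))
    (Nat.rec (motive := fun _ => ℕ) 0 (fun i _ => Nat.succ (nthR 0 ns i)) j)

theorem wt_eq (ns : List ℕ) (j : ℕ) : wt ns j = Ix ns (j + 1) - Ix ns j := by
  cases j <;> rfl

/-- the packed list -/
noncomputable def pkN (ns : List ℕ) : ℕ :=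
  List.rec (motive := fun _ => ℕ) 0 (fun a _ ih => cp 16 a ih) ns

/-- an entry of the packed list -/
noncomputable def nf6 (ns : List ℕ) (i : ℕ) : ℕ :=
  Nat.land (Nat.shiftRight (pkN ns) (Nat.mul 16 i)) 65535

theorem nf6_gp (ns : List ℕ) (i : ℕ) : nf6 ns i = gp 16 (pkN ns) i := rfl

theorem nf6_of_lt (ns : List ℕ) : ∀ {i : ℕ}, (∀ j ≤ i, nthR 0 ns j < 2 ^ 16) →
    nf6 ns i = nthR 0 ns i := by
  induction ns with
  | nil =>
    intro i _
    have e : pkN [] = 0 := rfl
    rw [nf6_gp, e, gp_zero_left]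
    rfl
  | cons a ns ih =>
    intro i h
    have e : pkN (a :: ns) = cp 16 a (pkN ns) := rfl
    have ha : a < 2 ^ 16 := h 0 (Nat.zero_le _)
    rw [nf6_gp, e]
    cases i with
    | zero =>
      rw [gp_cp_zero ha]
      rfl
    | succ i =>
      rw [gp_cp_succ ha, ← nf6_gp, ih fun j hj => h (j + 1) (by omega)]
      rfl

theorem nf6_eq {q : ℕ} {ns : List ℕ} (hn : NsOK q ns) {i : ℕ} (hi : i + 1 < q) :
    nf6 ns i = nthR 0 ns i := by
  refine nf6_of_lt ns fun j hj => ?_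
  have h : nthR 0 ns j + 1 ≤ 4096 := hn.bd (j + 1) (by omega)
  omega

/-- the number of squares of a group -/
noncomputable def wt6 (ns : List ℕ) (j : ℕ) : ℕ :=
  Nat.sub (Nat.succ (nf6 ns j))
    (Nat.rec (motive := fun _ => ℕ) 0 (fun i _ => Nat.succ (nf6 ns i)) j)

theorem wt6_eq {q : ℕ} {ns : List ℕ} (hn : NsOK q ns) {j : ℕ} (hj : j + 1 < q) :
    wt6 ns j = wt ns j := by
  cases j with
  | zero =>
    show Nat.sub (Nat.succ (nf6 ns 0)) 0 = Nat.sub (Nat.succ (nthR 0 ns 0)) 0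
    rw [nf6_eq hn hj]
  | succ j =>
    show Nat.sub (Nat.succ (nf6 ns (j + 1))) (Nat.succ (nf6 ns j)) =
      Nat.sub (Nat.succ (nthR 0 ns (j + 1))) (Nat.succ (nthR 0 ns j))
    rw [nf6_eq hn hj, nf6_eq hn (by omega)]

/-- the matrix of the first `n` groups -/
noncomputable def ngS (q : ℕ) (ns : List ℕ) (n : ℕ) : ℕ :=
  Nat.rec (motive := fun _ => ℕ) 0 (fun j ih =>
    Nat.add ih (Nat.mul (wt6 ns j) (sqQ q (xr q (Nat.succ j))))) n

/-- the area of the first `n` groups -/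
noncomputable def gS (ns : List ℕ) (l : List ℝ) (n : ℕ) : ℝ :=
  ∑ j ∈ range n, (wt ns j : ℝ) * sX ns l (j + 1) ^ 2

theorem sumsq_split (l : List ℝ) (n : ℕ) :
    sumsq l = ∑ j ∈ range n, sideX l (j + 1) ^ 2 + sumsq (l.drop n) := by
  induction n with
  | zero => simp
  | succ n ih =>
    rw [ih, sum_range_succ, add_assoc]
    congr 1
    rw [← hd_drop]
    have : l.drop (n + 1) = (l.drop n).drop 1 := by rw [List.drop_drop]
    rw [this]
    cases l.drop n with
    | nil => simp [hd]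
    | cons a U => simp [hd]

theorem gS_le {q : ℕ} {ns : List ℕ} {l : List ℝ} (hn : NsOK q ns) (h : SP l) : ∀ {n : ℕ}, n < q →
    gS ns l n ≤ ∑ j ∈ range (Ix ns n), sideX l (j + 1) ^ 2 := by
  intro n
  induction n with
  | zero =>
    intro _
    simp [gS, Ix]
  | succ n ih =>
    intro hn'
    have h1 := ih (by omega)
    obtain ⟨w, hw⟩ := Nat.exists_eq_add_of_le (hn.mono n hn')
    rw [gS, sum_range_succ]
    have h2 : gS ns l n = ∑ j ∈ range n, (wt ns j : ℝ) * sX ns l (j + 1) ^ 2 := rfl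
    rw [← h2, wt_eq]
    have e : Ix ns (n + 1) - Ix ns n = w := by omega
    rw [e, hw, sum_range_add]
    refine add_le_add h1 ?_
    calc (w : ℝ) * sX ns l (n + 1) ^ 2 = ∑ _j ∈ range w, sX ns l (n + 1) ^ 2 := by
          rw [sum_const, card_range, nsmul_eq_mul]
      _ ≤ ∑ j ∈ range w, sideX l (Ix ns n + j + 1) ^ 2 := by
          refine sum_le_sum fun j hj => ?_
          rw [mem_range] at hj
          have h3 : sX ns l (n + 1) ≤ sideX l (Ix ns n + j + 1) := by
            rw [sX, hw]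
            exact sideX_anti' h (by omega)
          have h4 := sX_nonneg (ns := ns) h (n + 1)
          exact pow_le_pow_left₀ h4 h3 2

theorem gS_mono {ns : List ℕ} {l : List ℝ} {n m : ℕ} (h : n ≤ m) : gS ns l n ≤ gS ns l m := by
  rw [gS, gS]
  exact sum_le_sum_of_subset_of_nonneg (range_mono h) fun j _ _ =>
    mul_nonneg (Nat.cast_nonneg _) (sq_nonneg _)

theorem T'_nonneg {q : ℕ} {ns : List ℕ} {l : List ℝ} (hn : NsOK q ns) (h : SP l) {n : ℕ}
    (hq : n < q) : gS ns l n ≤ sumsq l := by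
  have h1 := gS_le hn h hq
  rw [sumsq_split l (Ix ns n)]
  have := sumsq_nonneg (l.drop (Ix ns n))
  linarith

theorem T'_le {q : ℕ} {ns : List ℕ} {l : List ℝ} (hn : NsOK q ns) (h : SP l) {tm : ℕ}
    (hq : tm + 1 < q) : sumsq (l.drop (nthR 0 ns tm)) - sX ns l (tm + 1) ^ 2 ≤
      sumsq l - gS ns l (tm + 1) := by
  have h1 := gS_le hn h hq
  have e : Ix ns (tm + 1) = nthR 0 ns tm + 1 := rfl
  rw [e, sum_range_succ] at h1
  rw [sumsq_split l (nthR 0 ns tm), sX, e]
  linarith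

/-- the rest of the tail after `p` further squares -/
theorem T'_le_v {q : ℕ} {ns : List ℕ} {l : List ℝ} (hn : NsOK q ns) (h : SP l) {tm p : ℕ}
    (hq : tm + 1 < q) (hp : 1 ≤ p) :
    sumsq (l.drop (nthR 0 ns tm + p)) - sideX l (nthR 0 ns tm + p + 1) ^ 2 ≤
      sumsq l - gS ns l (tm + 1) - p * sideX l (nthR 0 ns tm + p + 1) ^ 2 := by
  obtain ⟨j, rfl⟩ : ∃ j, p = j + 1 := ⟨p - 1, by omega⟩
  have h1 := gS_le hn h hq
  have e : Ix ns (tm + 1) = nthR 0 ns tm + 1 := rfl
  rw [e] at h1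
  have h2 := sumsq_split l (nthR 0 ns tm + (j + 1))
  rw [show nthR 0 ns tm + (j + 1) = nthR 0 ns tm + 1 + j by ring, sum_range_add] at h2
  have h3 : ∑ _i ∈ range j, sideX l (nthR 0 ns tm + 1 + j + 1) ^ 2 ≤
      ∑ i ∈ range j, sideX l (nthR 0 ns tm + 1 + i + 1) ^ 2 := by
    refine sum_le_sum fun i hi => ?_
    rw [mem_range] at hi
    exact pow_le_pow_left₀ (sideX_nonneg h _) (sideX_anti' h (by omega)) 2
  rw [sum_const, card_range, nsmul_eq_mul] at h3
  rw [show nthR 0 ns tm + (j + 1) = nthR 0 ns tm + 1 + j by ring]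
  push_cast
  linarith

theorem wt_sum {q : ℕ} {ns : List ℕ} (hn : NsOK q ns) : ∀ {n : ℕ}, n < q →
    ∑ j ∈ range n, wt ns j = Ix ns n := by
  intro n
  induction n with
  | zero =>
    intro _
    simp [Ix]
  | succ n ih =>
    intro hn'
    rw [sum_range_succ, ih (by omega), wt_eq]
    have := hn.mono n hn'
    omega

theorem ngS_val {q : ℕ} {ns : List ℕ} {l : List ℝ} (hn : NsOK q ns) (hx : Ctx q (dlt q ns l)) :
    ∀ {n : ℕ}, n < q → MR q (dlt q ns l) (2 ^ 70) (ngS q ns n) (2 * gS ns l n) := by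
  have key : ∀ n, n < q → MR q (dlt q ns l) ((∑ j ∈ range n, wt ns j) * 2 ^ 57) (ngS q ns n)
      (2 * gS ns l n) := by
    intro n
    induction n with
    | zero =>
      intro _
      have := (MR.zero (q := q) (δ := dlt q ns l)).mono (Nat.zero_le (0 * 2 ^ 57))
      simpa [ngS, gS] using this
    | succ n ih =>
      intro hn'
      have h1 := ih (by omega)
      have h2 := (MR.sq hx (by norm_num [SG]) (xr_val (ns := ns) (l := l) hn')).mono (b' := 2 ^ 57)
        (by norm_num [SG])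
      have h3 := h1.add (h2.smul (wt6 ns n))
      have e : 2 * gS ns l n + wt ns n * (2 * (sX ns l (n + 1) * sX ns l (n + 1))) =
          2 * gS ns l (n + 1) := by
        rw [gS, gS, sum_range_succ]
        ring
      rw [wt6_eq hn hn', e, ← wt6_eq hn hn'] at h3
      refine MR.mono h3 (le_of_eq ?_)
      rw [sum_range_succ, Nat.add_mul, wt6_eq hn hn']
  intro n hn'
  refine (key n hn').mono ?_
  rw [wt_sum hn hn']
  calc Ix ns n * 2 ^ 57 ≤ 4096 * 2 ^ 57 := Nat.mul_le_mul_right _ (hn.bd n hn')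
    _ ≤ 2 ^ 70 := by norm_num

/-- the last part of a template: no last region, rows between columns, or rows of at least `k`
squares; the last kind has `p` virtual squares -/
inductive F6 where
  | none (c : QCt) : F6
  | flow (W : ℕ) (lW lY lC : LCt) (Lc Rc : List Co) (al be : List Ml) (bp bn de : ℕ)
    (q1 q2 : QCt) : F6
  | row (W v kk : ℕ) (lW lk lk2 : LCt) (q2 : QCt) : F6
  | rowv (W t p kk : ℕ) (lW lk lt : LCt) (q2 : QCt) : F6

/-- a template with its weight, the number of explicit groups, a table of vectors, the pieces, the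
pieces at the right and at the upper edge -/
inductive TE6 where
  | mk (lam tm : ℕ) (vs : ℕ → ℕ) (ps : List P6) (wx wy : List Ed) (f : F6) : TE6

/-- no last region -/
noncomputable def none6 (q tm : ℕ) (ns : List ℕ) (cx : CX) (aL aR Lam lam : ℕ)
    (c : QCt) (w h acc P N : ℕ) (k : ℕ → ℕ → ℕ → Bool) : Bool :=
  andB (Nat.beq (Nat.succ acc) (Nat.pow 2 (nthR 0 ns tm)))
    (andB (qc q cx c (Nat.add (Nat.add N (Nat.mul 120 cx.S2)) (rep K (Nat.mul q q)))
        (Nat.add P (Nat.mul 120 (ngS q ns (Nat.succ tm)))))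
      (ack q (Nat.add aL (Nat.mul lam (Nat.mul 120 (outQ q w h))))
        (fun aL => k aL aR (Nat.add Lam (Nat.mul 120 lam)))))

/-- the area of a template with a last region -/
noncomputable def fl2 (q y tm : ℕ) (ns : List ℕ) (cx : CX)
    (aL aR Lam lam bp bn de : ℕ) (q1 q2 : QCt) (W h0 H1 Q wc P N : ℕ)
    (k : ℕ → ℕ → ℕ → Bool) : Bool :=
  mck q (Nat.add (Nat.add (Nat.mul 120 cx.S2) N)
      (Nat.mul 120 (Nat.add (outQ q W h0) (Nat.add Q (outQ q wc y))))) (fun DP =>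
    mck q (Nat.add (Nat.add (Nat.mul 120 (ngS q ns (Nat.succ tm))) P)
        (Nat.mul 120 (outQ q y h0))) (fun DN =>
      andB (qc q cx q1 (Nat.add DP (Nat.mul 120 (Nat.add (outQ q W bn) (outQ q y bp))))
          (Nat.add DN (Nat.mul 120 (Nat.add (outQ q W bp) (outQ q y bn)))))
        (mck q (Nat.add DP (Nat.mul 120 (Nat.add (outQ q W y) (Nat.add (outQ q y bp)
            (Nat.mul de (rep K (Nat.mul q q))))))) (fun AP =>
          mck q (Nat.add DN (Nat.mul 120 (outQ q y bn))) (fun AN =>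
            andB (qc q cx q2 (Nat.add AN (Nat.mul 120 (outQ q W H1))) AP)
              (ack q (Nat.add aL (Nat.mul lam AP)) (fun aL =>
                ack q (Nat.add aR (Nat.mul lam AN)) (fun aR =>
                  k aL aR (Nat.add Lam (Nat.mul 120 lam))))))))))

/-- the width of the packing -/
noncomputable def selW (q : ℕ) (cx : CX) (vs : ℕ → ℕ) (lW : LCt) (w0 W : ℕ)
    (k : ℕ → Bool) : Bool :=
  Nat.rec (motive := fun _ => Bool) (k w0) (fun i _ =>
    andB (lc q cx lW w0 (sn q (vs i))) (k (sn q (vs i)))) W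

/-- rows between columns -/
noncomputable def flow6 (q y tm : ℕ) (ns : List ℕ) (cx : CX) (vs : ℕ → ℕ)
    (aL aR Lam lam W : ℕ) (lW lY lC : LCt) (Lc Rc : List Co) (al be : List Ml)
    (bp bn de : ℕ) (q1 q2 : QCt) (w0 h0 acc P N : ℕ) (k : ℕ → ℕ → ℕ → Bool) : Bool :=
  colK q tm y (nf6 ns) cx vs Lc 0 acc P N (fun wl hl Q acc P N =>
    colK q tm y (nf6 ns) cx vs Rc Q acc P N (fun wr hr Q acc P N =>
      andB (Nat.beq (Nat.succ acc) (Nat.pow 2 (nthR 0 ns tm)))
        (adc q cx al hl (fun a => adc q cx be hr (fun b =>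
          vck q (Nat.add h0 (mx K (mk1 q) a b)) (fun H1 =>
            selW q cx vs lW w0 W (fun W =>
              andB (lc q cx lY (Nat.add y (rep K q)) W)
                (andB (Bool.rec (motive := fun _ => Bool)
                    (lc q cx lC (Nat.add (Nat.add wl wr) y) W) true
                    (Nat.beq (Nat.add wl wr) 0))
                  (fl2 q y tm ns cx aL aR Lam lam (sn q bp) (sn q bn) de
                    q1 q2 W h0 H1 Q (Nat.add wl wr) P N k)))))))))

/-- the area of a template with rows of at least `kk` squares; `EP`, `EN` are the two parts of the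
deficit -/
noncomputable def rw2 (q y tm : ℕ) (ns : List ℕ) (cx : CX) (aL aR Lam lam kk : ℕ)
    (q2 : QCt) (W h0 EP EN P N : ℕ) (k : ℕ → ℕ → ℕ → Bool) : Bool :=
  mck q (Nat.add (Nat.mul (Nat.mul 120 (Nat.mul kk kk)) (outQ q W (Nat.add h0 y)))
      (Nat.add (Nat.mul (Nat.mul kk (Nat.succ kk)) (Nat.add (Nat.mul 120 cx.S2) N)) EP)) (fun AP =>
    mck q (Nat.add (Nat.mul (Nat.mul kk (Nat.succ kk))
        (Nat.add (Nat.mul 120 (ngS q ns (Nat.succ tm))) P)) EN) (fun AN =>
      andB (qc q cx q2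
          (Nat.add AN (Nat.mul (Nat.mul 120 (Nat.mul kk kk)) (outQ q W h0))) AP)
        (ack q (Nat.add aL (Nat.mul lam AP)) (fun aL =>
          ack q (Nat.add aR (Nat.mul lam AN)) (fun aR =>
            k aL aR (Nat.add Lam (Nat.mul (Nat.mul 120 (Nat.mul kk kk)) lam)))))))

/-- rows of at least `kk` squares -/
noncomputable def row6 (q y tm : ℕ) (ns : List ℕ) (cx : CX) (vs : ℕ → ℕ)
    (aL aR Lam lam W v kk : ℕ) (lW lk lk2 : LCt) (q2 : QCt) (w0 h0 acc P N : ℕ)
    (k : ℕ → ℕ → ℕ → Bool) : Bool :=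
  andB (Nat.beq (Nat.succ acc) (Nat.pow 2 (nthR 0 ns tm)))
    (andB (Nat.ble 1 kk) (andB (Nat.ble kk 255)
      (selW q cx vs lW w0 W (fun W => Nat.rec (motive := fun _ => Bool)
        (andB (lc q cx lk (Nat.mul kk y) W)
          (rw2 q y tm ns cx aL aR Lam lam kk q2 W h0
            (Nat.mul (Nat.rec (motive := fun _ => ℕ) 30 (fun j _ => Nat.mul 120 (Nat.succ j))
              (Nat.sub kk 1)) (sqQ q y)) 0 P N k))
        (fun _ _ => andB (Nat.rec (motive := fun _ => Bool)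
            (lc q cx lk (Nat.mul 4 y) (Nat.mul 3 W)) (fun _ _ =>
              lc q cx lk (Nat.mul kk y) W) (Nat.sub kk 1))
          (andB (lc q cx lk2 W (Nat.mul (Nat.succ kk) y))
            (rw2 q y tm ns cx aL aR Lam lam kk q2 W h0
              (Nat.mul (Nat.mul 120 (Nat.succ (Nat.succ kk))) (outQ q y W))
              (Nat.mul 120 (Nat.add (Nat.mul (Nat.succ kk) (sqQ q y)) (sqQ q W)))
              P N k))) v))))

/-- the denominator of the coefficient of the square of the side of the first square of the tail -/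
def vN (kk : ℕ) : ℕ := Nat.rec (motive := fun _ => ℕ) 4 (fun _ _ => Nat.mul kk kk) (Nat.sub kk 1)

/-- the numerator -/
def vB (kk p : ℕ) : ℕ := Nat.rec (motive := fun _ => ℕ) (Nat.sub (Nat.mul 8 p) 1)
  (fun j _ => Nat.sub (Nat.mul (Nat.mul kk (Nat.succ kk)) p) (Nat.succ j)) (Nat.sub kk 1)

/-- the factor -/
def vU (kk : ℕ) : ℕ := Nat.rec (motive := fun _ => ℕ) 30 (fun _ _ => 120) (Nat.sub kk 1)

/-- the area of a template with `p` virtual squares; `EP`, `EN` are the two parts of the bound for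
the contribution of the first square of the tail -/
noncomputable def rv2 (q tm : ℕ) (ns : List ℕ) (cx : CX) (aL aR Lam lam kk : ℕ)
    (q2 : QCt) (W h0 EP EN P N : ℕ) (k : ℕ → ℕ → ℕ → Bool) : Bool :=
  mck q (Nat.add (Nat.mul (Nat.mul 120 (Nat.mul kk kk)) (outQ q W h0))
      (Nat.add (Nat.mul (Nat.mul kk (Nat.succ kk)) (Nat.add (Nat.mul 120 cx.S2) N)) EP)) (fun AP =>
    mck q (Nat.add (Nat.mul (Nat.mul kk (Nat.succ kk))
        (Nat.add (Nat.mul 120 (ngS q ns (Nat.succ tm))) P)) EN) (fun AN =>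
      andB (qc q cx q2
          (Nat.add AN (Nat.mul (Nat.mul 120 (Nat.mul kk kk)) (outQ q W h0))) AP)
        (ack q (Nat.add aL (Nat.mul lam AP)) (fun aL =>
          ack q (Nat.add aR (Nat.mul lam AN)) (fun aR =>
            k aL aR (Nat.add Lam (Nat.mul (Nat.mul 120 (Nat.mul kk kk)) lam)))))))

/-- rows of at least `kk` squares, after `p` virtual squares -/
noncomputable def rowv6 (q y tm : ℕ) (ns : List ℕ) (cx : CX) (vs : ℕ → ℕ)
    (aL aR Lam lam W t p kk : ℕ) (lW lk lt : LCt) (q2 : QCt) (w0 h0 acc P N : ℕ)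
    (k : ℕ → ℕ → ℕ → Bool) : Bool :=
  andB (Nat.beq (Nat.succ acc) (Nat.pow 2 (Nat.add (nthR 0 ns tm) p)))
    (andB (Nat.ble 1 p) (andB (Nat.ble p 15) (andB (Nat.ble 1 kk) (andB (Nat.ble kk 255)
      (selW q cx vs lW w0 W (fun W => andB (lc q cx lk (Nat.mul kk y) W)
        (Nat.rec (motive := fun _ => Bool)
          (andB (lc q cx lt (Nat.mul (Nat.mul 2 (vB kk p)) y) (Nat.mul (vN kk) W))
            (rv2 q tm ns cx aL aR Lam lam kk q2 W h0
              (Nat.mul (Nat.mul (vU kk) (vN kk)) (outQ q W y))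
              (Nat.mul (Nat.mul (vU kk) (vB kk p)) (sqQ q y)) P N k))
          (fun i _ => andB (lc q cx lt (Nat.mul (Nat.mul 2 (vB kk p)) (sn q (vs i)))
              (Nat.mul (vN kk) W))
            (rv2 q tm ns cx aL aR Lam lam kk q2 W h0
              (Nat.add (Nat.mul (Nat.mul (vU kk) (vN kk)) (outQ q W y))
                (Nat.mul (Nat.mul (vU kk) (vB kk p)) (sqQ q (sn q (vs i)))))
              (Nat.mul (Nat.mul 2 (Nat.mul (vU kk) (vB kk p))) (outQ q (sn q (vs i)) y))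
              P N k)) t)))))))

/-- check of one template -/
noncomputable def te6 (q : ℕ) (ns : List ℕ) (cx : CX) (te : TE6)
    (aL aR Lam : ℕ) (k : ℕ → ℕ → ℕ → Bool) : Bool :=
  TE6.rec (motive := fun _ => Bool) (fun lam tm vs ps wx wy f =>
    andB (Nat.ble (Nat.succ (Nat.succ tm)) q) (andB (Nat.ble lam 1099511627776)
      (sp6 q (Nat.succ tm) (xr q (Nat.succ tm)) (nf6 ns) cx vs wx wy ps 1 0 0 0 0 0 0 0 (fun w0 h0 acc P N => F6.rec (motive := fun _ => Bool)
          (fun c => none6 q tm ns cx aL aR Lam lam c w0 h0 acc P N k)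
          (fun W lW lY lC Lc Rc al be bp bn de q1 q2 =>
            andB (Nat.ble de 75557863725914323419136)
              (flow6 q (xr q (Nat.succ tm)) tm ns cx vs aL aR Lam lam W lW lY lC Lc Rc
                al be bp bn de q1 q2 w0 h0 acc P N k))
          (fun W v kk lW lk lk2 q2 => row6 q (xr q (Nat.succ tm)) tm ns cx vs aL aR Lam
            lam W v kk lW lk lk2 q2 w0 h0 acc P N k)
          (fun W t p kk lW lk lt q2 => rowv6 q (xr q (Nat.succ tm)) tm ns cx vs aL aR Lam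
            lam W t p kk lW lk lt q2 w0 h0 acc P N k) f)))) te

/-- the templates of a leaf -/
noncomputable def leafGo6 (q : ℕ) (ns : List ℕ) (cx : CX) (l : List TE6) :
    ℕ → ℕ → ℕ → (ℕ → ℕ → ℕ → Bool) → Bool :=
  List.rec (motive := fun _ => ℕ → ℕ → ℕ → (ℕ → ℕ → ℕ → Bool) → Bool)
    (fun aL aR Lam k => k aL aR Lam)
    (fun te _ ih aL aR Lam k => te6 q ns cx te aL aR Lam (fun aL aR Lam =>
      ih aL aR Lam k)) l

/-- check of a leaf -/
noncomputable def leaf6 (cn cd q : ℕ) (ns : List ℕ) (cuts : List Cu) (l : List TE6) (mu : ℕ)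
    (it : List QE) : Bool :=
  leafGo6 q ns (CX.mk cuts (sqQ q (xr q 0)) (ngS q ns (Nat.sub q 1))) l 0 0 0 (fun aL aR Lam =>
    andB (Nat.ble 1 Lam) (andB (Nat.ble Lam 1180591620717411303424)
      (andB (Nat.ble mu 1208925819614629174706176)
        (qcGo q cuts it 0 (Nat.add (Nat.mul cd aL) (Nat.mul mu (sqQ q (xr q 0))))
          (Nat.add (Nat.mul (Nat.mul cn Lam) (sqQ q (xr q 0)))
            (Nat.add (Nat.mul mu (ngS q ns (Nat.sub q 1))) (Nat.mul cd aR)))))))

section sound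

variable {q : ℕ} {ns : List ℕ} {cuts : List Cu} {l : List ℝ}

/-- the assumptions about the collection -/
structure Lx (q : ℕ) (ns : List ℕ) (cuts : List Cu) (l : List ℝ) : Prop where
  hq : 2 ≤ q
  hq' : q ≤ 64
  sp : SP l
  ne : l ≠ []
  hn : NsOK q ns
  hc : ∀ c ∈ cuts, CutH q (dlt q ns l) c

theorem Lx.ctx (h : Lx q ns cuts l) : Ctx q (dlt q ns l) :=
  ⟨h.hq, by have := h.hq'; omega, dlt_nonneg h.hn h.sp⟩

theorem Lx.s2 (h : Lx q ns cuts l) : MR q (dlt q ns l) (2 ^ 57) (sqQ q (xr q 0)) (2 * sumsq l) := by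
  have h1 := (MR.sq h.ctx (by norm_num [SG]) (xr_val (ns := ns) (l := l) (q := q) (i := 0)
    (by have := h.hq; omega))).mono (b' := 2 ^ 57) (by norm_num [SG])
  have e : sX ns l 0 = Real.sqrt (sumsq l) := rfl
  rw [e, Real.mul_self_sqrt (sumsq_nonneg l)] at h1
  exact h1

/-- the sum of the coefficients is positive -/
theorem Lx.one_pos (h : Lx q ns cuts l) : 0 < lin q (dlt q ns l) fun _ => 1 := by
  have h1 := lin_dlt (ns := ns) (l := l) (q := q) (i := 0) (by have := h.hq; omega)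
  have h2 : lin q (dlt q ns l) (fun p => if 0 ≤ p then SG else 0) =
      SG * lin q (dlt q ns l) (fun _ => 1) := by
    rw [← lin_const_mul]
    exact lin_congr fun i _ => by simp
  have h3 : 0 < sX ns l 0 := by
    have e : sX ns l 0 = Real.sqrt (sumsq l) := rfl
    rw [e]
    apply Real.sqrt_pos.2
    obtain ⟨a, U, rfl⟩ := List.exists_cons_of_ne_nil h.ne
    rw [sumsq_cons]
    have h4 := h.sp.2 a (by simp)
    have h5 := sumsq_nonneg U
    positivity
  rw [h2] at h1
  rw [← h1] at h3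
  exact pos_of_mul_pos_right h3 SG_pos.le

/-- the conclusion of the check of one template -/
def TEOK6 (q : ℕ) (ns : List ℕ) (l : List ℝ) (rL rR : ℝ) (Lam : ℕ) (k : ℕ → ℕ → ℕ → Bool) :
    Prop :=
  ∃ (aL' aR' E : ℕ) (rL' rR' A : ℝ), k aL' aR' (Lam + E) = true ∧
    (∃ a b, PacksL l a b ∧ a * b ≤ A) ∧ MR q (dlt q ns l) AB aL' rL' ∧
    MR q (dlt q ns l) AB aR' rR' ∧ rL' - rR' = rL - rR + 2 * E * A

theorem VR.zero_val {q : ℕ} {δ : ℕ → ℝ} {b : ℕ} {r : ℝ} (h : VR q δ b 0 r) : r = 0 := by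
  obtain ⟨f, h1, _, rfl⟩ := h
  rw [lin]
  apply sum_eq_zero
  intro i hi
  have h2 : ∑ i ∈ range q, f i * 2 ^ (K * i) = 0 := h1.symm
  rw [sum_eq_zero_iff] at h2
  have h3 := h2 i hi
  have h4 : f i = 0 := by
    rcases Nat.mul_eq_zero.1 h3 with h4 | h4
    · exact h4
    · exact absurd h4 (Nat.two_pow_pos _).ne'
  rw [h4]
  simp

theorem selW_sound (hx : Lx q ns cuts l) {cx : CX} (hcx : CXok q (dlt q ns l) cx) {vs : ℕ → ℕ} {lW : LCt} {w0 W : ℕ} {rw0 : ℝ}
    {k : ℕ → Bool} (hw : VR q (dlt q ns l) VB w0 rw0) (h : selW q cx vs lW w0 W k = true) :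
    ∃ W' r, k W' = true ∧ VR q (dlt q ns l) VB W' r ∧ rw0 ≤ r := by
  cases W with
  | zero => exact ⟨w0, rw0, h, hw, le_rfl⟩
  | succ i =>
    obtain ⟨h1, h2⟩ := andB_eq_true.1 h
    have h3 := (VR.san (q := q) (δ := dlt q ns l) (vs i)).mono (b' := VB) (by norm_num [VB])
    exact ⟨_, _, h2, h3, lc_sound hx.ctx hcx (b := VB) (by norm_num [VB]) hw h3 h1⟩

/-- the common part of the two kinds of rows of at least `kk` squares -/
theorem rw2_sound (hx : Lx q ns cuts l) {cx : CX} (hcc : CXok q (dlt q ns l) cx) {tm y aL aR Lam lam kk W h0 EP EN P N : ℕ}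
    {q2 : QCt} {k : ℕ → ℕ → ℕ → Bool} {rL rR rW rh Y p n rEP rEN D cap rw0 : ℝ}
    {Bs : List (ℝ × ℝ × ℝ)} (htm : tm + 1 < q) (hYd : Y = sX ns l (tm + 1))
    (hy : VR q (dlt q ns l) VB y Y) (hS : MR q (dlt q ns l) (2 ^ 70) cx.S2 (2 * sumsq l))
    (hL : MR q (dlt q ns l) AB aL rL) (hR : MR q (dlt q ns l) AB aR rR) (hlam : lam ≤ 2 ^ 40)
    (hk1 : 1 ≤ kk) (hk2 : kk ≤ 255) (hW : VR q (dlt q ns l) VB W rW)
    (hh : VR q (dlt q ns l) VB h0 rh) (hP : MR q (dlt q ns l) MB P p)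
    (hNN : MR q (dlt q ns l) MB N n) (hEP : MR q (dlt q ns l) (2 ^ 116) EP rEP)
    (hEN : MR q (dlt q ns l) (2 ^ 116) EN rEN) (hw0 : rw0 ≤ rW)
    (hBs : ∀ B ∈ Bs, BOK Y B) (hcap : cap = (Bs.map fun B => B.2.2).sum)
    (hcap2 : 240 * cap = p - n) (hkY : kk * Y ≤ rW) (hD0 : 0 ≤ D)
    (hD : ∀ s, 0 < s → s ≤ rW / (kk + 1) →
      s * (Y - rW / (kk + 1)) ≤ D ∨ kk * s * (rW / (kk + 1) - s) ≤ D)
    (hDE : 240 * (kk * (kk + 1)) * D = rEP - rEN)
    (hPk : ∀ parts : List (List ℝ),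
      List.Forall₂ (fun p (B : ℝ × ℝ × ℝ) => PacksL p B.1 B.2.1) parts Bs →
      ∃ G0 : List ℝ, PacksL G0 rw0 rh ∧
        ∀ T, (parts.flatten ++ T).Perm (l.drop (nthR 0 ns tm)) → (G0 ++ T).Perm l)
    (h : rw2 q y tm ns cx aL aR Lam lam kk q2 W h0 EP EN P N k = true) :
    TEOK6 q ns l rL rR Lam k := by
  have hcx := hx.ctx
  have hV : VB ≤ 2 ^ 100 := by norm_num [VB]
  have hV2 : VB + VB ≤ 2 ^ 100 := by norm_num [VB]
  have hkk : 120 * (kk * kk) ≤ 2 ^ 24 := by nlinarith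
  have hkk' : kk * (kk + 1) ≤ 2 ^ 17 := by nlinarith
  have hNt := ngS_val (l := l) hx.hn hcx (n := tm + 1) htm
  have m1 := (MR.out hcx hV hV2 hW (hh.add hy)).mono (b' := 2 ^ 92) (by norm_num [VB])
  have m2 := (MR.out hcx hV hV hW hh).mono (b' := 2 ^ 92) (by norm_num [VB])
  obtain ⟨d1, h⟩ := mck_sound (by norm_num [MB, K])
    ((m1.smul_le hkk).add ((((hS.smul 120).add hNN).smul_le hkk').add hEP)) h
  obtain ⟨d2, h⟩ := mck_sound (by norm_num [MB, K])
    ((((hNt.smul 120).add hP).smul_le hkk').add hEN) h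
  obtain ⟨k5, h⟩ := andB_eq_true.1 h
  have k5 := qc_sound hcx hcc (b := MB + 2 ^ 24 * 2 ^ 92) (by norm_num [MB])
    (d2.add (m2.smul_le hkk)) (d1.mono (Nat.le_add_right _ _)) k5
  have hbnd : AB + lam * MB < 2 ^ K := by
    calc AB + lam * MB ≤ AB + 2 ^ 40 * MB := Nat.add_le_add_left (Nat.mul_le_mul_right _ hlam) _
      _ < 2 ^ K := by norm_num [AB, MB, K]
  obtain ⟨d5, h⟩ := ack_sound hbnd (hL.add (d1.smul lam)) h
  obtain ⟨d6, h⟩ := ack_sound hbnd (hR.add (d2.smul lam)) h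
  have hkr : (1 : ℝ) ≤ kk := by exact_mod_cast hk1
  obtain ⟨F, hF⟩ : ∃ F, F = sumsq l - gS ns l (tm + 1) - cap := ⟨_, rfl⟩
  have hT := T'_le hx.hn hx.sp htm
  rw [← hYd] at hT
  have hkp : (0 : ℝ) < kk := by linarith
  refine ⟨_, _, 120 * (kk * kk) * lam, _, _,
    (rW * (rh + Y) + (kk + 1) / kk * (F + D)), h, ?_, d5, d6, ?_⟩
  · push_cast at k5
    have e1 : (kk + 1) / kk * (F + D) * (240 * (kk * kk)) =
        240 * (kk * (kk + 1)) * F + 240 * (kk * (kk + 1)) * D := by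
      field_simp
    refine row_area (F := F) (D := D) (k := kk) (hx.sp.drop _) (by rw [hd_drop, hYd]; rfl) hBs
      hcap (hh.nonneg hcx) hw0 hk1 hkY hD0 hD (by rw [hF]; linarith) ?_ ?_ hPk
    · have : kk * (rW * (rh + Y) + (kk + 1) / kk * (F + D)) =
          kk * (rW * (rh + Y)) + (kk + 1) * (F + D) := by
        field_simp
      rw [this]
    · have h9 : rW * rh * (240 * (kk * kk)) ≤
          (rW * (rh + Y) + (kk + 1) / kk * (F + D)) * (240 * (kk * kk)) := by
        rw [add_mul, e1, hDE, hF]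
        nlinarith
      exact le_of_mul_le_mul_right h9 (by positivity)
  · push_cast
    have e1 : (kk + 1) / kk * (F + D) * (240 * (kk * kk)) =
        240 * (kk * (kk + 1)) * F + 240 * (kk * (kk + 1)) * D := by
      field_simp
    have e2 : 2 * (120 * ((kk : ℝ) * kk) * lam) * (rW * (rh + Y) + (kk + 1) / kk * (F + D)) =
        lam * (240 * (kk * kk) * (rW * (rh + Y)) + (kk + 1) / kk * (F + D) * (240 * (kk * kk))) := by
      ring
    rw [e2, e1, hDE, hF]
    have e3 : (kk : ℝ) * (kk + 1) * (240 * cap) = kk * (kk + 1) * (p - n) := by rw [hcap2]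
    linear_combination (lam : ℝ) * e3

/-- the common part of the templates with `p` virtual squares -/
theorem rv2_sound (hx : Lx q ns cuts l) {cx : CX} (hcc : CXok q (dlt q ns l) cx)
    {tm aL aR Lam lam kk p W h0 EP EN P N : ℕ}
    {q2 : QCt} {k : ℕ → ℕ → ℕ → Bool} {rL rR rW rh Y pp n rEP rEN dz a PHI cap rw0 : ℝ}
    {Bs : List (ℝ × ℝ × ℝ)} (htm : tm + 1 < q) (hYd : Y = sX ns l (tm + 1)) (hp1 : 1 ≤ p)
    (hS : MR q (dlt q ns l) (2 ^ 70) cx.S2 (2 * sumsq l))
    (hL : MR q (dlt q ns l) AB aL rL) (hR : MR q (dlt q ns l) AB aR rR) (hlam : lam ≤ 2 ^ 40)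
    (hk1 : 1 ≤ kk) (hk2 : kk ≤ 255) (hW : VR q (dlt q ns l) VB W rW)
    (hh : VR q (dlt q ns l) VB h0 rh) (hP : MR q (dlt q ns l) MB P pp)
    (hNN : MR q (dlt q ns l) MB N n) (hEP : MR q (dlt q ns l) (2 ^ 116) EP rEP)
    (hEN : MR q (dlt q ns l) (2 ^ 116) EN rEN) (hw0 : rw0 ≤ rW)
    (hBs : ∀ B ∈ Bs, BOK Y B) (hcap : cap = (Bs.map fun B => B.2.2).sum)
    (hcap2 : 240 * cap = pp - n) (hkY : kk * Y ≤ rW) (hdz0 : 0 ≤ dz)
    (hdz1 : kk = 1 → 1 ≤ 8 * dz) (hdz2 : 2 ≤ kk → (kk : ℝ) - 1 ≤ kk * (kk + 1) * dz)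
    (ha : kk * a = (kk + 1) * (p - dz))
    (hphi : ∀ z, 0 ≤ z → z ≤ Y → rW * z - a * z ^ 2 ≤ PHI)
    (hDE : 240 * (kk * kk) * PHI = rEP - rEN)
    (hPk : ∀ parts : List (List ℝ),
      List.Forall₂ (fun p (B : ℝ × ℝ × ℝ) => PacksL p B.1 B.2.1) parts Bs →
      ∃ G0 : List ℝ, PacksL G0 rw0 rh ∧
        ∀ T, (parts.flatten ++ T).Perm (l.drop (nthR 0 ns tm + p)) → (G0 ++ T).Perm l)
    (h : rv2 q tm ns cx aL aR Lam lam kk q2 W h0 EP EN P N k = true) :
    TEOK6 q ns l rL rR Lam k := by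
  have hcx := hx.ctx
  have hV : VB ≤ 2 ^ 100 := by norm_num [VB]
  have hkk : 120 * (kk * kk) ≤ 2 ^ 24 := by nlinarith
  have hkk' : kk * (kk + 1) ≤ 2 ^ 17 := by nlinarith
  have hNt := ngS_val (l := l) hx.hn hcx (n := tm + 1) htm
  have m2 := (MR.out hcx hV hV hW hh).mono (b' := 2 ^ 92) (by norm_num [VB])
  obtain ⟨d1, h⟩ := mck_sound (by norm_num [MB, K])
    ((m2.smul_le hkk).add ((((hS.smul 120).add hNN).smul_le hkk').add hEP)) h
  obtain ⟨d2, h⟩ := mck_sound (by norm_num [MB, K])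
    ((((hNt.smul 120).add hP).smul_le hkk').add hEN) h
  obtain ⟨k5, h⟩ := andB_eq_true.1 h
  have k5 := qc_sound hcx hcc (b := MB + 2 ^ 24 * 2 ^ 92) (by norm_num [MB])
    (d2.add (m2.smul_le hkk)) (d1.mono (Nat.le_add_right _ _)) k5
  have hbnd : AB + lam * MB < 2 ^ K := by
    calc AB + lam * MB ≤ AB + 2 ^ 40 * MB := Nat.add_le_add_left (Nat.mul_le_mul_right _ hlam) _
      _ < 2 ^ K := by norm_num [AB, MB, K]
  obtain ⟨d5, h⟩ := ack_sound hbnd (hL.add (d1.smul lam)) h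
  obtain ⟨d6, h⟩ := ack_sound hbnd (hR.add (d2.smul lam)) h
  have hkr : (1 : ℝ) ≤ kk := by exact_mod_cast hk1
  obtain ⟨F, hF⟩ : ∃ F, F = sumsq l - gS ns l (tm + 1) - cap := ⟨_, rfl⟩
  obtain ⟨z, hz⟩ : ∃ z, z = sideX l (nthR 0 ns tm + p + 1) := ⟨_, rfl⟩
  have hT := T'_le_v hx.hn hx.sp htm hp1
  rw [← hz] at hT
  have hz0 : 0 ≤ z := by
    rw [hz]
    exact sideX_nonneg hx.sp _
  have hzY : z ≤ Y := by
    rw [hz, hYd, sX]
    refine sideX_anti' hx.sp ?_
    show nthR 0 ns tm + 1 ≤ _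
    omega
  have hkp : (0 : ℝ) < kk := by linarith
  have hph := hphi z hz0 hzY
  refine ⟨_, _, 120 * (kk * kk) * lam, _, _,
    (rW * rh + (kk + 1) / kk * F + PHI), h, ?_, d5, d6, ?_⟩
  · push_cast at k5
    have e1 : (rW * rh + (kk + 1) / kk * F + PHI) * (240 * (kk * kk)) =
        240 * (kk * kk) * (rW * rh) + 240 * (kk * (kk + 1)) * F + (rEP - rEN) := by
      rw [← hDE]
      field_simp
    refine row_area (Y := z) (F := F - p * z ^ 2) (D := dz * z ^ 2) (k := kk) (cap := cap)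
      (hx.sp.drop _) (by rw [hd_drop, hz]) (fun B hB => (hBs B hB).anti hzY)
      hcap (hh.nonneg hcx) hw0 hk1 ((mul_le_mul_of_nonneg_left hzY hkp.le).trans hkY)
      (by positivity) ?_ (by rw [hF]; linarith) ?_ ?_ hPk
    · refine deficit_one hk1 ((mul_le_mul_of_nonneg_left hzY hkp.le).trans hkY) hz0
        (fun h1 => ?_) fun h2 => ?_
      · have := mul_le_mul_of_nonneg_right (hdz1 h1) (sq_nonneg z)
        linarith
      · have := mul_le_mul_of_nonneg_right (hdz2 h2) (sq_nonneg z)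
        linarith
    · have e2 : (kk : ℝ) * (rW * rh + (kk + 1) / kk * F + PHI) =
          kk * (rW * rh) + (kk + 1) * F + kk * PHI := by
        field_simp
      rw [e2]
      have e3 : (kk : ℝ) * a * z ^ 2 = (kk + 1) * (p - dz) * z ^ 2 := by rw [ha]
      have e4 := mul_le_mul_of_nonneg_left hph hkp.le
      linarith
    · have h9 : rW * rh * (240 * (kk * kk)) ≤
          (rW * rh + (kk + 1) / kk * F + PHI) * (240 * (kk * kk)) := by
        rw [e1, hF]
        nlinarith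
      exact le_of_mul_le_mul_right h9 (by positivity)
  · push_cast
    have e2 : 2 * (120 * ((kk : ℝ) * kk) * lam) * (rW * rh + (kk + 1) / kk * F + PHI) =
        lam * (240 * (kk * kk) * (rW * rh) + 240 * (kk * (kk + 1)) * F +
          240 * (kk * kk) * PHI) := by
      field_simp
      ring
    rw [e2, hDE, hF]
    have e3 : (kk : ℝ) * (kk + 1) * (240 * cap) = kk * (kk + 1) * (pp - n) := by rw [hcap2]
    linear_combination (lam : ℝ) * e3

/-- the constants -/
theorem vconst {kk p : ℕ} (hk : 1 ≤ kk) (hk2 : kk ≤ 255) (hp : 1 ≤ p) (hp2 : p ≤ 15) :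
    ∃ dz : ℝ, vU kk * vN kk = 120 * (kk * kk) ∧ vN kk ≤ 2 ^ 16 ∧ vB kk p ≤ 2 ^ 20 ∧
      vU kk ≤ 120 ∧ 0 < vN kk ∧ 0 ≤ dz ∧ (kk = 1 → 1 ≤ 8 * dz) ∧
      (2 ≤ kk → (kk : ℝ) - 1 ≤ kk * (kk + 1) * dz) ∧
      kk * ((vB kk p : ℝ) / vN kk) = (kk + 1) * (p - dz) := by
  rcases hk.lt_or_eq with h2 | h2
  · obtain ⟨j, rfl⟩ : ∃ j, kk = j + 2 := ⟨kk - 2, by omega⟩
    have e1 : vN (j + 2) = (j + 2) * (j + 2) := rfl
    have e2 : vB (j + 2) p = (j + 2) * (j + 3) * p - (j + 1) := rfl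
    have e3 : vU (j + 2) = 120 := rfl
    have e4 : j + 1 ≤ (j + 2) * (j + 3) * p := by nlinarith
    have e5 : ((vB (j + 2) p : ℕ) : ℝ) = (j + 2) * (j + 3) * p - (j + 1) := by
      rw [e2, Nat.cast_sub e4]
      push_cast
      ring
    refine ⟨(j + 1) / ((j + 2) * (j + 3)), by rw [e1, e3], ?_, ?_, by omega,
      by rw [e1]; positivity, by positivity, fun h => ?_, fun _ => ?_, ?_⟩
    · rw [e1]
      exact (Nat.mul_le_mul hk2 hk2).trans (by norm_num)
    · rw [e2]
      have h3 : (j + 2) * (j + 3) ≤ 255 * 256 := Nat.mul_le_mul (by omega) (by omega)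
      have h4 : (j + 2) * (j + 3) * p ≤ 255 * 256 * 15 := Nat.mul_le_mul h3 hp2
      exact (Nat.sub_le _ _).trans (h4.trans (by norm_num))
    · omega
    · push_cast
      have e6 : ((j : ℝ) + 2) * (j + 2 + 1) * ((j + 1) / ((j + 2) * (j + 3))) = j + 1 := by
        field_simp
        ring
      rw [e6]
      linarith
    · rw [e5, e1]
      push_cast
      field_simp
      ring
  · subst h2
    have e1 : vN 1 = 4 := rfl
    have e2 : vB 1 p = 8 * p - 1 := rfl
    have e3 : vU 1 = 30 := rfl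
    have e5 : ((vB 1 p : ℕ) : ℝ) = 8 * p - 1 := by
      rw [e2, Nat.cast_sub (by omega)]
      push_cast
      ring
    refine ⟨1 / 8, by rw [e1, e3], by omega, by omega, by omega, by omega, by norm_num,
      fun _ => by norm_num, fun h => absurd h (by norm_num), ?_⟩
    rw [e5, e1]
    push_cast
    ring

/-- the bound for the contribution of the first square of the tail -/
theorem vphi {Bn Nn : ℕ} {rW Y τ : ℝ} (hN : (0 : ℝ) < Nn) (h1 : 2 * Bn * τ ≤ Nn * rW) :
    ∀ z, 0 ≤ z → z ≤ Y →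
      rW * z - Bn / Nn * z ^ 2 ≤ rW * Y - 2 * (Bn / Nn) * τ * Y + Bn / Nn * τ ^ 2 := by
  intro z _ h3
  have ha0 : 0 ≤ (Bn : ℝ) / Nn := by positivity
  have h4 : 2 * ((Bn : ℝ) / Nn) * τ ≤ rW := by
    have e : 2 * ((Bn : ℝ) / Nn) * τ = 2 * Bn * τ / Nn := by ring
    rw [e, div_le_iff₀ hN]
    linarith
  have h5 := mul_nonneg (sub_nonneg.2 h4) (sub_nonneg.2 h3)
  have h6 := mul_nonneg ha0 (sq_nonneg (τ - z))
  nlinarith

theorem te6_sound (hx : Lx q ns cuts l) {cx : CX} (hcc : CXok q (dlt q ns l) cx)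
    (hS70 : MR q (dlt q ns l) (2 ^ 70) cx.S2 (2 * sumsq l)) (te : TE6) {aL aR Lam : ℕ} {rL rR : ℝ}
    {k : ℕ → ℕ → ℕ → Bool} (hL : MR q (dlt q ns l) AB aL rL) (hR : MR q (dlt q ns l) AB aR rR)
    (h : te6 q ns cx te aL aR Lam k = true) : TEOK6 q ns l rL rR Lam k := by
  obtain ⟨lam, tm, vs, ps, wx, wy, f⟩ := te
  obtain ⟨g1, h⟩ := andB_eq_true.1 h
  obtain ⟨g2, h⟩ := andB_eq_true.1 h
  have g1 : tm + 2 ≤ q := Nat.le_of_ble_eq_true g1
  have g2 : lam ≤ 2 ^ 40 := Nat.le_of_ble_eq_true g2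
  have hcx := hx.ctx
  have hq0 : 0 < q := by omega
  have hX : ∀ i < q, VR q (dlt q ns l) VB (xr q i) (sX ns l i) := fun i hi =>
    (xr_val hi).mono (by norm_num [SG, VB])
  have hyS := xr_val (ns := ns) (l := l) (q := q) (i := tm + 1) (by omega)
  have hy := hX (tm + 1) (by omega)
  have hY0 := sX_nonneg (ns := ns) hx.sp (tm + 1)
  obtain ⟨Y, hYd⟩ : ∃ Y, Y = sX ns l (tm + 1) := ⟨_, rfl⟩
  rw [← hYd] at hy hY0 hyS
  have hV : VB ≤ 2 ^ 100 := by norm_num [VB]
  have hV2 : VB + VB ≤ 2 ^ 100 := by norm_num [VB]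
  have h28 : (2 : ℕ) ^ 36 ≤ 2 ^ 100 := by norm_num
  have hNt60 := ngS_val (l := l) hx.hn hcx (n := tm + 1) (by omega)
  have hT := T'_le hx.hn hx.sp (tm := tm) (by omega)
  rw [← hYd] at hT
  have hacc0 : AccOK 0 [] := ⟨List.nodup_nil, by simp⟩
  have h0 := (MR.zero (q := q) (δ := dlt q ns l)).mono (Nat.zero_le MB)
  have hsq : ∀ i c, i < tm → PacksL (cont l (nthR 0 ns i + c)) (sX ns l (i + 1))
      (sX ns l (i + 1)) := fun i c _ => cont_packs' hx.sp i c
  have htmq : tm < q := by omega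
  have hsq' : ∀ i c, i < Nat.succ tm → PacksL (cont l (nthR 0 ns i + c)) (sX ns l (i + 1))
      (sX ns l (i + 1)) := fun i c _ => cont_packs' hx.sp i c
  have htmq' : Nat.succ tm < q := by omega
  have hnf : ∀ i < tm, nf6 ns i = nthR 0 ns i := fun i hi => nf6_eq hx.hn (by omega)
  have hnf' : ∀ i < Nat.succ tm, nf6 ns i = nthR 0 ns i := fun i hi =>
    nf6_eq hx.hn (by
      have := Nat.lt_succ_iff.1 hi
      omega)
  obtain ⟨W0, H0, acc, P, N, w0, hh0, p, n, Bs, h, a1, a2, a3, a4, a5, a6, a7, a8⟩ :=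
    sp6_start hcx hcc hy htmq' hX hnf' hsq' wx wy ps hacc0 h0 h0 h
  rw [List.nil_append] at a3
  rw [sub_zero, sub_zero] at a7
  have htl := hx.sp.drop (nthR 0 ns tm)
  have hhd : hd (l.drop (nthR 0 ns tm)) = Y := by rw [hd_drop, hYd]; rfl
  have hlamr : (0 : ℝ) ≤ lam := Nat.cast_nonneg _
  cases f with
  | none c =>
    obtain ⟨k1, h⟩ := andB_eq_true.1 h
    obtain ⟨k2, h⟩ := andB_eq_true.1 h
    obtain ⟨k3, h⟩ := ack_sound (by
      calc AB + lam * (120 * (2 * (VB * VB))) ≤ AB + 2 ^ 40 * (120 * (2 * (VB * VB))) :=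
          Nat.add_le_add_left (Nat.mul_le_mul_right _ g2) _
        _ < 2 ^ K := by norm_num [AB, VB, K])
      (hL.add (((MR.out hcx hV hV a1 a2).smul 120).smul lam)) h
    have k4 := qc_sound hcx hcc (b := MB + 120 * 2 ^ 70 + 1) (by norm_num [MB])
      ((a5.add (hS70.smul 120)).add (MR.one hq0))
      ((a4.add (hNt60.smul 120)).mono (Nat.le_add_right _ _)) k2
    push_cast at k4
    refine ⟨_, aR, 120 * lam, _, rR, w0 * hh0, h, ?_, k3, hR, by push_cast; ring⟩
    refine ⟨w0, hh0, ?_, le_rfl⟩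
    have hone : 0 < (lin q (dlt q ns l) fun _ => 1) ^ 2 := by
      have := hx.one_pos
      positivity
    refine none_area (tl := l.drop (nthR 0 ns tm)) htl hhd a6 rfl (by linarith) ?_
    intro parts hp
    refine ⟨_, a8 parts hp, fun T hTp => ?_⟩
    rw [List.append_assoc]
    exact cont_perm a3 k1 hTp
  | flow W lW lY lC Lc Rc al be bp bn de q1 q2 =>
    obtain ⟨g4, h⟩ := andB_eq_true.1 h
    have g4 : de ≤ 2 ^ 76 := Nat.le_of_ble_eq_true g4
    obtain ⟨L, BsL, wl, hl, Q, acc1, P1, N1, rq, p1, n1, h, b1, b2, b3, b4, b5, b6, b7, b8, b9,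
      b10, b11⟩ := colK_sound hcx hcc hy htmq hX hnf hsq Lc h0 a3 a4 a5 h
    obtain ⟨R, BsR, wr, hr, Q2, acc2, P2, N2, rq2, p2, n2, h, c1, c2, c3, c4, c5, c6, c7, c8, c9,
      c10, c11⟩ := colK_sound hcx hcc hy htmq hX hnf hsq Rc b3 b5 b6 b7 h
    obtain ⟨k1, h⟩ := andB_eq_true.1 h
    obtain ⟨a, ra, h, ha, hra⟩ := adc_sound hcx hcc b2 h
    obtain ⟨b, rb, h, hb, hrb⟩ := adc_sound hcx hcc c2 h
    obtain ⟨s, hs, hs1, hs2⟩ := VR.mx hcx (by norm_num [VB, K]) ha hb
    obtain ⟨hH1, h⟩ := vck_sound (by norm_num [VB, K]) (a2.add hs) h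
    obtain ⟨W', rW, h, hW', hw0W⟩ := selW_sound hx hcc a1 h
    obtain ⟨k2, h⟩ := andB_eq_true.1 h
    obtain ⟨k3, h⟩ := andB_eq_true.1 h
    have hone := hx.one_pos
    have k2 := lc_sound hcx hcc (b := VB + 1) (by norm_num [VB]) (hy.add VR.one)
      (hW'.mono (Nat.le_add_right _ _)) k2
    have hwc := b1.add c1
    have hlen0 := colW_nonneg b10
    have hlen1 := colW_nonneg c10
    have hWc : colW L + colW R + Y ≤ rW := by
      cases hz : Nat.beq (Nat.add wl wr) 0 with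
      | true =>
        have hz : Nat.add wl wr = 0 := Nat.eq_of_beq_eq_true hz
        rw [hz] at hwc
        have := hwc.zero_val
        rw [this]
        linarith
      | false =>
        rw [hz] at k3
        exact lc_sound hcx hcc (b := VB + VB + VB) (by norm_num [VB]) (hwc.add hy)
          (hW'.mono (by norm_num [VB])) k3
    -- the matrices
    have hbp := VR.san (q := q) (δ := dlt q ns l) bp
    have hbn := VR.san (q := q) (δ := dlt q ns l) bn
    obtain ⟨d1, h⟩ := mck_sound (by norm_num [MB, VB, K])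
      (((hS70.smul 120).add c7).add (((MR.out hcx hV hV hW' a2).add
        (c3.add (MR.out hcx hV2 hV hwc hy))).smul 120)) h
    obtain ⟨d2, h⟩ := mck_sound (by norm_num [MB, VB, K])
      (((hNt60.smul 120).add c6).add ((MR.out hcx hV hV hy a2).smul 120)) h
    obtain ⟨k4, h⟩ := andB_eq_true.1 h
    have k4 := qc_sound hcx hcc (b := 2 * MB) (by norm_num [MB])
      ((d1.add (((MR.out hcx hV h28 hW' hbn).add (MR.out hcx hV h28 hy hbp)).smul 120)).mono
        (by norm_num [MB, VB]))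
      ((d2.add (((MR.out hcx hV h28 hW' hbp).add (MR.out hcx hV h28 hy hbn)).smul 120)).mono
        (by norm_num [MB, VB])) k4
    have hde : MR q (dlt q ns l) (2 ^ 76) (Nat.mul de (rep K (Nat.mul q q)))
        (de * (lin q (dlt q ns l) fun _ => 1) ^ 2) :=
      ((MR.one hq0).smul de).mono (by simpa using g4)
    obtain ⟨d3, h⟩ := mck_sound (by norm_num [MB, VB, K])
      (d1.add (((MR.out hcx hV hV hW' hy).add ((MR.out hcx hV h28 hy hbp).add hde)).smul 120)) h
    obtain ⟨d4, h⟩ := mck_sound (by norm_num [MB, VB, K])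
      (d2.add ((MR.out hcx hV h28 hy hbn).smul 120)) h
    obtain ⟨k5, h⟩ := andB_eq_true.1 h
    have k5 := qc_sound hcx hcc (b := 2 * MB) (by norm_num [MB])
      ((d4.add ((MR.out hcx hV hV hW' hH1).smul 120)).mono (by norm_num [MB, VB]))
      (d3.mono (by norm_num [MB])) k5
    push_cast at k4 k5
    have hbnd : AB + lam * MB < 2 ^ K := by
      calc AB + lam * MB ≤ AB + 2 ^ 40 * MB := Nat.add_le_add_left (Nat.mul_le_mul_right _ g2) _
        _ < 2 ^ K := by norm_num [AB, MB, K]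
    obtain ⟨d5, h⟩ := ack_sound hbnd (hL.add (d3.smul lam)) h
    obtain ⟨d6, h⟩ := ack_sound hbnd (hR.add (d4.smul lam)) h
    obtain ⟨β, hβ⟩ : ∃ β, β = lin q (dlt q ns l) (se bp) - lin q (dlt q ns l) (se bn) := ⟨_, rfl⟩
    obtain ⟨cap, hcap⟩ : ∃ cap, cap = ((Bs ++ (BsL ++ BsR)).map fun B => B.2.2).sum := ⟨_, rfl⟩
    have hcap2 : 240 * cap = p2 - n2 := by
      rw [hcap, List.map_append, List.map_append, List.sum_append, List.sum_append]
      linarith
    -- the real and the certified part of the area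
    obtain ⟨D, hD⟩ : ∃ D, D = sumsq (l.drop (nthR 0 ns tm)) - Y ^ 2 - cap + (rW - Y) * hh0 +
      (colA L + colA R + (colW L + colW R) * Y) := ⟨_, rfl⟩
    obtain ⟨D', hD'⟩ : ∃ D', D' = sumsq l - gS ns l (tm + 1) - cap + (rW - Y) * hh0 +
      (colA L + colA R + (colW L + colW R) * Y) := ⟨_, rfl⟩
    have hDD : D ≤ D' := by linarith
    have hrq : rq2 = 2 * (colA L + colA R) := by
      rw [c4, b4]
      ring
    have e1 : (rW - Y) * β = rW * lin q (dlt q ns l) (se bp) - rW * lin q (dlt q ns l) (se bn) -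
        Y * lin q (dlt q ns l) (se bp) + Y * lin q (dlt q ns l) (se bn) := by
      rw [hβ]
      ring
    have e2 : (rW - Y) * hh0 = rW * hh0 - Y * hh0 := by ring
    have e3 : Y * β = Y * lin q (dlt q ns l) (se bp) - Y * lin q (dlt q ns l) (se bn) := by
      rw [hβ]
      ring
    refine ⟨_, _, 120 * lam, _, _, rW * Y + D' + Y * β +
      de * (lin q (dlt q ns l) fun _ => 1) ^ 2 / 2, h, ?_, d5, d6, ?_⟩
    · have hde0 : 0 ≤ (de : ℝ) * (lin q (dlt q ns l) fun _ => 1) ^ 2 / 2 := by positivity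
      refine final_area (tl := l.drop (nthR 0 ns tm)) (Bs := Bs ++ (BsL ++ BsR)) (L := L) (R := R)
        (D := D) (H1 := hh0 + s) (w0 := w0) (h0 := hh0) (β := β) (cap := cap)
        (W := rW) b10 c10 htl hhd ?_ hcap (a2.nonneg hcx) hw0W (by linarith) hWc
        (by linarith) (by linarith) hD ?_ (by linarith) ?_ ?_
      · intro B hB
        rcases List.mem_append.1 hB with hB | hB
        · exact a6 B hB
        · rcases List.mem_append.1 hB with hB | hB
          · exact b8 B hB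
          · exact c8 B hB
      · refine hDD.trans ?_
        rw [e1, hD', e2]
        linarith
      · rw [e3, hD', e2]
        linarith
      · intro parts hp
        obtain ⟨pa, pbc, rfl, e1, e2⟩ := forall₂_split hp
        obtain ⟨pb, pc, rfl, e3, e4⟩ := forall₂_split e2
        obtain ⟨cL, f1, f2⟩ := b11 pb e3
        obtain ⟨cR, f3, f4⟩ := c11 pc e4
        refine ⟨_, cL, cR, a8 pa e1, f1, f3, fun T hTp => ?_⟩
        rw [List.flatten_append, List.flatten_append] at hTp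
        refine List.Perm.trans ?_ (cont_perm c5 k1 hTp)
        rw [map_flatten_append, map_flatten_append]
        have hperm : (cL.flatten ++ cR.flatten).Perm
            ((((csl ns Lc).map (cont l)).flatten ++ ((csl ns Rc).map (cont l)).flatten) ++
              (pb.flatten ++ pc.flatten)) := (f2.append f4).trans (comb_perm _ _ _ _)
        have h9 := (hperm.append_left (((psl ns ps).map (cont l)).flatten ++ pa.flatten)).trans
          (comb_perm _ _ _ _)
        rw [← List.append_assoc (((psl ns ps).map (cont l)).flatten)] at h9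
        simpa only [List.append_assoc] using h9.append_right T
    · push_cast
      rw [e3, hD', e2, hrq]
      have e4 : cap = (p2 - n2) / 240 := by linarith
      rw [e4]
      ring
  | row W v kk lW lk lk2 q2 =>
    obtain ⟨k1, h⟩ := andB_eq_true.1 h
    obtain ⟨k2, h⟩ := andB_eq_true.1 h
    obtain ⟨k3, h⟩ := andB_eq_true.1 h
    have k2 : 1 ≤ kk := Nat.le_of_ble_eq_true k2
    have k3 : kk ≤ 255 := Nat.le_of_ble_eq_true k3
    obtain ⟨W', rW, h, hW', hw0W⟩ := selW_sound hx hcc a1 h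
    have hkr : (1 : ℝ) ≤ kk := by exact_mod_cast k2
    have hPk : ∀ parts : List (List ℝ),
        List.Forall₂ (fun p (B : ℝ × ℝ × ℝ) => PacksL p B.1 B.2.1) parts Bs →
        ∃ G0 : List ℝ, PacksL G0 w0 hh0 ∧
          ∀ T, (parts.flatten ++ T).Perm (l.drop (nthR 0 ns tm)) → (G0 ++ T).Perm l := by
      intro parts hp
      refine ⟨_, a8 parts hp, fun T hTp => ?_⟩
      rw [List.append_assoc]
      exact cont_perm a3 k1 hTp
    have my := (MR.sq hcx hV hy).mono (b' := 2 ^ 92) (by norm_num [VB])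
    have mW := (MR.sq hcx hV hW').mono (b' := 2 ^ 92) (by norm_num [VB])
    have myW := (MR.out hcx hV hV hy hW').mono (b' := 2 ^ 92) (by norm_num [VB])
    have hkr0 : (0 : ℝ) < kk * (kk + 1) := by positivity
    cases v with
    | zero =>
      obtain ⟨k4, h⟩ := andB_eq_true.1 h
      have k5 := lc_sound hcx hcc (b := 255 * VB) (by norm_num [VB])
        ((hy.smul kk).mono (Nat.mul_le_mul_right _ k3)) (hW'.mono (by norm_num [VB])) k4
      obtain ⟨g, hg⟩ : ∃ g : ℕ, g = Nat.rec (motive := fun _ => ℕ) 30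
        (fun j _ => Nat.mul 120 (Nat.succ j)) (Nat.sub kk 1) := ⟨_, rfl⟩
      have hg1 : kk = 1 → g = 30 := by
        intro h1
        rw [hg, h1]
        rfl
      have hg2 : 2 ≤ kk → g = 120 * (kk - 1) := by
        intro h2
        obtain ⟨j, rfl⟩ : ∃ j, kk = j + 2 := ⟨kk - 2, by omega⟩
        rw [hg]
        rfl
      rw [← hg] at h
      have hgb : g ≤ 2 ^ 16 := by
        rcases k2.lt_or_eq with h2 | h2
        · rw [hg2 h2]
          omega
        · rw [hg1 h2.symm]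
          norm_num
      refine rw2_sound hx hcc (D := 2 * g * Y ^ 2 / (240 * (kk * (kk + 1)))) (by omega) hYd hy hS70 hL hR g2 k2 k3 hW' a2 a4 a5 ((my.smul_le hgb).mono (by norm_num))
        (MR.zero.mono (Nat.zero_le _)) hw0W a6 rfl (by linarith) (by linarith) (by positivity) ?_
        (by field_simp; ring) hPk h
      refine deficit_one k2 (by linarith) hY0 (fun h1 => ?_) fun h2 => ?_
      · rw [hg1 h1, h1]
        push_cast
        nlinarith [sq_nonneg Y]
      · have e : (kk : ℝ) * (kk + 1) * (2 * g * Y ^ 2 / (240 * (kk * (kk + 1)))) =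
            g / 120 * Y ^ 2 := by
          field_simp
          ring
        rw [e, hg2 h2]
        have : ((120 * (kk - 1) : ℕ) : ℝ) / 120 = kk - 1 := by
          push_cast [Nat.cast_sub k2]
          ring
        rw [this]
    | succ v =>
      obtain ⟨k4, h⟩ := andB_eq_true.1 h
      obtain ⟨k6, h⟩ := andB_eq_true.1 h
      have k5 : kk * Y ≤ rW ∧ (kk = 1 → 4 * Y ≤ 3 * rW) := by
        rcases k2.lt_or_eq with h2 | h2
        · obtain ⟨j, rfl⟩ : ∃ j, kk = j + 2 := ⟨kk - 2, by omega⟩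
          have k4 : lc q cx lk (Nat.mul (j + 2) (xr q (tm + 1))) W' = true := k4
          have k5 := lc_sound hcx hcc (b := 255 * VB) (by norm_num [VB])
            ((hy.smul (j + 2)).mono (Nat.mul_le_mul_right _ k3)) (hW'.mono (by norm_num [VB])) k4
          exact ⟨k5, fun h => absurd h (by omega)⟩
        · subst h2
          have k4 : lc q cx lk (Nat.mul 4 (xr q (tm + 1))) (Nat.mul 3 W') = true := k4
          have k5 := lc_sound hcx hcc (b := 4 * VB) (by norm_num [VB]) (hy.smul 4)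
            ((hW'.smul 3).mono (by norm_num [VB])) k4
          push_cast at k5 ⊢
          exact ⟨by linarith, fun _ => k5⟩
      have k7 := lc_sound hcx hcc (b := 256 * VB) (by norm_num [VB])
        (hW'.mono (by norm_num [VB])) ((hy.smul (kk + 1)).mono (Nat.mul_le_mul_right _ (by omega)))
        k6
      push_cast at k7
      have hkk1 : kk + 1 ≤ 256 := by omega
      have hkk2 : 120 * (kk + 2) ≤ 2 ^ 16 :=
        le_trans (Nat.mul_le_mul_left 120 (by omega : kk + 2 ≤ 257)) (by norm_num)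
      have hYW : Y ≤ rW := (le_mul_of_one_le_left hY0 hkr).trans k5.1
      have hpr : 0 ≤ ((kk + 1) * Y - rW) * (rW - Y) := mul_nonneg (by linarith) (by linarith)
      refine rw2_sound hx hcc (D := ((kk + 1) * Y - rW) * (rW - Y) / (kk * (kk + 1))) (by omega) hYd hy
        hS70 hL hR g2 k2 k3 hW' a2 a4 a5 ((myW.smul_le hkk2).mono (by norm_num))
        ((((my.smul_le hkk1).add mW).smul 120).mono (by norm_num)) hw0W a6 rfl (by linarith)
        k5.1 (by positivity) ?_ (by push_cast; field_simp; ring) hPk h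
      refine deficit_two k2 k5.1 k5.2 k7 (le_of_eq ?_)
      field_simp

  | rowv W t pv kk lW lk lt q2 =>
    obtain ⟨k1, h⟩ := andB_eq_true.1 h
    obtain ⟨k2, h⟩ := andB_eq_true.1 h
    obtain ⟨k3, h⟩ := andB_eq_true.1 h
    obtain ⟨k4, h⟩ := andB_eq_true.1 h
    obtain ⟨k5, h⟩ := andB_eq_true.1 h
    have k2 : 1 ≤ pv := Nat.le_of_ble_eq_true k2
    have k3 : pv ≤ 15 := Nat.le_of_ble_eq_true k3
    have k4 : 1 ≤ kk := Nat.le_of_ble_eq_true k4
    have k5 : kk ≤ 255 := Nat.le_of_ble_eq_true k5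
    obtain ⟨W', rW, h, hW', hw0W⟩ := selW_sound hx hcc a1 h
    obtain ⟨k6, h⟩ := andB_eq_true.1 h
    have k6 := lc_sound hcx hcc (b := 255 * VB) (by norm_num [VB])
      ((hy.smul kk).mono (Nat.mul_le_mul_right _ k5)) (hW'.mono (by norm_num [VB])) k6
    have hkr : (1 : ℝ) ≤ kk := by exact_mod_cast k4
    have hPk : ∀ parts : List (List ℝ),
        List.Forall₂ (fun p (B : ℝ × ℝ × ℝ) => PacksL p B.1 B.2.1) parts Bs →
        ∃ G0 : List ℝ, PacksL G0 w0 hh0 ∧
          ∀ T, (parts.flatten ++ T).Perm (l.drop (nthR 0 ns tm + pv)) → (G0 ++ T).Perm l := by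
      intro parts hp
      refine ⟨_, a8 parts hp, fun T hTp => ?_⟩
      rw [List.append_assoc]
      exact cont_perm a3 k1 hTp
    have my := (MR.sq hcx hV hy).mono (b' := 2 ^ 89) (by norm_num [VB])
    have mWy := (MR.out hcx hV hV hW' hy).mono (b' := 2 ^ 89) (by norm_num [VB])
    have hpr : (1 : ℝ) ≤ pv := by exact_mod_cast k2
    obtain ⟨dz, c1, c2, c3, c4, c5, c6, c7, c8, c9⟩ := vconst k4 k5 k2 k3
    obtain ⟨Nn, hNn⟩ : ∃ Nn, Nn = vN kk := ⟨_, rfl⟩
    obtain ⟨Bn, hBn⟩ : ∃ Bn, Bn = vB kk pv := ⟨_, rfl⟩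
    obtain ⟨u, hu⟩ : ∃ u, u = vU kk := ⟨_, rfl⟩
    rw [← hNn, ← hBn, ← hu] at h
    rw [← hNn, ← hu] at c1
    rw [← hNn] at c2 c5
    rw [← hBn] at c3
    rw [← hu] at c4
    rw [← hNn, ← hBn] at c9
    have c1r : (u : ℝ) * Nn = 120 * (kk * kk) := by exact_mod_cast c1
    have huN : u * Nn ≤ 2 ^ 23 := (Nat.mul_le_mul c4 c2).trans (by norm_num)
    have huB : u * Bn ≤ 2 ^ 27 := (Nat.mul_le_mul c4 c3).trans (by norm_num)
    have huB2 : 2 * (u * Bn) ≤ 2 ^ 28 := by omega
    have hNr : (0 : ℝ) < Nn := by exact_mod_cast c5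
    have eN : 240 * ((kk : ℝ) * kk) = 2 * (u * Nn) := by linarith
    cases t with
    | zero =>
      obtain ⟨k7, h⟩ := andB_eq_true.1 h
      have k7 := lc_sound hcx hcc (b := 2 ^ 60) le_rfl
        ((hyS.smul (2 * Bn)).mono (by
          calc 2 * Bn * SG ≤ 2 ^ 21 * SG := Nat.mul_le_mul_right _ (by omega)
            _ ≤ 2 ^ 60 := by norm_num [SG])) ((hW'.smul Nn).mono (by
          calc Nn * VB ≤ 2 ^ 16 * VB := Nat.mul_le_mul_right _ c2
            _ ≤ 2 ^ 60 := by norm_num [VB])) k7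
      push_cast at k7
      refine rv2_sound hx hcc (by omega) hYd k2 hS70 hL hR g2 k4 k5 hW' a2 a4 a5
        ((mWy.smul_le huN).mono (by norm_num)) ((my.smul_le huB).mono (by norm_num)) hw0W a6 rfl
        (by linarith) k6 c6 c7 c8 c9 (vphi (τ := Y) hNr k7) ?_ hPk h
      rw [eN]
      push_cast
      field_simp
      ring
    | succ i =>
      obtain ⟨k7, h⟩ := andB_eq_true.1 h
      have ht := VR.san (q := q) (δ := dlt q ns l) (vs i)
      obtain ⟨τ, hτ⟩ : ∃ τ, τ = lin q (dlt q ns l) (se (vs i)) := ⟨_, rfl⟩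
      rw [← hτ] at ht
      have k7 := lc_sound hcx hcc (b := 2 ^ 60) le_rfl
        ((ht.smul (2 * Bn)).mono (by
          calc 2 * Bn * 2 ^ 36 ≤ 2 ^ 21 * 2 ^ 36 := Nat.mul_le_mul_right _ (by omega)
            _ ≤ 2 ^ 60 := by norm_num)) ((hW'.smul Nn).mono (by
          calc Nn * VB ≤ 2 ^ 16 * VB := Nat.mul_le_mul_right _ c2
            _ ≤ 2 ^ 60 := by norm_num [VB])) k7
      push_cast at k7
      have mt := (MR.sq hcx h28 ht).mono (b' := 2 ^ 80) (by norm_num)
      have mty := (MR.out hcx h28 hV ht hy).mono (b' := 2 ^ 88) (by norm_num [VB])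
      refine rv2_sound hx hcc (by omega) hYd k2 hS70 hL hR g2 k4 k5 hW' a2 a4 a5
        (((mWy.smul_le huN).add (mt.smul_le huB)).mono (by norm_num))
        ((mty.smul_le huB2).mono (by norm_num)) hw0W a6 rfl
        (by linarith) k6 c6 c7 c8 c9 (vphi hNr k7) ?_ hPk h
      rw [eN]
      push_cast
      field_simp
      ring

theorem leafGo6_sound (hx : Lx q ns cuts l) {cx : CX} (hcc : CXok q (dlt q ns l) cx)
    (hS70 : MR q (dlt q ns l) (2 ^ 70) cx.S2 (2 * sumsq l)) {M : ℝ} (hM : ∀ a b, PacksL l a b → M < a * b)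
    {k : ℕ → ℕ → ℕ → Bool} (tes : List TE6) :
    ∀ (aL aR Lam : ℕ) (rL rR : ℝ), MR q (dlt q ns l) AB aL rL → MR q (dlt q ns l) AB aR rR →
      2 * Lam * M ≤ rL - rR → (0 < Lam → 2 * Lam * M < rL - rR) →
      leafGo6 q ns cx tes aL aR Lam k = true →
      ∃ (aL' aR' Lam' : ℕ) (rL' rR' : ℝ), k aL' aR' Lam' = true ∧ MR q (dlt q ns l) AB aL' rL' ∧
        MR q (dlt q ns l) AB aR' rR' ∧ (0 < Lam' → 2 * Lam' * M < rL' - rR') := by
  induction tes with
  | nil =>
    intro aL aR Lam rL rR h1 h2 _ h4 h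
    exact ⟨aL, aR, Lam, rL, rR, h, h1, h2, h4⟩
  | cons te tes ih =>
    intro aL aR Lam rL rR h1 h2 h3 h4 h
    have h : te6 q ns cx te aL aR Lam (fun aL aR Lam =>
      leafGo6 q ns cx tes aL aR Lam k) = true := h
    obtain ⟨aL', aR', E, rL', rR', A, h, ⟨a, b, h6, h7⟩, h8, h9, h10⟩ :=
      te6_sound hx hcc hS70 te h1 h2 h
    have hMA := (hM a b h6).trans_le h7
    have hE : (0 : ℝ) ≤ E := Nat.cast_nonneg _
    have hEM : E * M ≤ E * A := mul_le_mul_of_nonneg_left hMA.le hE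
    refine ih aL' aR' (Lam + E) rL' rR' h8 h9 ?_ ?_ h
    · rw [h10]
      push_cast
      nlinarith
    · intro hpos
      rw [h10]
      push_cast
      rcases Nat.eq_zero_or_pos Lam with h0 | h0
      · have hE' : (0 : ℝ) < E := by
          have : 0 < E := by omega
          exact_mod_cast this
        have := mul_lt_mul_of_pos_left hMA hE'
        nlinarith
      · have := h4 h0
        nlinarith

theorem Lx.cxok (hx : Lx q ns cuts l) :
    CXok q (dlt q ns l) (CX.mk cuts (sqQ q (xr q 0)) (ngS q ns (Nat.sub q 1))) := by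
  have hq2 := hx.hq
  refine ⟨hx.hc, _, _, hx.s2.mono (by norm_num), ngS_val (l := l) hx.hn hx.ctx (n := q - 1)
    (by omega), ?_⟩
  linarith [T'_nonneg hx.hn hx.sp (n := q - 1) (by omega)]

/-- **Soundness of the check of a leaf.** -/
theorem leaf6_sound (hx : Lx q ns cuts l) {cn cd mu : ℕ} {tes : List TE6} {it : List QE}
    (hcn : cn ≤ 2 ^ 12) (hcd : cd ≤ 2 ^ 12) (hcd' : 0 < cd)
    (h : leaf6 cn cd q ns cuts tes mu it = true) : Good (cn / cd) l := by
  by_contra hcon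
  obtain ⟨M, hMd⟩ : ∃ M : ℝ, M = cn / cd * sumsq l := ⟨_, rfl⟩
  have hM : ∀ a b, PacksL l a b → M < a * b := by
    intro a b hab
    by_contra hle
    rw [not_lt, hMd] at hle
    exact hcon ⟨a, b, hab, hle⟩
  have hcx := hx.ctx
  have h0 := (MR.zero (q := q) (δ := dlt q ns l)).mono (Nat.zero_le AB)
  obtain ⟨aL, aR, Lam, rL, rR, h, h1, h2, h3⟩ := leafGo6_sound hx hx.cxok (hx.s2.mono (by norm_num)) hM tes 0 0 0 0 0 h0 h0
    (by simp) (fun h => absurd h (lt_irrefl _)) h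
  obtain ⟨g4, h⟩ := andB_eq_true.1 h
  obtain ⟨g5, h⟩ := andB_eq_true.1 h
  obtain ⟨g6, h⟩ := andB_eq_true.1 h
  have g4 : 1 ≤ Lam := Nat.le_of_ble_eq_true g4
  have g5 : Lam ≤ 2 ^ 70 := Nat.le_of_ble_eq_true g5
  have g6 : mu ≤ 2 ^ 80 := Nat.le_of_ble_eq_true g6
  have hS := hx.s2
  have hq2 := hx.hq
  have hq64 := hx.hq'
  have hNm60 := ngS_val (l := l) hx.hn hcx (n := q - 1) (by omega)
  have hSN := T'_nonneg hx.hn hx.sp (n := q - 1) (by omega)
  have k1 : cd * AB + mu * 2 ^ 57 ≤ FB + 0 * IB := by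
    calc cd * AB + mu * 2 ^ 57 ≤ 2 ^ 12 * AB + 2 ^ 80 * 2 ^ 57 :=
        Nat.add_le_add (Nat.mul_le_mul_right _ hcd) (Nat.mul_le_mul_right _ g6)
      _ ≤ FB + 0 * IB := by norm_num [AB, FB]
  have k2 : cn * Lam * 2 ^ 57 + (mu * 2 ^ 70 + cd * AB) ≤ FB + 0 * IB := by
    calc cn * Lam * 2 ^ 57 + (mu * 2 ^ 70 + cd * AB)
        ≤ 2 ^ 12 * 2 ^ 70 * 2 ^ 57 + (2 ^ 80 * 2 ^ 70 + 2 ^ 12 * AB) :=
        Nat.add_le_add (Nat.mul_le_mul_right _ (Nat.mul_le_mul hcn g5))
          (Nat.add_le_add (Nat.mul_le_mul_right _ g6) (Nat.mul_le_mul_right _ hcd))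
      _ ≤ FB + 0 * IB := by norm_num [AB, FB]
  have h7 := qcGo_sound hcx hx.hc it (by norm_num) (((h1.smul cd).add (hS.smul mu)).mono k1)
    (((hS.smul (cn * Lam)).add ((hNm60.smul mu).add (h2.smul cd))).mono k2) h
  have h8 := h3 (by omega)
  have hcdr : (0 : ℝ) < cd := by exact_mod_cast hcd'
  have hLr : (0 : ℝ) < Lam := by exact_mod_cast g4
  have hmu : (0 : ℝ) ≤ mu := Nat.cast_nonneg _
  have h9 : 0 ≤ mu * (2 * sumsq l - 2 * gS ns l (q - 1)) :=
    mul_nonneg hmu (by linarith)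
  have h10 : cd * (2 * Lam * M) < cd * (rL - rR) := mul_lt_mul_of_pos_left h8 hcdr
  have h11 : cd * M = cn * sumsq l := by
    rw [hMd]
    field_simp
  have h12 : cd * (2 * Lam * M) = 2 * Lam * (cn * sumsq l) := by
    rw [← h11]
    ring
  push_cast at h7
  nlinarith

/-- the check that a cell is empty -/
noncomputable def empty6 (q : ℕ) (ns : List ℕ) (cuts : List Cu) (c : QCt) : Bool :=
  qc q (CX.mk cuts (sqQ q (xr q 0)) (ngS q ns (Nat.sub q 1))) c (rep K (Nat.mul q q)) 0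

theorem empty6_sound (hx : Lx q ns cuts l) {c : QCt} (h : empty6 q ns cuts c = true) : False := by
  have hcx := hx.ctx
  have hq2 := hx.hq
  have h1 := qc_sound hcx hx.cxok (b := 1) (by norm_num) (MR.one (by omega))
    (MR.zero.mono (Nat.zero_le _)) h
  have := hx.one_pos
  have : 0 < (lin q (dlt q ns l) fun _ => 1) ^ 2 := by positivity
  linarith

end sound

end Pool.Agent.MOS.V6
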