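import Pool.Agent.Lib.MP_b520b2_co.V6.Tree

/-!
# Pieces and columns
-/

namespace Pool.Agent.MOS.V6

open Finset

/-- an earlier piece (`0` is the last one), with multiples of the cuts, for the maximum of the
earlier edges and for the edge of this piece -/
inductive Ed where
  | mk (d : ℕ) (al be : List Ml) : Ed

/-- a piece: the earlier pieces to the left of it and below it, and the tree, or a block for the tail
whose sides are the differences of two vectors -/
inductive P6 where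
  | mk (px py : List Ed) (t : T6) : P6
  | bd (px py : List Ed) (a1 a2 b1 b2 : ℕ) (bt : BT) (c c' : LCt) : P6

/-- an entry of width `w` of a table -/
def gp (w R d : ℕ) : ℕ :=
  Nat.land (Nat.shiftRight R (Nat.mul w d)) (Nat.sub (Nat.pow 2 w) 1)

/-- an entry of width `64` of a table -/
def gA (A d : ℕ) : ℕ := Nat.land (Nat.shiftRight A (Nat.mul 64 d)) 18446744073709551615

/-- a new entry of width `w` -/
def cp (w x R : ℕ) : ℕ := Nat.add x (Nat.shiftLeft R w)

theorem gA_eq (A d : ℕ) : gA A d = gp 64 A d := rfl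

theorem gp_eq (w R d : ℕ) : gp w R d = R / 2 ^ (w * d) % 2 ^ w := by
  have h : gp w R d = (R >>> (w * d)) &&& (2 ^ w - 1) := rfl
  rw [h, Nat.and_two_pow_sub_one_eq_mod, Nat.shiftRight_eq_div_pow]

theorem cp_eq (w x R : ℕ) : cp w x R = x + R * 2 ^ w := by
  have h : cp w x R = x + R <<< w := rfl
  rw [h, Nat.shiftLeft_eq]

theorem gp_zero_left (w d : ℕ) : gp w 0 d = 0 := by
  rw [gp_eq, Nat.zero_div, Nat.zero_mod]

theorem gp_cp_zero {w x : ℕ} (hx : x < 2 ^ w) (R : ℕ) : gp w (cp w x R) 0 = x := by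
  rw [gp_eq, cp_eq, mul_zero, pow_zero, Nat.div_one, Nat.add_mul_mod_self_right,
    Nat.mod_eq_of_lt hx]

theorem gp_cp_succ {w x : ℕ} (hx : x < 2 ^ w) (R d : ℕ) : gp w (cp w x R) (d + 1) = gp w R d := by
  rw [gp_eq, gp_eq, cp_eq, Nat.mul_add, Nat.mul_one, Nat.add_comm (w * d) w, pow_add,
    ← Nat.div_div_eq_div_mul, Nat.add_mul_div_right _ _ (Nat.two_pow_pos w),
    Nat.div_eq_of_lt hx, Nat.zero_add]

/-- the maximum of the edges `px` and of the given vector -/
noncomputable def maxE (q : ℕ) (cx : CX) (R : ℕ) (px : List Ed) :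
    ℕ → (ℕ → Bool) → Bool :=
  List.rec (motive := fun _ => ℕ → (ℕ → Bool) → Bool) (fun cur k => k cur) (fun e _ ih cur k =>
    Ed.rec (motive := fun _ => Bool) (fun d al be => adc q cx al cur (fun a =>
      adc q cx be (gp (Nat.mul K q) R d) (fun b => ih (mx K (mk1 q) a b) k))) e) px

/-- the union of the sets `px` of the table `A` -/
noncomputable def orE (A : ℕ) (px : List Ed) : ℕ :=
  List.rec (motive := fun _ => ℕ) 0 (fun e _ ih =>
    Ed.rec (motive := fun _ => ℕ) (fun d _ _ => Nat.lor (gA A d) ih) e) px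

/-- evaluation of a piece with a tree -/
noncomputable def spA (q tm y : ℕ) (nf : ℕ → ℕ) (cx : CX) (vs : ℕ → ℕ) (b RX TY AX BY : ℕ)
    (acc P N : ℕ) (r : ℕ → ℕ → ℕ → ℕ → ℕ → ℕ → ℕ → (ℕ → ℕ → ℕ → ℕ → ℕ → Bool) → Bool)
    (k : ℕ → ℕ → ℕ → ℕ → ℕ → Bool) (px py : List Ed) (t : T6) : Bool :=
  andB (Nat.beq (Nat.succ (Nat.lor (orE AX px) (orE BY py))) b)
    (maxE q cx RX px 0 (fun x => maxE q cx TY py 0 (fun z =>
      ev q tm y nf cx vs t acc P N (fun w h acc P N =>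
        vck q (Nat.add x w) (fun x' => vck q (Nat.add z h) (fun z' =>
          r x' z' (Nat.lor (orE AX px) b) (Nat.lor (orE BY py) b) acc P N k))))))

/-- evaluation of a piece which is a block -/
noncomputable def spB (q y : ℕ) (cx : CX) (vs : ℕ → ℕ) (b RX TY AX BY : ℕ)
    (acc P N : ℕ) (r : ℕ → ℕ → ℕ → ℕ → ℕ → ℕ → ℕ → (ℕ → ℕ → ℕ → ℕ → ℕ → Bool) → Bool)
    (k : ℕ → ℕ → ℕ → ℕ → ℕ → Bool) (px py : List Ed) (a1 a2 b1 b2 : ℕ) (bt : BT)
    (c c' : LCt) : Bool :=
  andB (Nat.beq (Nat.succ (Nat.lor (orE AX px) (orE BY py))) b)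
    (maxE q cx RX px 0 (fun x => maxE q cx TY py 0 (fun z =>
      capH q y cx bt c c' (sn q (vs a1)) (sn q (vs a2))
        (sn q (vs b1)) (sn q (vs b2)) P N (fun P N =>
        vck q (tsub q (Nat.add x (sn q (vs a1))) (sn q (vs a2))) (fun x' =>
          vck q (tsub q (Nat.add z (sn q (vs b1))) (sn q (vs b2))) (fun z' =>
            r x' z' (Nat.lor (orE AX px) b) (Nat.lor (orE BY py) b) acc P N k))))))

/-- evaluation of a list of pieces -/
noncomputable def sp6 (q tm y : ℕ) (nf : ℕ → ℕ) (cx : CX) (vs : ℕ → ℕ) (wx wy : List Ed)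
    (ps : List P6) : ℕ → ℕ → ℕ → ℕ → ℕ → ℕ → ℕ → ℕ →
      (ℕ → ℕ → ℕ → ℕ → ℕ → Bool) → Bool :=
  List.rec (motive := fun _ => ℕ → ℕ → ℕ → ℕ → ℕ → ℕ → ℕ → ℕ →
      (ℕ → ℕ → ℕ → ℕ → ℕ → Bool) → Bool)
    (fun b RX TY AX BY acc P N k => andB (Nat.beq (Nat.succ (orE AX wx)) b)
      (andB (Nat.beq (Nat.succ (orE BY wy)) b) (maxE q cx RX wx 0 (fun w =>
        maxE q cx TY wy 0 (fun h => k w h acc P N)))))
    (fun p _ ih b RX TY AX BY acc P N k => andB (Nat.ble b 9223372036854775808)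
      (P6.rec (motive := fun _ => Bool)
        (spA q tm y nf cx vs b RX TY AX BY acc P N (fun x' z' A B => ih (Nat.mul 2 b)
          (cp (Nat.mul K q) x' RX) (cp (Nat.mul K q) z' TY) (cp 64 A AX) (cp 64 B BY)) k)
        (spB q y cx vs b RX TY AX BY acc P N (fun x' z' A B => ih (Nat.mul 2 b)
          (cp (Nat.mul K q) x' RX) (cp (Nat.mul K q) z' TY) (cp 64 A AX) (cp 64 B BY)) k)
        p)) ps

/-- the squares of a list of pieces -/
def psl (ns : List ℕ) : List P6 → List ℕ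
  | [] => []
  | .mk _ _ t :: ps => t.sl ns ++ psl ns ps
  | .bd _ _ _ _ _ _ _ _ _ :: ps => psl ns ps

/-- The tables `R`, `A` describe the edges `e`; `k` is the number of pieces. -/
def Tab6 (q : ℕ) (δ : ℕ → ℝ) (k : ℕ) (R A : ℕ) (e : ℕ → ℝ) : Prop :=
  (∀ d < k, VR q δ VB (gp (Nat.mul K q) R d) (e d)) ∧
  (∀ d, k ≤ d → gp (Nat.mul K q) R d = 0 ∧ gA A d = 0) ∧
  ∀ d < k, ∀ t, (gA A d).testBit t = true → t < k ∧ e (k - 1 - t) ≤ e d

section tab

variable {q k : ℕ} {δ : ℕ → ℝ} {cx : CX} {R A : ℕ} {e : ℕ → ℝ}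

theorem maxE_ok (hx : Ctx q δ) (hc : CXok q δ cx) (h : Tab6 q δ k R A e)
    (px : List Ed) : ∀ {kk : ℕ → Bool} {cur : ℕ} {rc : ℝ}, VR q δ VB cur rc →
      maxE q cx R px cur kk = true →
      ∃ v r, kk v = true ∧ VR q δ VB v r ∧ rc ≤ r ∧
        ∀ d al be, Ed.mk d al be ∈ px → d < k → e d ≤ r := by
  induction px with
  | nil =>
    intro kk cur rc hcur h
    exact ⟨cur, rc, h, hcur, le_rfl, by simp⟩
  | cons p px ih =>
    obtain ⟨d, al, be⟩ := p
    intro kk cur rc hcur hk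
    have hk : adc q cx al cur (fun a => adc q cx be (gp (Nat.mul K q) R d) (fun b =>
      maxE q cx R px (mx K (mk1 q) a b) kk)) = true := hk
    obtain ⟨rd, h1, h2⟩ : ∃ rd, VR q δ VB (gp (Nat.mul K q) R d) rd ∧ (d < k → e d = rd) := by
      by_cases hd : d < k
      · exact ⟨_, h.1 d hd, fun _ => rfl⟩
      · refine ⟨0, ?_, fun h => absurd h hd⟩
        rw [(h.2.1 d (not_lt.1 hd)).1]
        exact VR.zero.mono (Nat.zero_le _)
    obtain ⟨a, ra, hk, ha, hra⟩ := adc_sound hx hc hcur hk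
    obtain ⟨b, rb, hk, hb, hrb⟩ := adc_sound hx hc h1 hk
    obtain ⟨s, hs, hs1, hs2⟩ := VR.mx hx (by norm_num [VB, K]) ha hb
    obtain ⟨v, r, hk, hv, hr, hrp⟩ := ih hs hk
    refine ⟨v, r, hk, hv, by linarith, fun d' al' be' hd' hdk => ?_⟩
    rcases List.mem_cons.1 hd' with hd' | hd'
    · injection hd' with e1 e2
      subst e1
      linarith [h2 hdk]
    · exact hrp d' al' be' hd' hdk

theorem orE_ok (h : Tab6 q δ k R A e) (px : List Ed) (t : ℕ)
    (ht : (orE A px).testBit t = true) :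
    t < k ∧ ∃ d al be, Ed.mk d al be ∈ px ∧ d < k ∧ e (k - 1 - t) ≤ e d := by
  induction px with
  | nil =>
    have : orE A [] = 0 := rfl
    rw [this, Nat.zero_testBit] at ht
    exact absurd ht (by simp)
  | cons p px ih =>
    obtain ⟨d, al, be⟩ := p
    have e1 : orE A (.mk d al be :: px) = gA A d ||| orE A px := rfl
    rw [e1, Nat.testBit_or, Bool.or_eq_true] at ht
    rcases ht with ht | ht
    · have hd : d < k := by
        by_contra hd
        rw [(h.2.1 d (not_lt.1 hd)).2, Nat.zero_testBit] at ht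
        exact absurd ht (by simp)
      obtain ⟨h1, h2⟩ := h.2.2 d hd t ht
      exact ⟨h1, d, al, be, by simp, hd, h2⟩
    · obtain ⟨h1, d', al', be', h2, h3⟩ := ih ht
      exact ⟨h1, d', al', be', List.mem_cons_of_mem _ h2, h3⟩

/-- a new piece -/
theorem Tab6.cons (h : Tab6 q δ k R A e) (hk : k < 64) {px : List Ed} {v : ℕ} {x w : ℝ}
    (hv : VR q δ VB v (x + w)) (h3 : ∀ d al be, Ed.mk d al be ∈ px → d < k → e d ≤ x)
    (hw0 : 0 ≤ w) :
    Tab6 q δ (k + 1) (cp (Nat.mul K q) v R) (cp 64 (orE A px ||| 2 ^ k) A)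
      (fun d => if d = 0 then x + w else e (d - 1)) := by
  have hv2 : v < 2 ^ Nat.mul K q := by
    obtain ⟨f, rfl, hf, _⟩ := hv
    exact digs_lt fun i hi => lt_of_le_of_lt (hf i hi) (by norm_num [VB, K])
  have hm : orE A px ||| 2 ^ k < 2 ^ 64 := by
    refine lt_of_lt_of_le (Nat.lt_pow_two_of_testBit _ fun t ht => ?_)
      (Nat.pow_le_pow_right (by norm_num) hk : 2 ^ (k + 1) ≤ 2 ^ 64)
    rw [Nat.testBit_or, Bool.or_eq_false_iff, Nat.testBit_two_pow]
    refine ⟨?_, by simp; omega⟩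
    by_contra hcon
    rw [Bool.not_eq_false] at hcon
    have := (orE_ok h px t hcon).1
    omega
  refine ⟨fun d hd => ?_, fun d hd => ?_, fun d hd t ht => ?_⟩
  · cases d with
    | zero =>
      rw [gp_cp_zero hv2]
      exact hv
    | succ d =>
      rw [gp_cp_succ hv2]
      exact h.1 d (by omega)
  · obtain ⟨d, rfl⟩ : ∃ d', d = d' + 1 := ⟨d - 1, by omega⟩
    rw [gp_cp_succ hv2, gA_eq, gp_cp_succ hm, ← gA_eq]
    exact h.2.1 d (by omega)
  · cases d with
    | zero =>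
      rw [gA_eq, gp_cp_zero hm] at ht
      rw [Nat.testBit_or, Bool.or_eq_true] at ht
      rcases ht with ht | ht
      · obtain ⟨g1, d, al, be, g2, g3, g4⟩ := orE_ok h px t ht
        refine ⟨by omega, ?_⟩
        dsimp only
        rw [if_neg (by omega), if_pos rfl, show k + 1 - 1 - t - 1 = k - 1 - t by omega]
        have := h3 d al be g2 g3
        linarith
      · rw [Nat.testBit_two_pow] at ht
        have : k = t := by simpa using ht
        subst this
        exact ⟨by omega, by simp⟩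
    | succ d =>
      rw [gA_eq, gp_cp_succ hm, ← gA_eq] at ht
      obtain ⟨g1, g2⟩ := h.2.2 d (by omega) t ht
      refine ⟨by omega, ?_⟩
      dsimp only
      rw [if_neg (by omega), if_neg (by omega), show k + 1 - 1 - t - 1 = k - 1 - t by omega]
      simpa using g2

end tab

/-- what the evaluation of a list of pieces guarantees -/
def SOK (q : ℕ) (δ : ℕ → ℝ) (Y : ℝ) (cont : ℕ → List ℝ) (sl S : List ℕ) (rs : List Rect)
    (rp rn : ℝ) (k : ℕ → ℕ → ℕ → ℕ → ℕ → Bool) : Prop :=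
  ∃ (W H acc P N : ℕ) (w h p n : ℝ) (Bs : List (ℝ × ℝ × ℝ)), k W H acc P N = true ∧
    VR q δ VB W w ∧ VR q δ VB H h ∧ AccOK acc (S ++ sl) ∧ MR q δ MB P p ∧ MR q δ MB N n ∧
    (∀ B ∈ Bs, BOK Y B) ∧ 240 * (Bs.map fun B => B.2.2).sum = (p - rp) - (n - rn) ∧
    ∀ cs : List (List ℝ), List.Forall₂ (fun c (r : Rect) => PacksL c r.w r.h) cs rs →
      ∀ parts, PartsOK parts Bs →
        PacksL (cs.flatten ++ ((sl.map cont).flatten ++ parts.flatten)) w h

section sound

variable {q tm y : ℕ} {ns : List ℕ} {δ : ℕ → ℝ} {cx : CX} {vs : ℕ → ℕ} {nf : ℕ → ℕ} {Y : ℝ}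
  {X : ℕ → ℝ} {cont : ℕ → List ℝ}

theorem sp6_sound (hx : Ctx q δ) (hc : CXok q δ cx) (hy : VR q δ VB y Y)
    (htm : tm < q) (hX : ∀ i < q, VR q δ VB (xr q i) (X i))
    (hnf : ∀ i < tm, nf i = nthR 0 ns i)
    (hsq : ∀ i c, i < tm → PacksL (cont (nthR 0 ns i + c)) (X (i + 1)) (X (i + 1))) (wx wy : List Ed) (ps : List P6) :
    ∀ (n : ℕ) (rs : List Rect) (RX TY AX BY : ℕ) (S : List ℕ) (acc P N : ℕ) (rp rn : ℝ)
      (k : ℕ → ℕ → ℕ → ℕ → ℕ → Bool), rs.length = n → rs.Pairwise Rect.Sep →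
      (∀ r ∈ rs, 0 ≤ r.x ∧ 0 ≤ r.y ∧ 0 ≤ r.w ∧ 0 ≤ r.h) →
      (∃ e, Tab6 q δ n RX AX e ∧ ∀ d < n, ∀ r, rs[d]? = some r → r.x + r.w = e d) →
      (∃ e, Tab6 q δ n TY BY e ∧ ∀ d < n, ∀ r, rs[d]? = some r → r.y + r.h = e d) →
      AccOK acc S → MR q δ MB P rp → MR q δ MB N rn →
      sp6 q tm y nf cx vs wx wy ps (2 ^ n) RX TY AX BY acc P N k = true →
      SOK q δ Y cont (psl ns ps) S rs rp rn k := by
  induction ps with
  | nil =>
    rintro n rs RX TY AX BY S acc P N rp rn k hn hsep hr ⟨ex, hx1, hx2⟩ ⟨ey, hy1, hy2⟩ hacc hP hN h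
    obtain ⟨g1, h⟩ := andB_eq_true.1 h
    obtain ⟨g2, h⟩ := andB_eq_true.1 h
    have g1 : orE AX wx + 1 = 2 ^ n := Nat.eq_of_beq_eq_true g1
    have g2 : orE BY wy + 1 = 2 ^ n := Nat.eq_of_beq_eq_true g2
    have hz0 : VR q δ VB 0 0 := VR.zero.mono (Nat.zero_le _)
    obtain ⟨W, w, h, w1, _, w2⟩ := maxE_ok hx hc hx1 wx hz0 h
    obtain ⟨H, hh, h, h1, _, h2⟩ := maxE_ok hx hc hy1 wy hz0 h
    refine ⟨W, H, acc, P, N, w, hh, rp, rn, [], h, w1, h1, by simpa [psl] using hacc, hP, hN,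
      by simp, by simp, ?_⟩
    intro cs hcs parts k2
    obtain rfl := List.forall₂_nil_right_iff.1 k2
    simp only [psl, List.map_nil, List.flatten_nil, List.append_nil]
    refine packs_rects rs cs hcs hsep fun r hrr => ?_
    obtain ⟨r1, r2, r3, r4⟩ := hr r hrr
    obtain ⟨d, hd⟩ := List.mem_iff_getElem?.1 hrr
    have hdn : d < n := by
      rw [← hn]
      exact (List.getElem?_eq_some_iff.1 hd).1
    refine ⟨r1, ?_, r2, ?_⟩
    · obtain ⟨t1, d', al', be', t2, t3, t4⟩ := orE_ok hx1 wx (n - 1 - d)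
        (testBit_pow_sub_one g1 (by omega))
      rw [show n - 1 - (n - 1 - d) = d by omega] at t4
      rw [hx2 d hdn r hd]
      exact t4.trans (w2 d' al' be' t2 t3)
    · obtain ⟨t1, d', al', be', t2, t3, t4⟩ := orE_ok hy1 wy (n - 1 - d)
        (testBit_pow_sub_one g2 (by omega))
      rw [show n - 1 - (n - 1 - d) = d by omega] at t4
      rw [hy2 d hdn r hd]
      exact t4.trans (h2 d' al' be' t2 t3)
  | cons p ps ih =>
    rintro n rs RX TY AX BY S acc P N rp rn k hn hsep hr ⟨ex, hx1, hx2⟩ ⟨ey, hy1, hy2⟩ hacc hP hN h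
    have hz0 : VR q δ VB 0 0 := VR.zero.mono (Nat.zero_le _)
    obtain ⟨gb, h⟩ := andB_eq_true.1 h
    have hn64 : n < 64 := by
      have gb : 2 ^ n ≤ 2 ^ 63 := Nat.le_of_ble_eq_true gb
      have := (Nat.pow_le_pow_iff_right (by norm_num : 1 < 2)).1 gb
      omega
    obtain ⟨px, py, x', z', acc1, P1, N1, rx, rz, w, hh, p1, n1, Bs, sl, g1, h, hxw, hzh, hX0, hZ0,
        hW0, hH0, x3, z3, a3, a4, a5, a6, a7, a8, hsl⟩ :
        ∃ (px py : List Ed) (x' z' acc1 P1 N1 : ℕ) (rx rz w hh p1 n1 : ℝ)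
          (Bs : List (ℝ × ℝ × ℝ)) (sl : List ℕ),
          (orE AX px ||| orE BY py) + 1 = 2 ^ n ∧
          sp6 q tm y nf cx vs wx wy ps (Nat.mul 2 (2 ^ n)) (cp (Nat.mul K q) x' RX)
            (cp (Nat.mul K q) z' TY) (cp 64 (orE AX px ||| 2 ^ n) AX)
            (cp 64 (orE BY py ||| 2 ^ n) BY) acc1 P1 N1 k = true ∧
          VR q δ VB x' (rx + w) ∧ VR q δ VB z' (rz + hh) ∧ 0 ≤ rx ∧ 0 ≤ rz ∧ 0 ≤ w ∧ 0 ≤ hh ∧
          (∀ d al be, Ed.mk d al be ∈ px → d < n → ex d ≤ rx) ∧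
          (∀ d al be, Ed.mk d al be ∈ py → d < n → ey d ≤ rz) ∧
          AccOK acc1 (S ++ sl) ∧ MR q δ MB P1 p1 ∧ MR q δ MB N1 n1 ∧
          (∀ B ∈ Bs, BOK Y B) ∧ 240 * (Bs.map fun B => B.2.2).sum = (p1 - rp) - (n1 - rn) ∧
          (∀ parts, PartsOK parts Bs → PacksL ((sl.map cont).flatten ++ parts.flatten) w hh) ∧
          psl ns (p :: ps) = sl ++ psl ns ps := by
      cases p with
      | mk px py t =>
        obtain ⟨g1, h⟩ := andB_eq_true.1 h
        have g1 : (orE AX px ||| orE BY py) + 1 = 2 ^ n := Nat.eq_of_beq_eq_true g1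
        obtain ⟨x, rx, h, x1, _, x3⟩ := maxE_ok hx hc hx1 px hz0 h
        obtain ⟨z, rz, h, z1, _, z3⟩ := maxE_ok hx hc hy1 py hz0 h
        obtain ⟨W, H, acc1, P1, N1, w, hh, p1, n1, Bs, h, a1, a2, a3, a4, a5, a6, a7, a8⟩ :=
          ev_sound hx hc hy htm hX hnf hsq t S acc P N rp rn _ hacc hP hN h
        obtain ⟨hxw, h⟩ := vck_sound (by norm_num [VB, K]) (x1.add a1) h
        obtain ⟨hzh, h⟩ := vck_sound (by norm_num [VB, K]) (z1.add a2) h
        exact ⟨px, py, _, _, acc1, P1, N1, rx, rz, w, hh, p1, n1, Bs, t.sl ns, g1, h, hxw, hzh,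
          x1.nonneg hx, z1.nonneg hx, a1.nonneg hx, a2.nonneg hx, x3, z3, a3, a4, a5, a6, a7, a8,
          rfl⟩
      | bd px py ia1 ia2 ib1 ib2 bt c c' =>
        obtain ⟨g1, h⟩ := andB_eq_true.1 h
        have g1 : (orE AX px ||| orE BY py) + 1 = 2 ^ n := Nat.eq_of_beq_eq_true g1
        obtain ⟨x, rx, h, x1, _, x3⟩ := maxE_ok hx hc hx1 px hz0 h
        obtain ⟨z, rz, h, z1, _, z3⟩ := maxE_ok hx hc hy1 py hz0 h
        have h28 : (2 : ℕ) ^ 36 ≤ VB := by norm_num [VB]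
        have hA1 := (VR.san (q := q) (δ := δ) (vs ia1)).mono h28
        have hA2 := (VR.san (q := q) (δ := δ) (vs ia2)).mono h28
        have hB1 := (VR.san (q := q) (δ := δ) (vs ib1)).mono h28
        have hB2 := (VR.san (q := q) (δ := δ) (vs ib2)).mono h28
        obtain ⟨P1, N1, p1, n1, f, h, h2, h3, h4, h5, h6, h7⟩ :=
          capH_sound hx hc hy hA1 hA2 hB1 hB2 hP hN h
        have hK : VB + VB < 2 ^ (K - 1) := by norm_num [VB, K]
        have hK' : VB < 2 ^ (K - 1) := by norm_num [VB, K]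
        have hK2 : VB + VB < 2 ^ K := by norm_num [VB, K]
        obtain ⟨sx, hsx, hsx'⟩ := VR.tsub hx hK hK' (x1.add hA1) hA2
        obtain ⟨sz, hsz, hsz'⟩ := VR.tsub hx hK hK' (z1.add hB1) hB2
        obtain ⟨hxw, h⟩ := vck_sound hK2 hsx h
        obtain ⟨hzh, h⟩ := vck_sound hK2 hsz h
        refine ⟨px, py, _, _, acc, P1, N1, rx, rz, sx - rx, sz - rz, p1, n1,
          [(lin q δ (se (vs ia1)) - lin q δ (se (vs ia2)),
            lin q δ (se (vs ib1)) - lin q δ (se (vs ib2)), f)], [], g1, h,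
          by rwa [add_sub_cancel], by rwa [add_sub_cancel], x1.nonneg hx, z1.nonneg hx,
          by linarith, by linarith, x3, z3, by simpa using hacc, h2, h3, ?_, by simpa using h5,
          ?_, rfl⟩
        · intro B hB
          rw [List.mem_singleton] at hB
          rw [hB]
          exact h4
        · intro parts hp
          rw [PartsOK, List.forall₂_cons_right_iff] at hp
          obtain ⟨r, rs', g8, g9, rfl⟩ := hp
          obtain rfl := List.forall₂_nil_right_iff.1 g9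
          have g8 : PacksL r _ _ := g8
          simpa using g8.mono (by linarith) (by linarith)
    have e2 : Nat.mul 2 (2 ^ n) = 2 ^ (n + 1) := by
      show 2 * 2 ^ n = 2 ^ (n + 1)
      rw [pow_succ]
      ring
    rw [e2] at h
    obtain ⟨r0, hr0⟩ : ∃ r0 : Rect, r0 = ⟨rx, rz, w, hh⟩ := ⟨_, rfl⟩
    have s1 : ∀ r ∈ rs, r0.Sep r := by
      intro r hrr
      obtain ⟨d, hd⟩ := List.mem_iff_getElem?.1 hrr
      have hdn : d < n := by
        rw [← hn]
        exact (List.getElem?_eq_some_iff.1 hd).1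
      have hb := testBit_pow_sub_one g1 (show n - 1 - d < n by omega)
      rw [Nat.testBit_or, Bool.or_eq_true] at hb
      rcases hb with hb | hb
      · left
        obtain ⟨t1, d', al', be', t2, t3, t4⟩ := orE_ok hx1 px (n - 1 - d) hb
        rw [show n - 1 - (n - 1 - d) = d by omega] at t4
        rw [hx2 d hdn r hd, hr0]
        exact t4.trans (x3 d' al' be' t2 t3)
      · right
        obtain ⟨t1, d', al', be', t2, t3, t4⟩ := orE_ok hy1 py (n - 1 - d) hb
        rw [show n - 1 - (n - 1 - d) = d by omega] at t4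
        rw [hy2 d hdn r hd, hr0]
        exact t4.trans (z3 d' al' be' t2 t3)
    have s2 : ∀ r ∈ r0 :: rs, 0 ≤ r.x ∧ 0 ≤ r.y ∧ 0 ≤ r.w ∧ 0 ≤ r.h := by
      intro r hrr
      rcases List.mem_cons.1 hrr with rfl | hrr
      · rw [hr0]
        exact ⟨hX0, hZ0, hW0, hH0⟩
      · exact hr r hrr
    have s3 : ∀ d < n + 1, ∀ r, (r0 :: rs)[d]? = some r → r.x + r.w =
        (fun d => if d = 0 then rx + w else ex (d - 1)) d := by
      intro d hd r hrd
      cases d with
      | zero =>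
        have : r0 = r := by simpa using hrd
        rw [← this, hr0]
        simp
      | succ d =>
        have := hx2 d (by omega) r (by simpa using hrd)
        simpa using this
    have s4 : ∀ d < n + 1, ∀ r, (r0 :: rs)[d]? = some r → r.y + r.h =
        (fun d => if d = 0 then rz + hh else ey (d - 1)) d := by
      intro d hd r hrd
      cases d with
      | zero =>
        have : r0 = r := by simpa using hrd
        rw [← this, hr0]
        simp
      | succ d =>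
        have := hy2 d (by omega) r (by simpa using hrd)
        simpa using this
    obtain ⟨W2, H2, acc2, P2, N2, w2, h2, p2, n2, Bs2, h, b1, b2, b3, b4, b5, b6, b7, b8⟩ :=
      ih (n + 1) (r0 :: rs) _ _ _ _ (S ++ sl) acc1 P1 N1 p1 n1 k (by rw [List.length_cons, hn])
        (List.pairwise_cons.2 ⟨s1, hsep⟩) s2
        ⟨_, hx1.cons hn64 hxw x3 hW0, s3⟩ ⟨_, hy1.cons hn64 hzh z3 hH0, s4⟩ a3 a4 a5 h
    refine ⟨W2, H2, acc2, P2, N2, w2, h2, p2, n2, Bs ++ Bs2, h, b1, b2, ?_, b4, b5, ?_, ?_, ?_⟩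
    · rw [hsl, ← List.append_assoc]
      exact b3
    · intro b hb
      rcases List.mem_append.1 hb with hb | hb
      · exact a6 b hb
      · exact b6 b hb
    · rw [List.map_append, List.sum_append, mul_add, a7, b7]
      ring
    · intro cs hcs parts g4
      obtain ⟨p1, p2, rfl, g7, g8⟩ := forall₂_split g4
      have c1 := a8 p1 g7
      have c2 := b8 (((sl.map cont).flatten ++ p1.flatten) :: cs) (List.Forall₂.cons (by
        rw [hr0]
        exact c1) hcs) p2 g8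
      refine PacksL.perm ?_ c2
      rw [hsl, map_flatten_append, List.flatten_cons, List.flatten_append]
      have k1 := comb_perm (sl.map cont).flatten ((psl ns ps).map cont).flatten p1.flatten
        p2.flatten
      have k2 : (((sl.map cont).flatten ++ p1.flatten ++ cs.flatten) ++
          (((psl ns ps).map cont).flatten ++ p2.flatten)).Perm
          (cs.flatten ++ (((sl.map cont).flatten ++ p1.flatten) ++
            (((psl ns ps).map cont).flatten ++ p2.flatten))) := by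
        rw [← List.append_assoc cs.flatten]
        exact List.perm_append_comm.append_right _
      exact k2.trans (k1.append_left _)

end sound

/-! ### columns -/

/-- an entry of a column: the certificate for the comparison with the width below, and the tree or
the pieces -/
inductive Co where
  | mk (c : LCt) (t : T6) : Co
  | mp (c : LCt) (ps : List P6) (wx wy : List Ed) : Co

/-- the squares of an entry -/
def Co.sl (ns : List ℕ) : Co → List ℕ
  | .mk _ t => t.sl ns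
  | .mp _ ps _ _ => psl ns ps

/-- the certificate of an entry -/
noncomputable def coC (c : Co) : LCt :=
  Co.rec (motive := fun _ => LCt) (fun c _ => c) (fun c _ _ _ => c) c

/-- evaluation of an entry -/
noncomputable def evC (q tm y : ℕ) (nf : ℕ → ℕ) (cx : CX) (vs : ℕ → ℕ) (c : Co) (acc P N : ℕ)
    (k : ℕ → ℕ → ℕ → ℕ → ℕ → Bool) : Bool :=
  Co.rec (motive := fun _ => Bool) (fun _ t => ev q tm y nf cx vs t acc P N k)
    (fun _ ps wx wy => sp6 q tm y nf cx vs wx wy ps 1 0 0 0 0 acc P N k)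
    c

/-- the squares of a column -/
def csl (ns : List ℕ) : List Co → List ℕ
  | [] => []
  | c :: cs => c.sl ns ++ csl ns cs

/-- evaluation of the upper part of a column -/
noncomputable def colGo (q tm y : ℕ) (nf : ℕ → ℕ) (cx : CX) (vs : ℕ → ℕ) (cs : List Co) :
    ℕ → ℕ → ℕ → ℕ → ℕ → ℕ → (ℕ → ℕ → ℕ → ℕ → ℕ → Bool) → Bool :=
  List.rec (motive := fun _ => ℕ → ℕ → ℕ → ℕ → ℕ → ℕ → (ℕ → ℕ → ℕ → ℕ → ℕ → Bool) → Bool)
    (fun _ hs Q acc P N k => k hs Q acc P N)
    (fun c _ ih prev hs Q acc P N k =>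
      evC q tm y nf cx vs c acc P N (fun w h acc P N => andB (lc q cx (coC c) w prev)
        (vck q (Nat.add hs h) (fun hs => mck q (Nat.add Q (outQ q w h)) (fun Q =>
          ih w hs Q acc P N k))))) cs

/-- evaluation of a column; the continuation gets the width, the height and the area -/
noncomputable def colK (q tm y : ℕ) (nf : ℕ → ℕ) (cx : CX) (vs : ℕ → ℕ) (cs : List Co) :
    ℕ → ℕ → ℕ → ℕ → (ℕ → ℕ → ℕ → ℕ → ℕ → ℕ → Bool) → Bool :=
  List.rec (motive := fun _ => ℕ → ℕ → ℕ → ℕ → (ℕ → ℕ → ℕ → ℕ → ℕ → ℕ → Bool) → Bool)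
    (fun Q acc P N k => k 0 0 Q acc P N)
    (fun c cs _ Q acc P N k =>
      evC q tm y nf cx vs c acc P N (fun w h acc P N => mck q (Nat.add Q (outQ q w h)) (fun Q =>
        colGo q tm y nf cx vs cs w h Q acc P N (k w)))) cs

section cols

variable {q tm y : ℕ} {ns : List ℕ} {δ : ℕ → ℝ} {cx : CX} {vs : ℕ → ℕ} {nf : ℕ → ℕ} {Y : ℝ}
  {X : ℕ → ℝ} {cont : ℕ → List ℝ}

theorem sp6_start (hx : Ctx q δ) (hc : CXok q δ cx) (hy : VR q δ VB y Y)
    (htm : tm < q) (hX : ∀ i < q, VR q δ VB (xr q i) (X i))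
    (hnf : ∀ i < tm, nf i = nthR 0 ns i)
    (hsq : ∀ i c, i < tm → PacksL (cont (nthR 0 ns i + c)) (X (i + 1)) (X (i + 1)))
    (wx wy : List Ed) (ps : List P6) {S : List ℕ} {acc P N : ℕ} {rp rn : ℝ}
    {k : ℕ → ℕ → ℕ → ℕ → ℕ → Bool} (hacc : AccOK acc S) (hP : MR q δ MB P rp)
    (hN : MR q δ MB N rn)
    (h : sp6 q tm y nf cx vs wx wy ps 1 0 0 0 0 acc P N k = true) :
    TOK q δ Y cont (psl ns ps) S rp rn k := by
  have htab : Tab6 q δ 0 0 0 (fun _ => 0) := by
    refine ⟨fun d hd => absurd hd (Nat.not_lt_zero _), fun d _ => ?_, fun d hd =>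
      absurd hd (Nat.not_lt_zero _)⟩
    rw [gA_eq, gp_zero_left, gp_zero_left]
    simp
  have h : sp6 q tm y nf cx vs wx wy ps (2 ^ 0) 0 0 0 0 acc P N k = true := h
  obtain ⟨W0, H0, acc1, P1, N1, w0, hh0, p, n, Bs, h, a1, a2, a3, a4, a5, a6, a7, a8⟩ :=
    sp6_sound hx hc hy htm hX hnf hsq wx wy ps 0 [] 0 0 0 0 S acc P N rp rn _ rfl
      List.Pairwise.nil (by simp) ⟨_, htab, by simp⟩ ⟨_, htab, by simp⟩
      hacc hP hN h
  refine ⟨W0, H0, acc1, P1, N1, w0, hh0, p, n, Bs, h, a1, a2, a3, a4, a5, a6, a7, ?_⟩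
  intro parts hp
  have := a8 [] List.Forall₂.nil parts hp
  rwa [List.flatten_nil, List.nil_append] at this

theorem evC_sound (hx : Ctx q δ) (hc : CXok q δ cx) (hy : VR q δ VB y Y)
    (htm : tm < q) (hX : ∀ i < q, VR q δ VB (xr q i) (X i))
    (hnf : ∀ i < tm, nf i = nthR 0 ns i)
    (hsq : ∀ i c, i < tm → PacksL (cont (nthR 0 ns i + c)) (X (i + 1)) (X (i + 1)))
    (c : Co) {S : List ℕ} {acc P N : ℕ} {rp rn : ℝ}
    {k : ℕ → ℕ → ℕ → ℕ → ℕ → Bool} (hacc : AccOK acc S) (hP : MR q δ MB P rp)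
    (hN : MR q δ MB N rn) (h : evC q tm y nf cx vs c acc P N k = true) :
    TOK q δ Y cont (c.sl ns) S rp rn k := by
  cases c with
  | mk c t => exact ev_sound hx hc hy htm hX hnf hsq t S acc P N rp rn _ hacc hP hN h
  | mp c ps wx wy => exact sp6_start hx hc hy htm hX hnf hsq wx wy ps hacc hP hN h

theorem colGo_sound (hx : Ctx q δ) (hc : CXok q δ cx) (hy : VR q δ VB y Y)
    (htm : tm < q) (hX : ∀ i < q, VR q δ VB (xr q i) (X i))
    (hnf : ∀ i < tm, nf i = nthR 0 ns i)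
    (hsq : ∀ i c, i < tm → PacksL (cont (nthR 0 ns i + c)) (X (i + 1)) (X (i + 1))) (cs : List Co) :
    ∀ (S : List ℕ) (prev hs Q acc P N : ℕ) (rv rh rq rp rn : ℝ)
      (k : ℕ → ℕ → ℕ → ℕ → ℕ → Bool), VR q δ VB prev rv → VR q δ VB hs rh → MR q δ MB Q rq →
      AccOK acc S → MR q δ MB P rp → MR q δ MB N rn →
      colGo q tm y nf cx vs cs prev hs Q acc P N k = true →
      ∃ (L : List (ℝ × ℝ)) (Bs : List (ℝ × ℝ × ℝ)) (hs' Q' acc' P' N' : ℕ) (q' p' n' : ℝ),
        k hs' Q' acc' P' N' = true ∧ VR q δ VB hs' (rh + colH L) ∧ MR q δ MB Q' q' ∧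
        q' = rq + 2 * colA L ∧ AccOK acc' (S ++ csl ns cs) ∧ MR q δ MB P' p' ∧ MR q δ MB N' n' ∧
        (∀ B ∈ Bs, BOK Y B) ∧ 240 * (Bs.map fun B => B.2.2).sum = (p' - rp) - (n' - rn) ∧
        ColOK L ∧ (∀ c ∈ L, c.1 ≤ rv) ∧
        ∀ parts, PartsOK parts Bs → ∃ cL : List (List ℝ),
          List.Forall₂ (fun c (d : ℝ × ℝ) => PacksL c d.1 d.2) cL L ∧
          cL.flatten.Perm (((csl ns cs).map cont).flatten ++ parts.flatten) := by
  induction cs with
  | nil =>
    intro S prev hs Q acc P N rv rh rq rp rn k hprev hhs hQ hacc hP hN h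
    refine ⟨[], [], hs, Q, acc, P, N, rq, rp, rn, h, by simpa [colH] using hhs, hQ,
      by simp [colA], by simpa [csl] using hacc, hP, hN, by simp, by simp, ColOK.nil, by simp, ?_⟩
    intro parts hp
    obtain rfl := List.forall₂_nil_right_iff.1 hp
    exact ⟨[], List.Forall₂.nil, by simp [csl]⟩
  | cons c cs ih =>
    intro S prev hs Q acc P N rv rh rq rp rn k hprev hhs hQ hacc hP hN h
    obtain ⟨W, H, acc1, P1, N1, w, hh, p1, n1, Bs, h, a1, a2, a3, a4, a5, a6, a7, a8⟩ :=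
      evC_sound hx hc hy htm hX hnf hsq c hacc hP hN h
    obtain ⟨g1, h⟩ := andB_eq_true.1 h
    have hV : VB ≤ 2 ^ 100 := by norm_num [VB]
    have g2 := lc_sound hx hc (b := VB) (by norm_num [VB]) a1 hprev g1
    obtain ⟨b1, h⟩ := vck_sound (by norm_num [VB, K]) (hhs.add a2) h
    obtain ⟨b2, h⟩ := mck_sound (by norm_num [MB, VB, K]) (hQ.add (MR.out hx hV hV a1 a2)) h
    obtain ⟨L, Bs2, hs', Q', acc', P', N', q', p', n', h, c1, c2, c3, c4, c5, c6, c7, c8, c9, c10,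
      c11⟩ := ih (S ++ c.sl ns) W _ _ acc1 P1 N1 w _ _ p1 n1 k a1 b1 b2 a3 a4 a5 h
    refine ⟨(w, hh) :: L, Bs ++ Bs2, hs', Q', acc', P', N', q', p', n', h, ?_, c2, ?_, ?_, c5, c6,
      ?_, ?_, ?_, ?_, ?_⟩
    · rw [colH_cons]
      have e : rh + (hh + colH L) = rh + hh + colH L := by ring
      rw [e]
      exact c1
    · rw [c3, colA_cons]
      ring
    · rw [csl, ← List.append_assoc]
      exact c4
    · intro b hb
      rcases List.mem_append.1 hb with hb | hb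
      · exact a6 b hb
      · exact c7 b hb
    · rw [List.map_append, List.sum_append, mul_add, a7, c8]
      ring
    · refine ⟨List.pairwise_cons.2 ⟨c10, c9.1⟩, fun d hd => ?_⟩
      rcases List.mem_cons.1 hd with rfl | hd
      · exact ⟨a1.nonneg hx, a2.nonneg hx⟩
      · exact c9.2 d hd
    · intro d hd
      rcases List.mem_cons.1 hd with rfl | hd
      · exact g2
      · exact (c10 d hd).trans g2
    · intro parts hp
      obtain ⟨p1, p2, rfl, g7, g8⟩ := forall₂_split hp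
      obtain ⟨cL, k1, k2⟩ := c11 p2 g8
      refine ⟨(((c.sl ns).map cont).flatten ++ p1.flatten) :: cL, List.Forall₂.cons (a8 p1 g7) k1, ?_⟩
      rw [List.flatten_cons, csl, map_flatten_append, List.flatten_append]
      exact (k2.append_left _).trans (comb_perm _ _ _ _)

theorem colK_sound (hx : Ctx q δ) (hc : CXok q δ cx) (hy : VR q δ VB y Y)
    (htm : tm < q) (hX : ∀ i < q, VR q δ VB (xr q i) (X i))
    (hnf : ∀ i < tm, nf i = nthR 0 ns i)
    (hsq : ∀ i c, i < tm → PacksL (cont (nthR 0 ns i + c)) (X (i + 1)) (X (i + 1))) (cs : List Co)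
    {S : List ℕ} {Q acc P N : ℕ} {rq rp rn : ℝ} {k : ℕ → ℕ → ℕ → ℕ → ℕ → ℕ → Bool}
    (hQ : MR q δ MB Q rq) (hacc : AccOK acc S) (hP : MR q δ MB P rp) (hN : MR q δ MB N rn)
    (h : colK q tm y nf cx vs cs Q acc P N k = true) :
    ∃ (L : List (ℝ × ℝ)) (Bs : List (ℝ × ℝ × ℝ)) (wl hs' Q' acc' P' N' : ℕ) (q' p' n' : ℝ),
      k wl hs' Q' acc' P' N' = true ∧ VR q δ VB wl (colW L) ∧ VR q δ VB hs' (colH L) ∧
      MR q δ MB Q' q' ∧ q' = rq + 2 * colA L ∧ AccOK acc' (S ++ csl ns cs) ∧ MR q δ MB P' p' ∧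
      MR q δ MB N' n' ∧ (∀ B ∈ Bs, BOK Y B) ∧
      240 * (Bs.map fun B => B.2.2).sum = (p' - rp) - (n' - rn) ∧ ColOK L ∧
      ∀ parts, PartsOK parts Bs → ∃ cL : List (List ℝ),
        List.Forall₂ (fun c (d : ℝ × ℝ) => PacksL c d.1 d.2) cL L ∧
        cL.flatten.Perm (((csl ns cs).map cont).flatten ++ parts.flatten) := by
  cases cs with
  | nil =>
    have h0 : VR q δ VB 0 0 := VR.zero.mono (Nat.zero_le _)
    refine ⟨[], [], 0, 0, Q, acc, P, N, rq, rp, rn, h, by simpa [colW] using h0,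
      by simpa [colH] using h0, hQ,
      by simp [colA], by simpa [csl] using hacc, hP, hN, by simp, by simp, ColOK.nil, ?_⟩
    intro parts hp
    obtain rfl := List.forall₂_nil_right_iff.1 hp
    exact ⟨[], List.Forall₂.nil, by simp [csl]⟩
  | cons c cs =>
    obtain ⟨W, H, acc1, P1, N1, w, hh, p1, n1, Bs, h, a1, a2, a3, a4, a5, a6, a7, a8⟩ :=
      evC_sound hx hc hy htm hX hnf hsq c hacc hP hN h
    have hV : VB ≤ 2 ^ 100 := by norm_num [VB]
    obtain ⟨b2, h⟩ := mck_sound (by norm_num [MB, VB, K]) (hQ.add (MR.out hx hV hV a1 a2)) h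
    obtain ⟨L, Bs2, hs', Q', acc', P', N', q', p', n', h, c1, c2, c3, c4, c5, c6, c7, c8, c9, c10,
      c11⟩ := colGo_sound hx hc hy htm hX hnf hsq cs (S ++ c.sl ns) W _ _ acc1 P1 N1 w _ _ p1 n1 _ a1 a2
        b2 a3 a4 a5 h
    refine ⟨(w, hh) :: L, Bs ++ Bs2, W, hs', Q', acc', P', N', q', p', n', h, a1, ?_, c2, ?_, ?_,
      c5, c6, ?_, ?_, ?_, ?_⟩
    · rw [colH_cons]
      exact c1
    · rw [c3, colA_cons]
      ring
    · rw [csl, ← List.append_assoc]
      exact c4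
    · intro b hb
      rcases List.mem_append.1 hb with hb | hb
      · exact a6 b hb
      · exact c7 b hb
    · rw [List.map_append, List.sum_append, mul_add, a7, c8]
      ring
    · refine ⟨List.pairwise_cons.2 ⟨c10, c9.1⟩, fun d hd => ?_⟩
      rcases List.mem_cons.1 hd with rfl | hd
      · exact ⟨a1.nonneg hx, a2.nonneg hx⟩
      · exact c9.2 d hd
    · intro parts hp
      obtain ⟨p1, p2, rfl, g7, g8⟩ := forall₂_split hp
      obtain ⟨cL, k1, k2⟩ := c11 p2 g8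
      refine ⟨(((c.sl ns).map cont).flatten ++ p1.flatten) :: cL, List.Forall₂.cons (a8 p1 g7) k1, ?_⟩
      rw [List.flatten_cons, csl, map_flatten_append, List.flatten_append]
      exact (k2.append_left _).trans (comb_perm _ _ _ _)

end cols

end Pool.Agent.MOS.V6
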