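import Pool.Agent.Lib.MP_b520b2_co.V6.Flow

/-!
# Rows of at least `k` squares

If `k` squares fit into a row of width `a`, the density of the full rows is at least `k / (k + 1)`
with at most one exception: the row whose first square is larger than `a / (k + 1)` while the first
square of the next row is smaller.
-/

namespace Pool.Agent.MOS.V6

open Finset

/-- **Rows of at least `k` squares.**  `D` bounds the deficit of the exceptional row. -/
theorem cap_row2 {a b Y D : ℝ} (k : ℕ) (hk : 1 ≤ k) (ha : k * Y ≤ a) (hb : Y ≤ b) (hD0 : 0 ≤ D)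
    (hD : ∀ s, 0 < s → s ≤ a / (k + 1) →
      s * (Y - a / (k + 1)) ≤ D ∨ k * s * (a / (k + 1) - s) ≤ D) :
    Cap a b Y (k / (k + 1) * a * (b - Y) - D) := by
  intro y l hl h0 hy
  have hY : 0 < Y := (h0 y (by simp)).trans_le hy
  have hk1 : (1 : ℝ) ≤ k := by exact_mod_cast hk
  have hYa : Y ≤ a := by nlinarith
  obtain ⟨w, hw⟩ : ∃ w : ℝ, w = a / (k + 1) := ⟨_, rfl⟩
  rw [← hw] at hD
  have haw : a = w * (k + 1) := by
    rw [hw]
    field_simp
  have hw0 : 0 < w := by
    rw [hw]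
    exact div_pos (by linarith) (by linarith)
  have hc : (k : ℝ) / (k + 1) * a = k * w := by
    rw [hw]
    ring
  rw [hc]
  have hkw : 0 < k * w := by positivity
  have key : ∀ y s A : ℝ, 0 < s → s ≤ y → y ≤ Y → y ^ 2 + (a - y - s) * s < A →
      y ^ 2 + (k - 1) * s ^ 2 ≤ A →
      k * w * s - (if y ≤ w then 0 else D) ≤
        A - y ^ 2 + s ^ 2 - (if s ≤ w then 0 else D) := by
    intro y s A hs hsy hyY hA hA'
    by_cases h1 : y ≤ w
    · rw [if_pos h1, if_pos (hsy.trans h1)]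
      nlinarith
    · rw [if_neg h1]
      push Not at h1
      by_cases h2 : s ≤ w
      · rw [if_pos h2]
        rcases hD s hs h2 with h3 | h3
        · have h4 : s * (y - w) ≤ s * (Y - w) := mul_le_mul_of_nonneg_left (by linarith) hs.le
          nlinarith
        · nlinarith
      · rw [if_neg h2]
        push Not at h2
        nlinarith [mul_pos (mul_pos (by linarith : (0 : ℝ) < k) hs) (sub_pos.2 h2)]
  have key2 : ∀ y s A : ℝ, 0 < s → s ≤ y → y ≤ Y → y ^ 2 + (a - y - s) * s < A →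
      y ^ 2 + (k - 1) * s ^ 2 ≤ A →
      k * w * s - (if y ≤ w then 0 else D) ≤ A - y ^ 2 + s ^ 2 := by
    intro y s A hs hsy hyY hA hA'
    have h5 := key y s A hs hsy hyY hA hA'
    have h6 : (0 : ℝ) ≤ if s ≤ w then 0 else D := by
      split_ifs
      · exact le_rfl
      · exact hD0
    linarith
  obtain ⟨l₁, l₂, h1, h2, h3⟩ := shelves a k
    (fun y b => k * w * (b - y) - if y ≤ w then 0 else D) Y hYa ha
    (fun y s b A hs hsy hyY hyb hA hA' => ⟨fun hsb => by
      have := key y s A hs hsy hyY hA hA'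
      linarith, fun hsb => by
      have := key2 y s A hs hsy hyY hA hA'
      have h6 : (k : ℝ) * w * (b - y) < k * w * s := mul_lt_mul_of_pos_left hsb hkw
      linarith⟩)
    _ y b l le_rfl hl h0 hy (hy.trans hb)
  refine ⟨l₁, l₂, h1, h2, ?_⟩
  rcases h3 with h3 | ⟨s, t, h3, h4⟩
  · exact Or.inl h3
  · refine Or.inr ⟨s, t, h3, lt_of_le_of_lt ?_ h4⟩
    have h5 : (k : ℝ) * w * (b - Y) ≤ k * w * (b - y) :=
      mul_le_mul_of_nonneg_left (by linarith) hkw.le
    split_ifs <;> linarith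

/-- the deficit, first form: a multiple of `Y ^ 2` -/
theorem deficit_one {a Y D : ℝ} {k : ℕ} (hk : 1 ≤ k) (ha : k * Y ≤ a) (hY : 0 ≤ Y)
    (h1 : k = 1 → Y ^ 2 ≤ 8 * D) (h2 : 2 ≤ k → (k - 1) * Y ^ 2 ≤ k * (k + 1) * D) :
    ∀ s, 0 < s → s ≤ a / (k + 1) →
      s * (Y - a / (k + 1)) ≤ D ∨ k * s * (a / (k + 1) - s) ≤ D := by
  intro s hs hsw
  have hk1 : (1 : ℝ) ≤ k := by exact_mod_cast hk
  obtain ⟨w, hw⟩ : ∃ w : ℝ, w = a / (k + 1) := ⟨_, rfl⟩
  rw [← hw] at hsw ⊢
  have haw : a = w * (k + 1) := by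
    rw [hw]
    field_simp
  obtain ⟨u, hu⟩ : ∃ u : ℝ, u = Y - w := ⟨_, rfl⟩
  have hD0 : 0 ≤ D := by
    rcases hk.lt_or_eq with h | h
    · have h3 := h2 h
      have h4 : 0 ≤ (k - 1) * Y ^ 2 := mul_nonneg (by linarith) (sq_nonneg _)
      have h5 : 0 ≤ k * (k + 1) * D := h4.trans h3
      exact nonneg_of_mul_nonneg_right h5 (by positivity)
    · have := h1 h.symm
      nlinarith [sq_nonneg Y]
  by_cases hu0 : u ≤ 0
  · left
    rw [← hu]
    nlinarith
  push Not at hu0
  rw [← hu]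
  have hYw : Y = w + u := by linarith
  have hkU : k * u ≤ w := by
    rw [haw, hYw] at ha
    nlinarith
  rcases hk.lt_or_eq with h | h
  · have h3 := h2 h
    have hk2 : (2 : ℝ) ≤ k := by exact_mod_cast h
    -- the bound `u (w - u / k) ≤ D`
    have h4 : u * (k * w - u) ≤ k * D := by
      have h5 : (k + 1) * (u * (k * w - u)) ≤ (k - 1) * Y ^ 2 := by
        rw [hYw]
        obtain ⟨v, hv⟩ : ∃ v, v = w - k * u := ⟨_, rfl⟩
        have hv0 : 0 ≤ v := by linarith
        have hwv : w = k * u + v := by linarith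
        rw [hwv]
        have e : (k - 1) * (k * u + v + u) ^ 2 - (k + 1) * (u * (k * (k * u + v) - u)) =
            (k - 1) * v ^ 2 + (k + 1) * (k - 2) * (u * v) := by ring
        have h6 : 0 ≤ ((k : ℝ) - 1) * v ^ 2 := mul_nonneg (by linarith) (sq_nonneg _)
        have h7 : 0 ≤ ((k : ℝ) + 1) * (k - 2) * (u * v) :=
          mul_nonneg (mul_nonneg (by linarith) (by linarith)) (mul_nonneg hu0.le hv0)
        linarith
      have h6 : (k + 1) * (u * (k * w - u)) ≤ (k + 1) * (k * D) := by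
        calc (k + 1) * (u * (k * w - u)) ≤ (k - 1) * Y ^ 2 := h5
          _ ≤ k * (k + 1) * D := h3
          _ = (k + 1) * (k * D) := by ring
      exact le_of_mul_le_mul_left h6 (by linarith)
    by_cases hsu : k * s ≤ k * w - u
    · left
      have h5 : k * (s * u) ≤ k * D := by
        calc k * (s * u) = k * s * u := by ring
          _ ≤ (k * w - u) * u := mul_le_mul_of_nonneg_right hsu hu0.le
          _ = u * (k * w - u) := by ring
          _ ≤ k * D := h4
      exact le_of_mul_le_mul_left h5 (by linarith)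
    · right
      push Not at hsu
      -- `k s (w - s)` is smaller than its value at `s₀ = w - u / k`
      have h5 : 0 ≤ (k * s - (k * w - u)) * (k * s - u) := by
        refine mul_nonneg (by linarith) ?_
        nlinarith
      have h6 : k * (k * s * (w - s)) ≤ k * D := by nlinarith
      exact le_of_mul_le_mul_left h6 (by linarith)
  · have h3 := h1 h.symm
    have hk1' : (k : ℝ) = 1 := by exact_mod_cast h.symm
    rw [hk1'] at hkU ⊢
    rw [hYw] at h3
    by_cases hsu : s ≤ w - u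
    · left
      have h5 : s * u ≤ (w - u) * u := mul_le_mul_of_nonneg_right hsu hu0.le
      nlinarith [sq_nonneg (w - 3 * u)]
    · right
      push Not at hsu
      by_cases h2u : 2 * u ≤ w
      · have h5 : 0 ≤ (s - (w - u)) * (s - u) := mul_nonneg (by linarith) (by linarith)
        nlinarith [sq_nonneg (w - 3 * u)]
      · push Not at h2u
        have h5 : 0 ≤ (w + u - 3 / 2 * w) * (w + u + 3 / 2 * w) :=
          mul_nonneg (by linarith) (by linarith)
        nlinarith [sq_nonneg (2 * s - w), sq_nonneg w]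

/-- the deficit, second form -/
theorem deficit_two {a Y D : ℝ} {k : ℕ} (hk : 1 ≤ k) (ha : k * Y ≤ a)
    (h1 : k = 1 → 4 * Y ≤ 3 * a) (h2 : a ≤ (k + 1) * Y)
    (h3 : ((k + 1) * Y - a) * (a - Y) ≤ k * (k + 1) * D) :
    ∀ s, 0 < s → s ≤ a / (k + 1) →
      s * (Y - a / (k + 1)) ≤ D ∨ k * s * (a / (k + 1) - s) ≤ D := by
  intro s hs hsw
  have hk1 : (1 : ℝ) ≤ k := by exact_mod_cast hk
  obtain ⟨w, hw⟩ : ∃ w : ℝ, w = a / (k + 1) := ⟨_, rfl⟩
  rw [← hw] at hsw ⊢
  have haw : a = w * (k + 1) := by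
    rw [hw]
    field_simp
  obtain ⟨u, hu⟩ : ∃ u : ℝ, u = Y - w := ⟨_, rfl⟩
  have hYw : Y = w + u := by linarith
  have hu0 : 0 ≤ u := by
    rw [haw, hYw] at h2
    nlinarith
  have hkU : k * u ≤ w := by
    rw [haw, hYw] at ha
    nlinarith
  rw [← hu]
  have h4 : u * (k * w - u) ≤ k * D := by
    have e : ((k + 1) * Y - a) * (a - Y) = (k + 1) * (u * (k * w - u)) := by
      rw [haw, hYw]
      ring
    rw [e] at h3
    have h6 : (k + 1) * (u * (k * w - u)) ≤ (k + 1) * (k * D) := by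
      calc (k + 1) * (u * (k * w - u)) ≤ k * (k + 1) * D := h3
        _ = (k + 1) * (k * D) := by ring
    exact le_of_mul_le_mul_left h6 (by linarith)
  -- `2 u ≤ k w`
  have h5 : 2 * u ≤ k * w := by
    rcases hk.lt_or_eq with h | h
    · have hk2 : (2 : ℝ) ≤ k := by exact_mod_cast h
      have hw0 : 0 ≤ w := by linarith
      nlinarith
    · have hk1' : (k : ℝ) = 1 := by exact_mod_cast h.symm
      have h6 := h1 h.symm
      rw [haw, hYw, hk1'] at h6
      rw [hk1']
      linarith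
  by_cases hsu : k * s ≤ k * w - u
  · left
    have h5 : k * (s * u) ≤ k * D := by
      calc k * (s * u) = k * s * u := by ring
        _ ≤ (k * w - u) * u := mul_le_mul_of_nonneg_right hsu hu0
        _ = u * (k * w - u) := by ring
        _ ≤ k * D := h4
    exact le_of_mul_le_mul_left h5 (by linarith)
  · right
    push Not at hsu
    have h7 : 0 ≤ (k * s - (k * w - u)) * (k * s - u) :=
      mul_nonneg (by linarith) (by linarith)
    have h6 : k * (k * s * (w - s)) ≤ k * D := by nlinarith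
    exact le_of_mul_le_mul_left h6 (by linarith)

/-- a block with rows of at least `k` squares -/
theorem bok_row {a b Y D c : ℝ} {k : ℕ} (hk : 1 ≤ k) (ha : k * Y ≤ a) (hY : 0 ≤ Y) (hD0 : 0 ≤ D)
    (hD : ∀ s, 0 < s → s ≤ a / (k + 1) →
      s * (Y - a / (k + 1)) ≤ D ∨ k * s * (a / (k + 1) - s) ≤ D)
    (hc0 : 0 ≤ c) (hc : c ≤ k / (k + 1)) : BOK Y (a, b, c * a * (b - Y) - D) := by
  have hk1 : (1 : ℝ) ≤ k := by exact_mod_cast hk
  have ha0 : 0 ≤ a := le_trans (by positivity) ha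
  by_cases hb : Y ≤ b
  · refine Or.inl (cap_mono (cap_row2 k hk ha hb hD0 hD) le_rfl le_rfl le_rfl ?_)
    have h1 : c * (a * (b - Y)) ≤ k / (k + 1) * (a * (b - Y)) :=
      mul_le_mul_of_nonneg_right hc (mul_nonneg ha0 (by linarith))
    dsimp only
    linarith
  · refine Or.inr ?_
    dsimp only
    have : c * a * (b - Y) ≤ 0 :=
      mul_nonpos_of_nonneg_of_nonpos (mul_nonneg hc0 ha0) (by linarith)
    linarith

theorem BOK.swap {a b f Y : ℝ} (h : BOK Y (a, b, f)) : BOK Y (b, a, f) := by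
  rcases h with h | h
  · exact Or.inl (cap_swap h)
  · exact Or.inr h

theorem Cap.packs {a b Y f y : ℝ} {l : List ℝ} (h : Cap a b Y f)
    (hl : (y :: l).Pairwise (· ≥ ·)) (h0 : ∀ s ∈ y :: l, 0 < s) (hy : y ≤ Y) (hs : sumsq l ≤ f) :
    PacksL (y :: l) a b := by
  obtain ⟨l₁, l₂, rfl, h1, h2⟩ := h y l hl h0 hy
  rcases h2 with rfl | ⟨s, t, rfl, h2⟩
  · rwa [List.append_nil]
  · exfalso
    rw [sumsq_append, sumsq_cons] at hs
    rw [sumsq_cons] at h2
    linarith [sumsq_nonneg t]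

/-- **The area of a packing with rows of at least `k` squares on the top.** -/
theorem row_area {l tl : List ℝ} {W w0 h0 Y F D cap A : ℝ} {Bs : List (ℝ × ℝ × ℝ)} {k : ℕ}
    (h1 : SP tl) (h2 : hd tl = Y) (h3 : ∀ B ∈ Bs, BOK Y B)
    (hcap : cap = (Bs.map fun B => B.2.2).sum) (hh0 : 0 ≤ h0) (hw0 : w0 ≤ W)
    (hk : 1 ≤ k) (hkW : k * Y ≤ W) (hD0 : 0 ≤ D)
    (hD : ∀ s, 0 < s → s ≤ W / (k + 1) →
      s * (Y - W / (k + 1)) ≤ D ∨ k * s * (W / (k + 1) - s) ≤ D)
    (hF : sumsq tl - Y ^ 2 - cap ≤ F)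
    (hA : k * (W * (h0 + Y)) + (k + 1) * (F + D) ≤ k * A) (hA' : W * h0 ≤ A)
    (hP : ∀ parts : List (List ℝ),
      List.Forall₂ (fun p (B : ℝ × ℝ × ℝ) => PacksL p B.1 B.2.1) parts Bs →
      ∃ G0 : List ℝ, PacksL G0 w0 h0 ∧ ∀ T, (parts.flatten ++ T).Perm tl → (G0 ++ T).Perm l) :
    ∃ a b, PacksL l a b ∧ a * b ≤ A := by
  have hY : 0 ≤ Y := by
    rw [← h2]
    exact hd_nonneg h1
  have hk1 : (1 : ℝ) ≤ k := by exact_mod_cast hk
  obtain ⟨parts, rest, p1, p2, p3⟩ := tail_last (F := F) h1 h2 h3 (by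
    rw [← hcap]
    linarith)
  obtain ⟨G0, q1, q2⟩ := hP parts p2
  have q1 := q1.mono hw0 le_rfl
  rcases p3 with p3 | ⟨s, t, p3, p4, p5, p6, p7⟩
  · refine ⟨W, h0, ?_, hA'⟩
    have := q2 rest (by rw [p1])
    rw [p3, List.append_nil] at this
    exact q1.perm this
  · have hs : 0 < s := p7 s (by simp)
    have hYpos : 0 < Y := hs.trans_le p4
    have hWpos : 0 < W := by nlinarith
    have hFD : 0 ≤ F + D := by linarith [sumsq_nonneg t]
    obtain ⟨c, hc⟩ : ∃ c : ℝ, c = (k + 1) * (F + D) / (k * W) := ⟨_, rfl⟩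
    have hc0 : 0 ≤ c := by
      rw [hc]
      positivity
    have hkW' : (0 : ℝ) < k * W := by positivity
    have hcW : c * (k * W) = (k + 1) * (F + D) := by
      rw [hc]
      field_simp
    have hcap2 := cap_row2 (b := Y + c) k hk hkW (by linarith) hD0 hD
    have e1 : (k : ℝ) / (k + 1) * W * (Y + c - Y) - D = F := by
      have : (k : ℝ) / (k + 1) * W * (Y + c - Y) = c * (k * W) / (k + 1) := by
        field_simp
        ring
      rw [this, hcW]
      field_simp
      ring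
    rw [e1] at hcap2
    have hpk := Cap.packs hcap2 p6 p7 p4 p5
    refine ⟨W, h0 + (Y + c), ?_, ?_⟩
    · have := PacksL.ver hh0 (by linarith : (0 : ℝ) ≤ Y + c) q1 hpk
      rw [← p3] at this
      exact this.perm (q2 rest (by rw [p1]))
    · have : k * (W * (h0 + (Y + c))) = k * (W * (h0 + Y)) + c * (k * W) := by ring
      have h9 : k * (W * (h0 + (Y + c))) ≤ k * A := by
        rw [this, hcW]
        exact hA
      exact le_of_mul_le_mul_left h9 (by linarith)

end Pool.Agent.MOS.V6
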