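import Mathlib.Data.Nat.Basic

/-!
# Long numbers

A long number of a certificate is given by its digits to the base `2 ^ 63`, the lowest digit
first.  (Numbers below `2 ^ 63` are cheap to read and to print.)
-/

namespace Pool.Agent.MOS.V6

/-- one digit and the rest -/
noncomputable def dg1 (a0 r : ℕ) : ℕ :=
  Nat.add a0 (Nat.shiftLeft r (nat_lit 63))

/-- two digits and the rest -/
noncomputable def dg2 (a0 a1 r : ℕ) : ℕ :=
  Nat.add (Nat.add a0 (Nat.shiftLeft a1 (nat_lit 63))) (Nat.shiftLeft r (nat_lit 126))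

/-- four digits and the rest -/
noncomputable def dg4 (a0 a1 a2 a3 r : ℕ) : ℕ :=
  Nat.add (Nat.add a0 (Nat.shiftLeft (Nat.add a1 (Nat.shiftLeft (Nat.add a2 (Nat.shiftLeft a3
  (nat_lit 63))) (nat_lit 63))) (nat_lit 63))) (Nat.shiftLeft r (nat_lit 252))

/-- eight digits and the rest -/
noncomputable def dg8 (a0 a1 a2 a3 a4 a5 a6 a7 r : ℕ) : ℕ :=
  Nat.add (Nat.add a0 (Nat.shiftLeft (Nat.add a1 (Nat.shiftLeft (Nat.add a2 (Nat.shiftLeft
  (Nat.add a3 (Nat.shiftLeft (Nat.add a4 (Nat.shiftLeft (Nat.add a5 (Nat.shiftLeft (Nat.add a6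
  (Nat.shiftLeft a7 (nat_lit 63))) (nat_lit 63))) (nat_lit 63))) (nat_lit 63))) (nat_lit 63)))
  (nat_lit 63))) (nat_lit 63))) (Nat.shiftLeft r (nat_lit 504))

/-- sixteen digits and the rest -/
noncomputable def dg16 (a0 a1 a2 a3 a4 a5 a6 a7 a8 a9 a10 a11 a12 a13 a14 a15 r : ℕ) : ℕ :=
  Nat.add (Nat.add a0 (Nat.shiftLeft (Nat.add a1 (Nat.shiftLeft (Nat.add a2 (Nat.shiftLeft
  (Nat.add a3 (Nat.shiftLeft (Nat.add a4 (Nat.shiftLeft (Nat.add a5 (Nat.shiftLeft (Nat.add a6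
  (Nat.shiftLeft (Nat.add a7 (Nat.shiftLeft (Nat.add a8 (Nat.shiftLeft (Nat.add a9 (Nat.shiftLeft
  (Nat.add a10 (Nat.shiftLeft (Nat.add a11 (Nat.shiftLeft (Nat.add a12 (Nat.shiftLeft (Nat.add
  a13 (Nat.shiftLeft (Nat.add a14 (Nat.shiftLeft a15 (nat_lit 63))) (nat_lit 63))) (nat_lit 63)))
  (nat_lit 63))) (nat_lit 63))) (nat_lit 63))) (nat_lit 63))) (nat_lit 63))) (nat_lit 63)))
  (nat_lit 63))) (nat_lit 63))) (nat_lit 63))) (nat_lit 63))) (nat_lit 63))) (nat_lit 63)))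
  (Nat.shiftLeft r (nat_lit 1008))

end Pool.Agent.MOS.V6
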