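import Pool.Agent.Lib.MP_b520b2_co.V6.Row

/-!
# Trees
-/

namespace Pool.Agent.MOS.V6

open Finset

/-- the vector of the `i`-th side; `i = 0` is the square root of the area -/
def xr (q i : ℕ) : ℕ := Nat.mul (Nat.mul SG (rep K (Nat.sub q i))) (Nat.pow 2 (Nat.mul K i))

theorem xr_eq {q i : ℕ} (hi : i ≤ q) : xr q i = digs K q (fun p => if i ≤ p then SG else 0) := by
  obtain ⟨r, rfl⟩ : ∃ r, q = i + r := ⟨q - i, by omega⟩
  show SG * rep K (i + r - i) * 2 ^ (K * i) = _
  rw [Nat.add_sub_cancel_left, digs_mul_add, ← digs_const K_pos]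
  have h1 : digs K i (fun p => if i ≤ p then SG else 0) = 0 := by
    rw [digs]
    apply sum_eq_zero
    intro p hp
    rw [mem_range] at hp
    rw [if_neg (by omega), zero_mul]
  rw [h1, zero_add]
  congr 1
  exact digs_congr fun p _ => by rw [if_pos (by omega)]

/-- the type of a block for the tail: Meir-Moser, or rows of at least `k` squares -/
inductive BU where
  | mm : BU
  | r1 (k c e : ℕ) : BU
  | r2 (k c f : ℕ) (l : LCt) : BU

/-- the orientation and the type of a block -/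
inductive BT where
  | mk (o : ℕ) (u : BU) : BT

/-- guillotine trees -/
inductive T6 where
  /-- the square number `c` of the group `i` -/
  | sq (i c : ℕ) : T6
  /-- a block for the tail -/
  | bk (a b : ℕ) (bt : BT) (c : LCt) : T6
  /-- side by side; `g = 1`, `2`: with a block above the first, the second part -/
  | hh (g : ℕ) (al be : List Ml) (bt : BT) (c : LCt) (t t' : T6) : T6
  /-- one above the other -/
  | vv (g : ℕ) (al be : List Ml) (bt : BT) (c : LCt) (t t' : T6) : T6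
  /-- `t` and a block on its right -/
  | hs (b : ℕ) (bt : BT) (c : LCt) (t : T6) : T6
  /-- `t` and a block above -/
  | vs (b : ℕ) (bt : BT) (c : LCt) (t : T6) : T6

/-- the squares of a tree -/
def T6.sl (ns : List ℕ) : T6 → List ℕ
  | .sq i c => [nthR 0 ns i + c]
  | .bk _ _ _ _ => []
  | .hh _ _ _ _ _ t t' => t.sl ns ++ t'.sl ns
  | .vv _ _ _ _ _ t t' => t.sl ns ++ t'.sl ns
  | .hs _ _ _ t => t.sl ns
  | .vs _ _ _ t => t.sl ns

/-- adds to the two parts of the capacity -/
noncomputable def pn (q dP dN P N : ℕ) (k : ℕ → ℕ → Bool) : Bool :=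
  mck q (Nat.add P dP) (fun P => mck q (Nat.add N dN) (fun N => k P N))

/-- `240` times the capacity of the block `(A1 - A2) x (B1 - B2)`, rows in the direction of the first
side -/
noncomputable def capR (q y : ℕ) (cx : CX) (u : BU) (cl : LCt) (A1 A2 B1 B2 P N : ℕ)
    (kk : ℕ → ℕ → Bool) : Bool :=
  BU.rec (motive := fun _ => Bool)
    (andB (lc q cx cl (Nat.add y A2) A1)
      (pn q (Nat.mul 120 (Nat.add (outQ q A1 B1) (outQ q (Nat.add A2 y) (Nat.add B2 y))))
        (Nat.mul 120 (Nat.add (outQ q A1 (Nat.add B2 y)) (outQ q (Nat.add A2 y) B1))) P N kk))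
    (fun k c e => andB (Nat.ble 1 k) (andB (Nat.ble k 255) (andB (Nat.ble e 1024)
      (andB (Nat.ble (Nat.mul c (Nat.succ k)) (Nat.mul 120 k))
        (andB (Nat.rec (motive := fun _ => Bool) (Nat.ble 15 e) (fun _ _ =>
            Nat.ble (Nat.mul 120 (Nat.sub k 1)) (Nat.mul e (Nat.mul k (Nat.succ k))))
            (Nat.sub k 1))
          (andB (lc q cx cl (Nat.add (Nat.mul k y) A2) A1)
            (pn q (Nat.mul c (Nat.add (outQ q A1 B1) (outQ q A2 (Nat.add B2 y))))
              (Nat.add (Nat.mul c (Nat.add (outQ q A1 (Nat.add B2 y)) (outQ q A2 B1)))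
                (Nat.mul e (sqQ q y))) P N kk)))))))
    (fun k c f l => andB (Nat.ble 1 k) (andB (Nat.ble k 255) (andB (Nat.ble f 1024)
      (andB (Nat.ble (Nat.mul c (Nat.succ k)) (Nat.mul 120 k))
        (andB (Nat.ble 120 (Nat.mul f (Nat.mul k (Nat.succ k))))
          (andB (Nat.rec (motive := fun _ => Bool)
              (lc q cx cl (Nat.add (Nat.mul 4 y) (Nat.mul 3 A2)) (Nat.mul 3 A1)) (fun _ _ =>
                lc q cx cl (Nat.add (Nat.mul k y) A2) A1) (Nat.sub k 1))
            (andB (lc q cx l A1 (Nat.add (Nat.mul (Nat.succ k) y) A2))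
              (pn q (Nat.add (Nat.mul c (Nat.add (outQ q A1 B1) (outQ q A2 (Nat.add B2 y))))
                  (Nat.mul f (Nat.add (Nat.add (sqQ q A1) (sqQ q A2))
                    (Nat.add (Nat.mul (Nat.succ k) (sqQ q y))
                      (Nat.mul (Nat.succ (Nat.succ k)) (outQ q y A2))))))
                (Nat.add (Nat.mul c (Nat.add (outQ q A1 (Nat.add B2 y)) (outQ q A2 B1)))
                  (Nat.mul f (Nat.add (Nat.mul 2 (outQ q A1 A2))
                    (Nat.mul (Nat.succ (Nat.succ k)) (outQ q y A1))))) P N kk)))))))) u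

/-- `240` times the capacity of the block `A x (B1 - B2)` -/
noncomputable def capG (q y : ℕ) (cx : CX) (bt : BT) (c : LCt) (A B1 B2 P N : ℕ)
    (k : ℕ → ℕ → Bool) : Bool :=
  BT.rec (motive := fun _ => Bool) (fun o u => Nat.rec (motive := fun _ => Bool)
    (capR q y cx u c A 0 B1 B2 P N k) (fun _ _ => capR q y cx u c B1 B2 A 0 P N k) o) bt

/-- `240` times the capacity of the block `(A1 - A2) x (B1 - B2)` -/
noncomputable def capH (q y : ℕ) (cx : CX) (bt : BT) (c c' : LCt) (A1 A2 B1 B2 P N : ℕ)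
    (k : ℕ → ℕ → Bool) : Bool :=
  BT.rec (motive := fun _ => Bool) (fun o u => Nat.rec (motive := fun _ => Bool)
    (andB (lc q cx c' B2 B1) (capR q y cx u c A1 A2 B1 B2 P N k))
    (fun _ _ => andB (lc q cx c' A2 A1) (capR q y cx u c B1 B2 A1 A2 P N k)) o) bt

/-- `(w, h)` and `(w', h')` side by side, possibly with a block -/
noncomputable def jn (q y : ℕ) (cx : CX) (g : ℕ) (al be : List Ml) (bt : BT) (c : LCt)
    (w h w' h' P N : ℕ) (k : ℕ → ℕ → ℕ → ℕ → Bool) : Bool :=
  adc q cx al h (fun a => adc q cx be h' (fun b => vck q (Nat.add w w') (fun W =>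
    Nat.rec (motive := fun _ => Bool) (k W (mx K (mk1 q) a b) P N)
      (fun g _ => Nat.rec (motive := fun _ => Bool)
        (capG q y cx bt c w (mx K (mk1 q) a b) h P N (k W (mx K (mk1 q) a b)))
        (fun _ _ => capG q y cx bt c w' (mx K (mk1 q) a b) h' P N
          (k W (mx K (mk1 q) a b))) g) g)))

/-- evaluation of a tree; the continuation gets the width, the height, the set of the squares and the
two parts of the capacity -/
noncomputable def ev (q tm y : ℕ) (nf : ℕ → ℕ) (cx : CX) (vs : ℕ → ℕ) (t : T6) :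
    ℕ → ℕ → ℕ → (ℕ → ℕ → ℕ → ℕ → ℕ → Bool) → Bool :=
  T6.rec (motive := fun _ => ℕ → ℕ → ℕ → (ℕ → ℕ → ℕ → ℕ → ℕ → Bool) → Bool)
    (fun i c acc P N k => andB (Nat.ble (Nat.succ i) tm)
      (andB (Nat.beq (Nat.land acc (Nat.pow 2 (Nat.add (nf i) c))) 0)
        (k (xr q (Nat.succ i)) (xr q (Nat.succ i))
          (Nat.lor acc (Nat.pow 2 (Nat.add (nf i) c))) P N)))
    (fun a b bt c acc P N k => capG q y cx bt c (sn q (vs a))
      (sn q (vs b)) 0 P N
      (fun P N => k (sn q (vs a)) (sn q (vs b)) acc P N))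
    (fun g al be bt c _ _ r r' acc P N k => r acc P N (fun w h acc P N =>
      r' acc P N (fun w' h' acc P N =>
        jn q y cx g al be bt c w h w' h' P N (fun W H P N => k W H acc P N))))
    (fun g al be bt c _ _ r r' acc P N k => r acc P N (fun w h acc P N =>
      r' acc P N (fun w' h' acc P N =>
        jn q y cx g al be bt c h w h' w' P N (fun W H P N => k H W acc P N))))
    (fun b bt c _ r acc P N k => r acc P N (fun w h acc P N =>
      capG q y cx bt c h (sn q (vs b)) 0 P N (fun P N =>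
        vck q (Nat.add w (sn q (vs b))) (fun W => k W h acc P N))))
    (fun b bt c _ r acc P N k => r acc P N (fun w h acc P N =>
      capG q y cx bt c w (sn q (vs b)) 0 P N (fun P N =>
        vck q (Nat.add h (sn q (vs b))) (fun H => k w H acc P N)))) t

/-- `acc` is the set `S` -/
def AccOK (acc : ℕ) (S : List ℕ) : Prop := S.Nodup ∧ ∀ j, acc.testBit j = true ↔ j ∈ S

theorem accOK_step {acc : ℕ} {S : List ℕ} (h : AccOK acc S) {j : ℕ}
    (hj : Nat.beq (Nat.land acc (Nat.pow 2 j)) 0 = true) :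
    AccOK (Nat.lor acc (Nat.pow 2 j)) (S ++ [j]) := by
  have h1 : acc &&& 2 ^ j = 0 := Nat.eq_of_beq_eq_true hj
  have h2 : j ∉ S := by
    intro hS
    have h3 := (h.2 j).2 hS
    have h4 : (acc &&& 2 ^ j).testBit j = true := by
      rw [Nat.testBit_and, h3, Nat.testBit_two_pow_self]
      rfl
    rw [h1, Nat.zero_testBit] at h4
    exact absurd h4 (by simp)
  refine ⟨?_, fun i => ?_⟩
  · rw [List.nodup_append]
    refine ⟨h.1, List.nodup_singleton _, fun a ha b hb hab => ?_⟩
    rw [List.mem_singleton] at hb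
    rw [hab, hb] at ha
    exact h2 ha
  · show (acc ||| 2 ^ j).testBit i = true ↔ _
    rw [Nat.testBit_or, Bool.or_eq_true, h.2 i, Nat.testBit_two_pow, List.mem_append,
      List.mem_singleton, decide_eq_true_iff, eq_comm (a := j)]

/-- the parts of the tail are packed into the blocks -/
abbrev PartsOK (parts : List (List ℝ)) (Bs : List (ℝ × ℝ × ℝ)) : Prop :=
  List.Forall₂ (fun p (B : ℝ × ℝ × ℝ) => PacksL p B.1 B.2.1) parts Bs

/-- what the evaluation of a tree guarantees -/
def TOK (q : ℕ) (δ : ℕ → ℝ) (Y : ℝ) (cont : ℕ → List ℝ) (sl S : List ℕ) (rp rn : ℝ)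
    (k : ℕ → ℕ → ℕ → ℕ → ℕ → Bool) : Prop :=
  ∃ (W H acc P N : ℕ) (w h p n : ℝ) (Bs : List (ℝ × ℝ × ℝ)), k W H acc P N = true ∧
    VR q δ VB W w ∧ VR q δ VB H h ∧ AccOK acc (S ++ sl) ∧ MR q δ MB P p ∧ MR q δ MB N n ∧
    (∀ B ∈ Bs, BOK Y B) ∧ 240 * (Bs.map fun B => B.2.2).sum = (p - rp) - (n - rn) ∧
    ∀ parts, PartsOK parts Bs → PacksL ((sl.map cont).flatten ++ parts.flatten) w h

section sound

variable {q tm y : ℕ} {ns : List ℕ} {δ : ℕ → ℝ} {cx : CX} {vs : ℕ → ℕ} {nf : ℕ → ℕ} {Y : ℝ}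
  {X : ℕ → ℝ} {cont : ℕ → List ℝ}

theorem MR.smul_le {b u c C : ℕ} {r : ℝ} (h : MR q δ b u r) (hc : c ≤ C) :
    MR q δ (C * b) (Nat.mul c u) (c * r) :=
  (h.smul c).mono (Nat.mul_le_mul_right _ hc)

theorem pn_sound {dP dN P N b : ℕ} {rdP rdN p n : ℝ} (hb : MB + b < 2 ^ K)
    (h1 : MR q δ b dP rdP) (h2 : MR q δ b dN rdN) (hP : MR q δ MB P p) (hN : MR q δ MB N n)
    {k : ℕ → ℕ → Bool} (h : pn q dP dN P N k = true) :
    ∃ P' N' p' n', k P' N' = true ∧ MR q δ MB P' p' ∧ MR q δ MB N' n' ∧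
      (p' - p) - (n' - n) = rdP - rdN := by
  obtain ⟨h3, h⟩ := mck_sound hb (hP.add h1) h
  obtain ⟨h4, h⟩ := mck_sound hb (hN.add h2) h
  exact ⟨_, _, _, _, h, h3, h4, by ring⟩

theorem capR_sound (hx : Ctx q δ) (hc : CXok q δ cx) (hy : VR q δ VB y Y) {u : BU}
    {cl : LCt} {A1 A2 B1 B2 P N : ℕ} {a1 a2 b1 b2 p n : ℝ} (hA1 : VR q δ VB A1 a1)
    (hA2 : VR q δ VB A2 a2) (hB1 : VR q δ VB B1 b1) (hB2 : VR q δ VB B2 b2)
    (hP : MR q δ MB P p) (hN : MR q δ MB N n) {kk : ℕ → ℕ → Bool}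
    (h : capR q y cx u cl A1 A2 B1 B2 P N kk = true) :
    ∃ P' N' p' n' f, kk P' N' = true ∧ MR q δ MB P' p' ∧ MR q δ MB N' n' ∧
      BOK Y (a1 - a2, b1 - b2, f) ∧ 240 * f = (p' - p) - (n' - n) ∧ Y ≤ a1 - a2 := by
  have hV : VB ≤ 2 ^ 100 := by norm_num [VB]
  have hV2 : VB + VB ≤ 2 ^ 100 := by norm_num [VB]
  have hY := hy.nonneg hx
  have hB2y := hB2.add hy
  have hA2y := hA2.add hy
  have m11 := (MR.out hx hV hV hA1 hB1).mono (b' := 2 ^ 92) (by norm_num [VB])
  have m12 := (MR.out hx hV hV2 hA1 hB2y).mono (b' := 2 ^ 92) (by norm_num [VB])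
  have m21 := (MR.out hx hV hV hA2 hB1).mono (b' := 2 ^ 92) (by norm_num [VB])
  have m22 := (MR.out hx hV hV2 hA2 hB2y).mono (b' := 2 ^ 92) (by norm_num [VB])
  have n21 := (MR.out hx hV2 hV hA2y hB1).mono (b' := 2 ^ 92) (by norm_num [VB])
  have n22 := (MR.out hx hV2 hV2 hA2y hB2y).mono (b' := 2 ^ 92) (by norm_num [VB])
  have my := (MR.sq hx hV hy).mono (b' := 2 ^ 92) (by norm_num [VB])
  have mA1 := (MR.sq hx hV hA1).mono (b' := 2 ^ 92) (by norm_num [VB])
  have mA2 := (MR.sq hx hV hA2).mono (b' := 2 ^ 92) (by norm_num [VB])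
  have mA12 := (MR.out hx hV hV hA1 hA2).mono (b' := 2 ^ 92) (by norm_num [VB])
  have myA1 := (MR.out hx hV hV hy hA1).mono (b' := 2 ^ 92) (by norm_num [VB])
  have myA2 := (MR.out hx hV hV hy hA2).mono (b' := 2 ^ 92) (by norm_num [VB])
  cases u with
  | mm =>
    obtain ⟨h1, h⟩ := andB_eq_true.1 h
    have h2 := lc_sound hx hc (b := VB + VB) (by norm_num [VB]) (hy.add hA2) (hA1.mono (Nat.le_add_right _ _)) h1
    obtain ⟨P', N', p', n', h, h3, h4, h5⟩ := pn_sound (b := 2 ^ 106) (by norm_num [MB, K])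
      (((m11.add n22).smul 120).mono (by norm_num)) (((m12.add n21).smul 120).mono (by norm_num))
      hP hN h
    refine ⟨P', N', p', n', _, h, h3, h4, bok_mm (by linarith), ?_, by linarith⟩
    rw [h5]
    push_cast
    ring
  | r1 k c e =>
    obtain ⟨g1, h⟩ := andB_eq_true.1 h
    obtain ⟨g2, h⟩ := andB_eq_true.1 h
    obtain ⟨g3, h⟩ := andB_eq_true.1 h
    obtain ⟨g4, h⟩ := andB_eq_true.1 h
    obtain ⟨g5, h⟩ := andB_eq_true.1 h
    obtain ⟨h1, h⟩ := andB_eq_true.1 h
    have g1 : 1 ≤ k := Nat.le_of_ble_eq_true g1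
    have g2 : k ≤ 255 := Nat.le_of_ble_eq_true g2
    have g3 : e ≤ 1024 := Nat.le_of_ble_eq_true g3
    have g4 : c * (k + 1) ≤ 120 * k := Nat.le_of_ble_eq_true g4
    have gc : c ≤ 120 := by nlinarith
    have hk1 : (1 : ℝ) ≤ k := by exact_mod_cast g1
    have h2 := lc_sound hx hc (b := 255 * VB + VB) (by norm_num [VB])
      (((hy.smul k).mono (Nat.mul_le_mul_right _ g2)).add hA2) (hA1.mono (by norm_num [VB])) h1
    obtain ⟨P', N', p', n', h, h3, h4, h5⟩ := pn_sound (b := 2 ^ 106) (by norm_num [MB, K])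
      (((m11.add m22).smul_le gc).mono (by norm_num))
      ((((m12.add m21).smul_le gc).add (my.smul_le g3)).mono (by norm_num)) hP hN h
    have hcr : (c : ℝ) / 120 ≤ k / (k + 1) := by
      rw [div_le_div_iff₀ (by norm_num) (by linarith)]
      exact_mod_cast (by rw [mul_comm k 120]; exact g4 : c * (k + 1) ≤ k * 120)
    have hdef := deficit_one (a := a1 - a2) (Y := Y) (D := e / 120 * Y ^ 2) g1 (by linarith) hY
      (fun hk => by
        subst hk
        have g5 : 15 ≤ e := Nat.le_of_ble_eq_true g5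
        have : (15 : ℝ) ≤ e := by exact_mod_cast g5
        nlinarith [sq_nonneg Y])
      (fun hk => by
        obtain ⟨k', rfl⟩ : ∃ k', k = k' + 2 := ⟨k - 2, by omega⟩
        have g5 : 120 * (k' + 2 - 1) ≤ e * ((k' + 2) * (k' + 2 + 1)) :=
          Nat.le_of_ble_eq_true g5
        have g6 : 120 * (k' + 1) ≤ e * ((k' + 2) * (k' + 2 + 1)) := g5
        have g7 : (120 : ℝ) * (k' + 1) ≤ e * ((k' + 2) * (k' + 2 + 1)) := by exact_mod_cast g6
        push_cast
        nlinarith [mul_le_mul_of_nonneg_right g7 (sq_nonneg Y)])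
    refine ⟨P', N', p', n', _, h, h3, h4, bok_row (c := c / 120) g1 (by linarith) hY
      (by positivity) hdef (by positivity) hcr, ?_, by nlinarith⟩
    rw [h5]
    ring
  | r2 k c f l =>
    obtain ⟨g1, h⟩ := andB_eq_true.1 h
    obtain ⟨g2, h⟩ := andB_eq_true.1 h
    obtain ⟨g3, h⟩ := andB_eq_true.1 h
    obtain ⟨g4, h⟩ := andB_eq_true.1 h
    obtain ⟨g5, h⟩ := andB_eq_true.1 h
    obtain ⟨h1, h⟩ := andB_eq_true.1 h
    obtain ⟨h1', h⟩ := andB_eq_true.1 h
    have g1 : 1 ≤ k := Nat.le_of_ble_eq_true g1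
    have g2 : k ≤ 255 := Nat.le_of_ble_eq_true g2
    have g3 : f ≤ 1024 := Nat.le_of_ble_eq_true g3
    have g4 : c * (k + 1) ≤ 120 * k := Nat.le_of_ble_eq_true g4
    have g5 : 120 ≤ f * (k * (k + 1)) := Nat.le_of_ble_eq_true g5
    have gc : c ≤ 120 := by nlinarith
    have hk1 : (1 : ℝ) ≤ k := by exact_mod_cast g1
    have h2 : k * Y ≤ a1 - a2 ∧ (k = 1 → 4 * Y ≤ 3 * (a1 - a2)) := by
      rcases g1.lt_or_eq with hk | hk
      · obtain ⟨k', rfl⟩ : ∃ k', k = k' + 2 := ⟨k - 2, by omega⟩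
        have h1 : lc q cx cl (Nat.add (Nat.mul (k' + 2) y) A2) A1 = true := h1
        have h2 := lc_sound hx hc (b := 255 * VB + VB) (by norm_num [VB])
          (((hy.smul (k' + 2)).mono (Nat.mul_le_mul_right _ g2)).add hA2)
          (hA1.mono (by norm_num [VB])) h1
        exact ⟨by linarith, fun h => absurd h (by omega)⟩
      · subst hk
        have h1 : lc q cx cl (Nat.add (Nat.mul 4 y) (Nat.mul 3 A2)) (Nat.mul 3 A1) = true := h1
        have h2 := lc_sound hx hc (b := 4 * VB + 3 * VB) (by norm_num [VB])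
          ((hy.smul 4).add (hA2.smul 3)) ((hA1.smul 3).mono (by norm_num [VB])) h1
        push_cast at h2 ⊢
        exact ⟨by linarith, fun _ => by linarith⟩
    have h2' := lc_sound hx hc (b := 256 * VB + VB) (by norm_num [VB])
      (hA1.mono (by norm_num [VB]))
      (((hy.smul (k + 1)).mono (Nat.mul_le_mul_right _ (by omega))).add hA2) h1'
    push_cast at h2'
    have hk2 : k + 1 ≤ 256 := by omega
    have hk3 : k + 2 ≤ 257 := by omega
    obtain ⟨P', N', p', n', h, h3, h4, h5⟩ := pn_sound (b := 2 ^ 116) (by norm_num [MB, K])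
      ((((m11.add m22).smul_le gc).add (((mA1.add mA2).add ((my.smul_le hk2).add
        (myA2.smul_le hk3))).smul_le g3)).mono (by norm_num))
      ((((m12.add m21).smul_le gc).add (((mA12.smul 2).add (myA1.smul_le hk3)).smul_le g3)).mono
        (by norm_num)) hP hN h
    push_cast at h5
    have hcr : (c : ℝ) / 120 ≤ k / (k + 1) := by
      rw [div_le_div_iff₀ (by norm_num) (by linarith)]
      exact_mod_cast (by rw [mul_comm k 120]; exact g4 : c * (k + 1) ≤ k * 120)
    have haY : Y ≤ a1 - a2 := by nlinarith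
    have hpr : 0 ≤ ((k + 1) * Y - (a1 - a2)) * ((a1 - a2) - Y) :=
      mul_nonneg (by linarith) (by linarith)
    have hdef := deficit_two (a := a1 - a2) (Y := Y)
      (D := f / 120 * (((k + 1) * Y - (a1 - a2)) * ((a1 - a2) - Y))) g1 h2.1 h2.2 (by linarith) (by
        have g6 : (120 : ℝ) ≤ f * (k * (k + 1)) := by exact_mod_cast g5
        nlinarith [mul_le_mul_of_nonneg_right g6 hpr])
    refine ⟨P', N', p', n', _, h, h3, h4, bok_row (c := c / 120) g1 h2.1 hY
      (by positivity) hdef (by positivity) hcr, ?_, haY⟩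
    rw [h5]
    ring

theorem capG_sound (hx : Ctx q δ) (hc : CXok q δ cx) (hy : VR q δ VB y Y) {bt : BT}
    {c : LCt} {A B1 B2 P N : ℕ} {a b1 b2 p n : ℝ} (hA : VR q δ VB A a) (hB1 : VR q δ VB B1 b1)
    (hB2 : VR q δ VB B2 b2) (hP : MR q δ MB P p) (hN : MR q δ MB N n) {k : ℕ → ℕ → Bool}
    (h : capG q y cx bt c A B1 B2 P N k = true) :
    ∃ P' N' p' n' f, k P' N' = true ∧ MR q δ MB P' p' ∧ MR q δ MB N' n' ∧
      BOK Y (a, b1 - b2, f) ∧ 240 * f = (p' - p) - (n' - n) := by
  obtain ⟨o, u⟩ := bt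
  have h0 : VR q δ VB 0 0 := VR.zero.mono (Nat.zero_le _)
  cases o with
  | zero =>
    obtain ⟨P', N', p', n', f, h1, h2, h3, h4, h5, _⟩ := capR_sound hx hc hy hA h0 hB1 hB2 hP hN h
    rw [sub_zero] at h4
    exact ⟨P', N', p', n', f, h1, h2, h3, h4, h5⟩
  | succ o =>
    obtain ⟨P', N', p', n', f, h1, h2, h3, h4, h5, _⟩ := capR_sound hx hc hy hB1 hB2 hA h0 hP hN h
    rw [sub_zero] at h4
    exact ⟨P', N', p', n', f, h1, h2, h3, h4.swap, h5⟩

theorem capH_sound (hx : Ctx q δ) (hc : CXok q δ cx) (hy : VR q δ VB y Y) {bt : BT}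
    {c c' : LCt} {A1 A2 B1 B2 P N : ℕ} {a1 a2 b1 b2 p n : ℝ} (hA1 : VR q δ VB A1 a1)
    (hA2 : VR q δ VB A2 a2) (hB1 : VR q δ VB B1 b1)
    (hB2 : VR q δ VB B2 b2) (hP : MR q δ MB P p) (hN : MR q δ MB N n) {k : ℕ → ℕ → Bool}
    (h : capH q y cx bt c c' A1 A2 B1 B2 P N k = true) :
    ∃ P' N' p' n' f, k P' N' = true ∧ MR q δ MB P' p' ∧ MR q δ MB N' n' ∧
      BOK Y (a1 - a2, b1 - b2, f) ∧ 240 * f = (p' - p) - (n' - n) ∧ a2 ≤ a1 ∧ b2 ≤ b1 := by
  obtain ⟨o, u⟩ := bt
  have hY := hy.nonneg hx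
  cases o with
  | zero =>
    obtain ⟨g, h⟩ := andB_eq_true.1 h
    have g := lc_sound hx hc (b := VB) (by norm_num [VB]) hB2 hB1 g
    obtain ⟨P', N', p', n', f, h1, h2, h3, h4, h5, h6⟩ :=
      capR_sound hx hc hy hA1 hA2 hB1 hB2 hP hN h
    exact ⟨P', N', p', n', f, h1, h2, h3, h4, h5, by linarith, g⟩
  | succ o =>
    obtain ⟨g, h⟩ := andB_eq_true.1 h
    have g := lc_sound hx hc (b := VB) (by norm_num [VB]) hA2 hA1 g
    obtain ⟨P', N', p', n', f, h1, h2, h3, h4, h5, h6⟩ :=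
      capR_sound hx hc hy hB1 hB2 hA1 hA2 hP hN h
    exact ⟨P', N', p', n', f, h1, h2, h3, h4.swap, h5, g, by linarith⟩

theorem jn_sound (hx : Ctx q δ) (hc : CXok q δ cx) (hy : VR q δ VB y Y) {g : ℕ}
    {al be : List Ml} {bt : BT} {c : LCt} {W H W' H' P N : ℕ} {w h w' h' p n : ℝ}
    (hW : VR q δ VB W w) (hH : VR q δ VB H h) (hW' : VR q δ VB W' w') (hH' : VR q δ VB H' h')
    (hP : MR q δ MB P p) (hN : MR q δ MB N n) {k : ℕ → ℕ → ℕ → ℕ → Bool}
    (hk : jn q y cx g al be bt c W H W' H' P N k = true) :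
    ∃ (W2 H2 P2 N2 : ℕ) (w2 h2 p2 n2 : ℝ) (Bs : List (ℝ × ℝ × ℝ)), k W2 H2 P2 N2 = true ∧
      VR q δ VB W2 w2 ∧ VR q δ VB H2 h2 ∧ MR q δ MB P2 p2 ∧ MR q δ MB N2 n2 ∧
      (∀ B ∈ Bs, BOK Y B) ∧ 240 * (Bs.map fun B => B.2.2).sum = (p2 - p) - (n2 - n) ∧
      ∀ C C' parts, PacksL C w h → PacksL C' w' h' → PartsOK parts Bs →
        PacksL ((C ++ C') ++ parts.flatten) w2 h2 := by
  obtain ⟨a, ra, hk, ha, hra⟩ := adc_sound hx hc hH hk
  obtain ⟨b, rb, hk, hb, hrb⟩ := adc_sound hx hc hH' hk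
  obtain ⟨hWW, hk⟩ := vck_sound (by norm_num [VB, K]) (hW.add hW') hk
  obtain ⟨s, hs, hs1, hs2⟩ := VR.mx hx (by norm_num [VB, K]) ha hb
  have hw0 := hW.nonneg hx
  have hw0' := hW'.nonneg hx
  have hh0 := hH.nonneg hx
  have hh0' := hH'.nonneg hx
  rcases g with _ | g
  · refine ⟨_, _, P, N, w + w', s, p, n, [], hk, hWW, hs, hP, hN, by simp, by simp, ?_⟩
    intro C C' parts h1 h2 h3
    obtain rfl := List.forall₂_nil_right_iff.1 h3
    rw [List.flatten_nil, List.append_nil]
    exact PacksL.hor hw0 hw0' (h1.mono le_rfl (by linarith)) (h2.mono le_rfl (by linarith))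
  · rcases g with _ | g
    · obtain ⟨P2, N2, p2, n2, f, hk, hP2, hN2, hY, he⟩ := capG_sound hx hc hy hW hs hH hP hN hk
      refine ⟨_, _, P2, N2, w + w', s, p2, n2, [(w, s - h, f)], hk, hWW, hs,
        hP2, hN2, ?_, by simpa using he, ?_⟩
      · intro B hB
        rw [List.mem_singleton] at hB
        rw [hB]
        exact hY
      · intro C C' parts h1 h2 h3
        rw [PartsOK, List.forall₂_cons_right_iff] at h3
        obtain ⟨r, rs, g8, g9, rfl⟩ := h3
        obtain rfl := List.forall₂_nil_right_iff.1 g9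
        have k1 := PacksL.ver hh0 (by linarith : (0 : ℝ) ≤ s - h) h1 g8
        rw [show h + (s - h) = s by ring] at k1
        have k2 := PacksL.hor hw0 hw0' k1 (h2.mono le_rfl (by linarith))
        refine k2.perm ?_
        rw [List.flatten_cons, List.flatten_nil, List.append_nil, List.append_assoc,
          List.append_assoc]
        exact (List.perm_append_comm).append_left _
    · obtain ⟨P2, N2, p2, n2, f, hk, hP2, hN2, hY, he⟩ := capG_sound hx hc hy hW' hs hH' hP hN hk
      refine ⟨_, _, P2, N2, w + w', s, p2, n2, [(w', s - h', f)], hk, hWW,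
        hs, hP2, hN2, ?_, by simpa using he, ?_⟩
      · intro B hB
        rw [List.mem_singleton] at hB
        rw [hB]
        exact hY
      · intro C C' parts h1 h2 h3
        rw [PartsOK, List.forall₂_cons_right_iff] at h3
        obtain ⟨r, rs, g8, g9, rfl⟩ := h3
        obtain rfl := List.forall₂_nil_right_iff.1 g9
        have k1 := PacksL.ver hh0' (by linarith : (0 : ℝ) ≤ s - h') h2 g8
        rw [show h' + (s - h') = s by ring] at k1
        have k2 := PacksL.hor hw0 hw0' (h1.mono le_rfl (by linarith)) k1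
        rw [List.flatten_cons, List.flatten_nil, List.append_nil, List.append_assoc]
        exact k2

theorem forall₂_nil_of {α β : Type*} {R : α → β → Prop} {l : List α} (h : List.Forall₂ R l []) :
    l = [] := List.forall₂_nil_right_iff.1 h

theorem map_flatten_append (cont : ℕ → List ℝ) (s s' : List ℕ) :
    ((s ++ s').map cont).flatten = (s.map cont).flatten ++ (s'.map cont).flatten := by
  rw [List.map_append, List.flatten_append]

theorem ev_sound (hx : Ctx q δ) (hc : CXok q δ cx) (hy : VR q δ VB y Y)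
    (htm : tm < q) (hX : ∀ i < q, VR q δ VB (xr q i) (X i))
    (hnf : ∀ i < tm, nf i = nthR 0 ns i)
    (hsq : ∀ i c, i < tm → PacksL (cont (nthR 0 ns i + c)) (X (i + 1)) (X (i + 1))) (t : T6) :
    ∀ (S : List ℕ) (acc P N : ℕ) (rp rn : ℝ) (k : ℕ → ℕ → ℕ → ℕ → ℕ → Bool), AccOK acc S →
      MR q δ MB P rp → MR q δ MB N rn → ev q tm y nf cx vs t acc P N k = true →
      TOK q δ Y cont (t.sl ns) S rp rn k := by
  have h28 : (2 : ℕ) ^ 36 ≤ VB := by norm_num [VB]
  have h0 : VR q δ VB 0 0 := VR.zero.mono (Nat.zero_le _)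
  induction t with
  | sq i c =>
    intro S acc P N rp rn k hacc hP hN h
    obtain ⟨g1, h⟩ := andB_eq_true.1
      (show andB (Nat.ble (Nat.succ i) tm) _ = true from h)
    obtain ⟨g2, h⟩ := andB_eq_true.1 h
    have g1 : i + 1 ≤ tm := Nat.le_of_ble_eq_true g1
    rw [hnf i g1] at g2 h
    have hj := hX (i + 1) (by omega)
    refine ⟨_, _, _, P, N, X (i + 1), X (i + 1), rp, rn, [], h, hj, hj, accOK_step hacc g2, hP,
      hN, by simp, by simp, ?_⟩
    intro parts hp
    obtain rfl := List.forall₂_nil_right_iff.1 hp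
    simpa [T6.sl] using hsq i c (by omega)
  | bk a b bt c =>
    intro S acc P N rp rn k hacc hP hN h
    have hA := (VR.san (q := q) (δ := δ) (vs a)).mono h28
    have hB := (VR.san (q := q) (δ := δ) (vs b)).mono h28
    obtain ⟨P', N', p', n', f, h1, h2, h3, h4, h5⟩ := capG_sound hx hc hy hA hB h0 hP hN h
    refine ⟨_, _, _, P', N', _, _, p', n', [(lin q δ (se (vs a)),
      lin q δ (se (vs b)), f)], h1, hA, hB, by simpa [T6.sl] using hacc, h2, h3,
      ?_, by simpa using h5, ?_⟩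
    · intro B hB
      rw [List.mem_singleton] at hB
      rw [hB]
      rwa [sub_zero] at h4
    · intro parts hp
      rw [PartsOK, List.forall₂_cons_right_iff] at hp
      obtain ⟨r, rs, g8, g9, rfl⟩ := hp
      obtain rfl := List.forall₂_nil_right_iff.1 g9
      simpa [T6.sl] using g8
  | hh g al be bt c t t' ih ih' =>
    intro S acc P N rp rn k hacc hP hN h
    obtain ⟨W, H, acc1, P1, N1, w, hh, p1, n1, Bs, h, a1, a2, a3, a4, a5, a6, a7, a8⟩ :=
      ih S acc P N rp rn _ hacc hP hN h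
    obtain ⟨W', H', acc2, P2, N2, w', hh', p2, n2, Bs', h, b1, b2, b3, b4, b5, b6, b7, b8⟩ :=
      ih' (S ++ t.sl ns) acc1 P1 N1 p1 n1 _ a3 a4 a5 h
    obtain ⟨W3, H3, P3, N3, w3, h3, p3, n3, Bs3, h, c1, c2, c3, c4, c5, c6, c7⟩ :=
      jn_sound hx hc hy a1 a2 b1 b2 b4 b5 h
    refine ⟨W3, H3, acc2, P3, N3, w3, h3, p3, n3, Bs ++ (Bs' ++ Bs3), h, c1, c2, ?_, c3, c4, ?_,
      ?_, ?_⟩
    · rw [T6.sl, ← List.append_assoc]
      exact b3
    · intro B hB
      rcases List.mem_append.1 hB with hB | hB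
      · exact a6 B hB
      · rcases List.mem_append.1 hB with hB | hB
        · exact b6 B hB
        · exact c5 B hB
    · rw [List.map_append, List.map_append, List.sum_append, List.sum_append, mul_add, mul_add,
        a7, b7, c6]
      ring
    · intro parts hp
      obtain ⟨p1, p23, rfl, g5, g6⟩ := forall₂_split hp
      obtain ⟨p2, p3, rfl, g6', g7⟩ := forall₂_split g6
      have d := c7 _ _ p3 (a8 p1 g5) (b8 p2 g6') g7
      refine d.perm ?_
      rw [T6.sl, map_flatten_append, List.flatten_append, List.flatten_append]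
      have := (comb_perm ((t.sl ns).map cont).flatten ((t'.sl ns).map cont).flatten p1.flatten
        p2.flatten).append_right p3.flatten
      refine this.trans ?_
      rw [List.append_assoc (((t.sl ns).map cont).flatten ++ ((t'.sl ns).map cont).flatten),
        List.append_assoc p1.flatten]
  | vv g al be bt c t t' ih ih' =>
    intro S acc P N rp rn k hacc hP hN h
    obtain ⟨W, H, acc1, P1, N1, w, hh, p1, n1, Bs, h, a1, a2, a3, a4, a5, a6, a7, a8⟩ :=
      ih S acc P N rp rn _ hacc hP hN h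
    obtain ⟨W', H', acc2, P2, N2, w', hh', p2, n2, Bs', h, b1, b2, b3, b4, b5, b6, b7, b8⟩ :=
      ih' (S ++ t.sl ns) acc1 P1 N1 p1 n1 _ a3 a4 a5 h
    obtain ⟨W3, H3, P3, N3, w3, h3, p3, n3, Bs3, h, c1, c2, c3, c4, c5, c6, c7⟩ :=
      jn_sound hx hc hy a2 a1 b2 b1 b4 b5 h
    refine ⟨H3, W3, acc2, P3, N3, h3, w3, p3, n3, Bs ++ (Bs' ++ Bs3.map fun B => (B.2.1, B.1, B.2.2)),
      h, c2, c1, ?_, c3, c4, ?_, ?_, ?_⟩
    · rw [T6.sl, ← List.append_assoc]
      exact b3
    · intro B hB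
      rcases List.mem_append.1 hB with hB | hB
      · exact a6 B hB
      · rcases List.mem_append.1 hB with hB | hB
        · exact b6 B hB
        · obtain ⟨B', hB', rfl⟩ := List.mem_map.1 hB
          rcases c5 B' hB' with h5 | h5
          · exact Or.inl (cap_swap h5)
          · exact Or.inr h5
    · rw [List.map_append, List.map_append, List.sum_append, List.sum_append, mul_add, mul_add,
        a7, b7, List.map_map]
      have : ((fun B : ℝ × ℝ × ℝ => B.2.2) ∘ fun B : ℝ × ℝ × ℝ => (B.2.1, B.1, B.2.2)) =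
          fun B => B.2.2 := rfl
      rw [this, c6]
      ring
    · intro parts hp
      obtain ⟨p1, p23, rfl, g5, g6⟩ := forall₂_split hp
      obtain ⟨p2, p3, rfl, g6', g7⟩ := forall₂_split g6
      have g7' : PartsOK p3 Bs3 := by
        rw [List.forall₂_map_right_iff] at g7
        exact g7.imp fun {a b} h => h.swap
      have d := (c7 _ _ p3 (a8 p1 g5).swap (b8 p2 g6').swap g7').swap
      refine d.perm ?_
      rw [T6.sl, map_flatten_append, List.flatten_append, List.flatten_append]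
      have := (comb_perm ((t.sl ns).map cont).flatten ((t'.sl ns).map cont).flatten p1.flatten
        p2.flatten).append_right p3.flatten
      refine this.trans ?_
      rw [List.append_assoc (((t.sl ns).map cont).flatten ++ ((t'.sl ns).map cont).flatten),
        List.append_assoc p1.flatten]
  | hs b bt c t ih =>
    intro S acc P N rp rn k hacc hP hN h
    obtain ⟨W, H, acc1, P1, N1, w, hh, p1, n1, Bs, h, a1, a2, a3, a4, a5, a6, a7, a8⟩ :=
      ih S acc P N rp rn _ hacc hP hN h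
    have hB := (VR.san (q := q) (δ := δ) (vs b)).mono h28
    obtain ⟨P', N', p', n', f, h, h2, h3, h4, h5⟩ := capG_sound hx hc hy a2 hB h0 a4 a5 h
    obtain ⟨hWW, h⟩ := vck_sound (by norm_num [VB, K]) (a1.add hB) h
    have hb0 := hB.nonneg hx
    have hw0 := a1.nonneg hx
    refine ⟨_, H, acc1, P', N', _, hh, p', n', Bs ++ [(lin q δ (se (vs b)), hh,
      f)], h, hWW, a2, a3, h2, h3, ?_, ?_, ?_⟩
    · intro B hB'
      rcases List.mem_append.1 hB' with hB' | hB'
      · exact a6 B hB'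
      · rw [List.mem_singleton] at hB'
        rw [hB']
        rw [sub_zero] at h4
        exact h4.swap
    · rw [List.map_append, List.sum_append, mul_add, a7]
      simp only [List.map_cons, List.map_nil, List.sum_cons, List.sum_nil, add_zero]
      rw [h5]
      ring
    · intro parts hp
      obtain ⟨p1, p2, rfl, g5, g6⟩ := forall₂_split hp
      rw [List.forall₂_cons_right_iff] at g6
      obtain ⟨r, rs, g8, g9, rfl⟩ := g6
      obtain rfl := List.forall₂_nil_right_iff.1 g9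
      have d := PacksL.hor hw0 hb0 (a8 p1 g5) g8
      rw [List.append_assoc] at d
      rw [T6.sl, List.flatten_append, List.flatten_cons, List.flatten_nil, List.append_nil]
      exact d
  | vs b bt c t ih =>
    intro S acc P N rp rn k hacc hP hN h
    obtain ⟨W, H, acc1, P1, N1, w, hh, p1, n1, Bs, h, a1, a2, a3, a4, a5, a6, a7, a8⟩ :=
      ih S acc P N rp rn _ hacc hP hN h
    have hB := (VR.san (q := q) (δ := δ) (vs b)).mono h28
    obtain ⟨P', N', p', n', f, h, h2, h3, h4, h5⟩ := capG_sound hx hc hy a1 hB h0 a4 a5 h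
    obtain ⟨hWW, h⟩ := vck_sound (by norm_num [VB, K]) (a2.add hB) h
    have hb0 := hB.nonneg hx
    have hw0 := a2.nonneg hx
    refine ⟨W, _, acc1, P', N', w, _, p', n', Bs ++ [(w, lin q δ (se (vs b)),
      f)], h, a1, hWW, a3, h2, h3, ?_, ?_, ?_⟩
    · intro B hB'
      rcases List.mem_append.1 hB' with hB' | hB'
      · exact a6 B hB'
      · rw [List.mem_singleton] at hB'
        rw [hB']
        rw [sub_zero] at h4
        exact h4
    · rw [List.map_append, List.sum_append, mul_add, a7]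
      simp only [List.map_cons, List.map_nil, List.sum_cons, List.sum_nil, add_zero]
      rw [h5]
      ring
    · intro parts hp
      obtain ⟨p1, p2, rfl, g5, g6⟩ := forall₂_split hp
      rw [List.forall₂_cons_right_iff] at g6
      obtain ⟨r, rs, g8, g9, rfl⟩ := g6
      obtain rfl := List.forall₂_nil_right_iff.1 g9
      have d := PacksL.ver hw0 hb0 (a8 p1 g5) g8
      rw [List.append_assoc] at d
      rw [T6.sl, List.flatten_append, List.flatten_cons, List.flatten_nil, List.append_nil]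
      exact d

end sound

end Pool.Agent.MOS.V6
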